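import Pool.Agent.Lib.MP_240c17_al.Sol.Base

/-!
# Statements of the lemmas for solvable Lie algebras in characteristic `p`

Every lemma is a `Prop`; the proof is in the docstring. The files proving them are independent: statements
used are hypotheses. Notation (see `Tor/Base.lean`, `Two/Basic.lean`, `Two/Spec.lean`, `Sol/Base.lean`):
`adr k y a = ⁅a, y⁆`, `wd a [z₁, …, z_r] = ⁅…⁅a, z₁⁆ …, z_r⁆`, `pw k y e a = ⁅…⁅a, y⁆ …, y⁆` (`e` times; below
written `a y^e`), `gd k D i`: `⊤, D, ⁅D, D⁆, ⁅⁅D, D⁆, D⁆ …` (`i = 0, 1, 2, 3, …`), `brn k M D t = ⁅…⁅M, D⁆ …, D⁆`,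
`Eng k D b`: all `a y^b` are in `D`, `fac d = wd (d 0) [d 1, …, d c]`, `Der k L e`: `a ↦ a y^e` is a derivation for
all `y`; `gen φ S`: the smallest subspace containing `S` and stable under the operators `φ i`; `FC Y Z`: `Y` has finite
codimension in `Z`; `BalW`, `BalInf`, `IdI`, `PF`, `IsOp`, `GG`, `Mid`, `mom`: see `Tor/Base.lean`. Many statements are
the statements of `Tor/Spec.lean` with the derived algebra `D1` and `gam` replaced with an ideal `D` and `gd`.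
-/

set_option autoImplicit false

namespace Pool.Agent.Lib.MP_240c17_al.Sol

universe u

open Pool.Agent.Lib.MP_240c17_al Pool.Agent.Lib.MP_240c17_al.Two Pool.Agent.Lib.MP_240c17_al.Tor

/-! ## A. Adaptations of lemmas of `Tor` -/

/-- (A1) PROOF. Exactly as in `Tor/Unbounded.lean` (docstring of `UnboundedProp`), with `D` in the place of `D1`
and `gd` in the place of `gam`. Only two changes: `pw_mem_D1` (`a y^e ∈ D1` for `e > 0`) is now
`a y^(p^s) ∈ D` by `Eng k D b` and `b ≤ p ^ s`; at the end, for `j = 0`, take `a₀ = a y^b ∈ D` and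
`b = b' y^(P p^(2c) + b)`. -/
def UnbProp : Prop :=
  ∀ (k : Type u) [Field k] (p : ℕ) [Fact p.Prime] [CharP k p] (L : Type u) [LieRing L]
    [LieAlgebra k L] (D : LieIdeal k L) (c b s Q : ℕ), gd k D (c + 1) = ⊥ → Eng k D b →
    b ≤ p ^ s → (∀ t, Der k L (p ^ t)) → Der k L (p ^ s + Q) → BalW k L c (p ^ s) Q →
    BalInf k L (p ^ s * (p ^ (2 * c) + 1) + b) Q

/-- As `IsOp` (`Tor/Base.lean`), but the homomorphisms `θ s j` are only required for `j < c`. -/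
def IsOpD (k : Type u) [Field k] {F : Type u} [LieRing F] [LieAlgebra k F] {n : ℕ} (x : Fin n → F)
    (c N : ℕ) (lam : ℕ → k) (g : ℕ → ℕ → k) (v : F) (T : Module.End k F) : Prop :=
  ∃ θ : ℕ → ℕ → (F →ₗ⁅k⁆ F),
    (∀ s, ∀ j < c, ∀ i, θ s j (x i) = x i + lam s • pw k v (N / (j + 1)) (x i)) ∧
    ∀ w, T w = ∑ j ∈ Finset.range c, ∑ s ∈ Finset.range (c + 1),
      ((-1) ^ j * g (j + 1) s) • θ s j w

/-- (A2) PROOF. Exactly as in `Tor/Expand.lean` (docstring of `ExpandProp`), with `D`, `gd` in the place of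
`D1`, `gam` and `IsOpD` in the place of `IsOp` (only `j < c` occurs in the sums). The elements `z v^m`, `m = N / (j+1) ≥ E ≥ b` and `(x i) v^P₀`, `P₀ ≥ E ≥ b`, are in `D` by `Eng k D b`. -/
def ExpProp : Prop :=
  ∀ (k : Type u) [Field k] (F : Type u) [LieRing F] [LieAlgebra k F] (D : LieIdeal k F) (n : ℕ)
    (x : Fin n → F) (c b N E Q P₀ : ℕ) (lam : ℕ → k) (g : ℕ → ℕ → k) (v : F)
    (T : Module.End k F),
    (∀ i ≤ c, ∀ l ≤ c, ∑ s ∈ Finset.range (c + 1), g i s * lam s ^ l = if i = l then 1 else 0) →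
    gd k D (c + 1) = ⊥ → Eng k D b → b ≤ E → BalInf k F E Q → 0 < E → E ≤ P₀ →
    (∀ j, 1 ≤ j → j ≤ c → Q * (j * (j + 1)) ∣ N ∧ E ≤ N / j) →
    v ∈ Submodule.span k (Set.range x) → IsOpD k x c N lam g v T →
    ∀ (i : Fin n) (ls : List (Fin n)),
      T (wd (pw k v P₀ (x i)) (ls.map x)) = wd (pw k v (P₀ + N) (x i)) (ls.map x)

/-- (A3) PROOF. Exactly as in `Tor/OpPoly.lean` (docstring of `OpPolyProp`), with `D`, `gd` in the place of
`D1`, `gam`: `(x l) v^m ∈ D` for `m = N / (j+1) ≥ b`. -/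
def OpPolProp : Prop :=
  ∀ (k : Type u) [Field k] (F : Type u) [LieRing F] [LieAlgebra k F] (D : LieIdeal k F) (n : ℕ)
    (x : Fin n → F) (c b N : ℕ) (lam : ℕ → k) (g : ℕ → ℕ → k) (T : k → Module.End k F),
    LieSubalgebra.lieSpan k F (Set.range x) = ⊤ → gd k D (c + 1) = ⊥ → Eng k D b →
    (∀ j < c, b ≤ N / (j + 1)) → (∀ μ, IsOpD k x c N lam g (mom k x μ) (T μ)) →
    ∀ w, PF k (c * N * n) (fun μ => T μ w)

/-- (A4) PROOF (uses `CombProp`, `LagrangeProp`, `PwPolyProp` of `Tor/Spec.lean`; compare `Tor/Nilp.lean`). Let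
`G = GG k x P₀ ν r`, `δ μ = pw k (mom k x μ) P₀`, a derivation (`Der k F P₀`) with values in `D` (`Eng`, `b ≤ P₀`). For
`1 ≤ i ≤ c` apply `CombProp` to `X = F`, `Z = gd i ⊔ G`, `Y = gd (i+1) ⊔ G`, `φ j = δ (ν j)`,
`A` = the span of all the `δ μ`, with `n := P₀ * n + 1` and `P₀ := 1`. Hypotheses: ideals are stable; commutation: for
`a ∈ gd i` (`i ≥ 1`), `δ ⁅a, y⁆ - ⁅δ a, y⁆ = ⁅a, δ y⁆ ∈ gd (i+1)`, so by induction on `e`,
`δ (a y^e) - (δ a) y^e ∈ gd (i+1)`; for `a ∈ G` everything is in `G`; then bilinear extension. Any `P₀ n + 1` of the `φ j`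
span `A`: `δ μ w = ∑ l ≤ P₀ n, μ^l q_l` (`PwPolyProp`) and `μ^l = ∑ ℓ μ i * (ν i)^l` for `l < P₀ n + 1`
(`LagrangeProp` for these nodes), so `δ μ = ∑ ℓ μ i • δ (ν i)`. The product over a list `l` of `r` distinct indices
applied to any `z` is in `Mid k P₀ (l.map …) ≤ G` (`Mid (y :: l) ∋ m y^P₀` for `m ∈ Mid l`, `Mid [] = ⊤`). So there is
`M i` with `(δ μ)^(M i) (gd i ⊔ G) ⊆ gd (i+1) ⊔ G`. As `w (mom μ)^b ∈ D = gd 1` and `gd (c+1) = ⊥`,
`M = b + ∑ i ∈ {1, …, c}, P₀ * M i` works (`(δ μ)^j = pw k (mom μ) (P₀ j)`). -/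
def NilProp : Prop :=
  ∀ (k : Type u) [Field k] (F : Type u) [LieRing F] [LieAlgebra k F] (D : LieIdeal k F) (n : ℕ)
    (x : Fin n → F) (c b P₀ r L : ℕ) (ν : Fin L → k), Function.Injective ν →
    r + (P₀ * n + 1) ≤ L + 1 → gd k D (c + 1) = ⊥ → Eng k D b → b ≤ P₀ → Der k F P₀ →
    ∃ M : ℕ, ∀ (μ : k) (w : F), pw k (mom k x μ) M w ∈ GG k x P₀ ν r

/-! ## B. Finite generation -/

/-- (B1) PROOF. `Z` is stable under `φ` and `ψ`. (0) Every `ρ` in the algebra generated by the `ψ i` preserves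
`Y` and `Z` and satisfies `ρ (φ j w) - φ j (ρ w) ∈ Y` for `w ∈ Z` (`Algebra.adjoin_induction`). (1) For a list `l` of elements of
`Fin n` and `w : X` let `W l w = (l.map φ).prod w = φ l₁ (φ l₂ (… w))`. Let `S ⊆ Z` be finite with
`gen (φ, ψ) S ⊔ Y = Z`, and `S'` = the set of the `W l s`, `s ∈ S`, `l` sorted (`l.Pairwise (· ≤ ·)`) with
`l.count i < A + q` for all `i` (such lists have length `≤ n (A + q)`, so `S'` is finite). Let `U = gen ψ S' ⊔ Y`, a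
`ψ`-stable subspace of `Z`. CLAIM: `W l s ∈ U` for all lists `l` and `s ∈ S`. Strong induction on the length of `l`. (a) If `l'` is a
permutation of `l` then `W l s - W l' s ∈ U` (`List.Perm` induction, or a swap of two neighbours):
`W (l₁ ++ i :: j :: l₂) s - W (l₁ ++ j :: i :: l₂) s = W l₁ (φ i (φ j w) - φ j (φ i w))`, `w = W l₂ s ∈ Z`, which is in the span of the
shorter words `W (l₁ ++ l :: l₂) s` plus `Y`. (b) So let `l` be sorted. If all the counts are `< A + q` then `W l s ∈ S'`.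
Otherwise `l = l₁ ++ replicate e i ++ l₂` with `e ≥ A + q`; `w = W l₂ s`;
`φ i ^ e w ≡ φ i ^ (e-A-q) (ρ i (φ i ^ A w)) ≡ ρ i (φ i ^ (e-q) w)` modulo `Y`, so
`W l s ≡ ρ i (W (l₁ ++ replicate (e-q) i ++ l₂) s)` modulo `Y`, and the shorter word is in `U`, which is stable under `ρ i`.
(2) `C = {w ∈ Z | ∀ l, W l w ∈ U}` is a subspace, stable under `φ` (`W l (φ i w) = W (l ++ [i]) w`) and under `ψ`
(`W l (ψ i w) - ψ i (W l w) ∈ Y`), and contains `S`. So `gen (φ, ψ) S ≤ C ≤ U` (`l = []`) and `Z = U`. -/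
def PbwProp : Prop :=
  ∀ (k : Type u) [Field k] (X : Type u) [AddCommGroup X] [Module k X] (n A q : ℕ) (κ : Type)
    (φ : Fin n → Module.End k X) (ψ : κ → Module.End k X) (ρ : Fin n → Module.End k X)
    (Y Z : Submodule k X), Stab φ Y → Stab ψ Y →
    (∀ i j, ∀ w ∈ Z,
      φ i (φ j w) - φ j (φ i w) ∈ Submodule.span k (Set.range fun l => φ l w) ⊔ Y) →
    (∀ i j, ∀ w ∈ Z, ψ i (φ j w) - φ j (ψ i w) ∈ Y) →
    (∀ i, ρ i ∈ Algebra.adjoin k (Set.range ψ)) → 0 < q →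
    (∀ i, ∀ w ∈ Z, (φ i ^ (A + q)) w - ρ i ((φ i ^ A) w) ∈ Y) →
    (∃ S : Finset X, gen (Sum.elim φ ψ) (S : Set X) ⊔ Y = Z) →
    ∃ S : Finset X, gen ψ (S : Set X) ⊔ Y = Z

/-- (B2) PROOF (uses `PbwProp`, `CofFgProp`, `IdealGenProp` (Two/Spec.lean)). `FC D ⊤` because `⊤ = span y ⊔ D`.
So `D` is the ideal generated by a finite set `S` and `D = gen (adr y) S`. `PbwProp` with `κ = Empty`, `φ i = adr k (y i)`,
`Y = E`, `Z = D ⊔ E`, `A = M`, `q = 1`, `ρ = 0`: for `w ∈ D ⊔ E`,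
`⁅⁅w, y j⁆, y i⁆ - ⁅⁅w, y i⁆, y j⁆ = ⁅w, ⁅y j, y i⁆⁆` and `⁅y j, y i⁆ = ∑ a_l y l + d`, `d ∈ D`, `⁅w, d⁆ ∈ gd 2 ⊔ E = E`;
`w (y i)^(M+1) ∈ E`. The conclusion: `D ⊔ E = span S' ⊔ E` for a finite `S'` (`gen` with no operators is
the span), so `FC E (D ⊔ E)`; and `FC (D ⊔ E) ⊤`; `FC.trans`. -/
def FcStepProp : Prop :=
  ∀ (k : Type u) [Field k] (F : Type u) [LieRing F] [LieAlgebra k F] (n : ℕ) (y : Fin n → F)
    (D E : LieIdeal k F) (M : ℕ), LieSubalgebra.lieSpan k F (Set.range y) = ⊤ →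
    Submodule.span k (Set.range y) ⊔ D.toSubmodule = ⊤ → gd k D 2 ≤ E →
    (∀ (j : Fin n), ∀ w ∈ D, pw k (y j) M w ∈ E) → FC E.toSubmodule ⊤

/-- (B3) PROOF (uses `FcStepProp`; compare `Tor/Cof.lean`, (2) and (3) of `CofProp`). `FcStepProp` with
`E = gd 2 ⊔ G` gives `FC (gd 2 ⊔ G) ⊤`: there is a finite set `W` with `⊤ ≤ G ⊔ gd 2 ⊔ span W`; one may take `W ⊆ D` when one only
wants `D ≤ G ⊔ gd 2 ⊔ span W` (not needed). CLAIM `FC (G ⊔ gd (i+1)) (gd i)` for all `i ≥ 1`. Induction;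
`i = 1` is clear. `gd (i+1)` is spanned by the `⁅a, b⁆`, `a ∈ gd i`, `b ∈ D`. Write `b = g' + b' + s'` (`g' ∈ G`,
`b' ∈ gd 2`, `s' ∈ span W`), `a = g + a' + s` (`g ∈ G`, `a' ∈ gd (i+1)`, `s ∈ span W_i`): modulo `G ⊔ gd (i+2)`:
`⁅a, b⁆ ≡ ⁅a, s'⁆` (`lie_mem_gd_gd`), `⁅a, s'⁆ ≡ ⁅a', s'⁆ + ⁅s, s'⁆`, `⁅a', s'⁆ = ⁅a', b - g' - b'⁆ ≡ 0`. So the
brackets of the elements of `W_i` and `W` form `W_(i+1)`. Then `FC.trans`, `FC D ⊤` (`⊤ = span y ⊔ D`), `gd (c+1) = ⊥`. -/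
def CofDProp : Prop :=
  ∀ (k : Type u) [Field k] (F : Type u) [LieRing F] [LieAlgebra k F] (n : ℕ) (y : Fin n → F)
    (D G : LieIdeal k F) (c M : ℕ), LieSubalgebra.lieSpan k F (Set.range y) = ⊤ →
    Submodule.span k (Set.range y) ⊔ D.toSubmodule = ⊤ → gd k D (c + 1) = ⊥ →
    (∀ (j : Fin n) (w : F), pw k (y j) M w ∈ G) → FC G.toSubmodule ⊤

/-- (B4) PROOF (uses `PbwProp`, `HilbertProp`, `CofFgProp`, `IdealGenProp`). `G j = brn k G D j` (`G 0 = G`,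
`G (j+1) = ⁅G j, D⁆`), decreasing ideals, `G j ≤ gd j` (`⁅⊤, D⁆ ≤ D`), so `G (c+1) = ⊥`. They are `T`-stable (`br_span`,
`T i ⁅g, d⁆ = ⁅T i g, d⁆`). `G` and `D` have finite codimension (`⊤ = span y ⊔ D`), so `G`, `D` are the ideals
generated by finite sets `S_G`, `S_D` and `D = gen (adr y) S_D`, `G = gen (adr y) S_G`. CLAIM: for all `j` there is a
finite `S_j` with `gen T S_j ⊔ G (j+1) = G j`. (i) From a finite `R_j` with `gen (adr y, T) R_j ⊔ G (j+1) = G j` one gets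
`S_j` by `PbwProp` with `φ i = adr k (y i)`, `ψ = T`, `ρ i = T i`, `A = P`, `q = N`, `Y = G (j+1)`, `Z = G j`: for `w ∈ G j`
the commutator of `φ i`, `φ j` is `⁅w, ⁅y j, y i⁆⁆`, `⁅y j, y i⁆ = ∑ a_l y l + d`, `⁅w, d⁆ ∈ G (j+1)`;
`T` commutes with `φ` on `G`; `w (y i)^(P+N) = (T i w) (y i)^P = T i (w (y i)^P)`. (ii) `R_0 = S_G`. (iii) From `S_j` to
`R_(j+1) = {⁅h, d⁆ : h ∈ S_j, d ∈ S_D}`: let `U = gen (adr y, T) R_(j+1) ⊔ G (j+2)` and
`C = {d ∈ D | ∀ h ∈ G j, ⁅h, d⁆ ∈ U}`. `C` is a subspace, stable under `adr (y l)`: `⁅h, ⁅d, y⁆⁆ = ⁅⁅h, d⁆, y⁆ - ⁅⁅h, y⁆, d⁆`.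
`S_D ⊆ C`: for `d ∈ S_D` the set `{h ∈ G j | ⁅h, d⁆ ∈ U}` is a `T`-stable subspace (`⁅T i h, d⁆ = T i ⁅h, d⁆`) containing
`S_j` and `G (j+1)`. So `C = D` and `G (j+1) ≤ U`; the other inclusion is clear. Finally
`G = gen T (S_0 ∪ … ∪ S_c)` (`gen_union`, `G (c+1) = ⊥`) and `HilbertProp` with `φ = T`, `Y = ⊥`, `Z = G`. -/
def GfgProp : Prop :=
  ∀ (k : Type u) [Field k] (F : Type u) [LieRing F] [LieAlgebra k F] (n : ℕ) (y : Fin n → F)
    (D G : LieIdeal k F) (c P N : ℕ) (T : Fin n → Module.End k F),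
    LieSubalgebra.lieSpan k F (Set.range y) = ⊤ →
    Submodule.span k (Set.range y) ⊔ D.toSubmodule = ⊤ → gd k D (c + 1) = ⊥ →
    FC G.toSubmodule ⊤ → 0 < N → (∀ i, ∀ a ∈ G, T i a ∈ G) →
    (∀ i, ∀ a ∈ G, ∀ z : F, T i ⁅a, z⁆ = ⁅T i a, z⁆) →
    (∀ i j, ∀ a ∈ G, T i (T j a) = T j (T i a)) →
    (∀ i, ∀ a ∈ G, pw k (y i) P (T i a) = pw k (y i) (P + N) a) →
    ∀ U : Submodule k F, Stab T U → U ≤ G.toSubmodule → ∃ S : Finset F, gen T (S : Set F) = U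

/-- (B5) PROOF (uses `PbwProp`, `IdealGenProp`; compare `Tor/Kfg.lean`). `B = ⁅K, G⁆`. Let `K 1 = K`,
`K (j+1) = ⁅K j, D⁆ ⊔ B` (ideals, decreasing: `B ≤ K j ≤ K`). `K (j + 1) ≤ gd j ⊔ B` for `j ≥ 1` (`⁅K, D⁆ ≤ D`), so
`K (c + 2) = B`. CLAIM: for all `j ≥ 1` there is a finite `S` with `gen (adr (y l))_l S ⊔ K (j+1) = K j`. `j = 1`: `K` is the
ideal generated by a finite `S`, `IdealGenProp`. Step: `D ≤ G ⊔ span W'`, `W'` a finite subset of `D` (take a finite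
spanning set of the finite dimensional space `D / (D ⊓ G)`). Let `S' = {⁅s, d⁆ : s ∈ S, d ∈ W'}`,
`U = gen (adr (y l)) S' ⊔ K (j+2)`, `C = {κ ∈ K j | ∀ d ∈ D, ⁅κ, d⁆ ∈ U}`. `C` is a subspace; `K (j+1) ≤ C`; `S ⊆ C`
(`d = g + s'`, `⁅s, g⁆ ∈ B`); `C` is stable under `adr (y l)`: `⁅⁅κ, y⁆, d⁆ = ⁅⁅κ, d⁆, y⁆ - ⁅κ, ⁅d, y⁆⁆ ∈ U`. So
`C = K j` and `K (j+1) ≤ U`; the other inclusion is clear. Next `PbwProp` with `φ l = adr k (y l)`,
`ψ l = ρ l = z l = pw k (y l) P' = (φ l) ^ P'`, `A = 0`, `q = P'`, `Y = K (j+1)`, `Z = K j` (note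
`gen φ S ≤ gen (φ, ψ) S ≤ K j`): for `w ∈ K j` the commutator of `φ i`, `φ j` is `⁅w, ⁅y j, y i⁆⁆`,
`⁅y j, y i⁆ = ∑ a_l y l + d`, `⁅w, d⁆ ∈ K (j+1)`; `z i ⁅w, y l⁆ - ⁅z i w, y l⁆ = ⁅w, z i (y l)⁆ ∈ ⁅K, G⁆ = B`
(`Der k F P'`). So there is a finite `S''` with `gen z S'' ⊔ K (j+1) = K j`. Finally
`K = gen z (union of the S'') ⊔ B` (`gen_union`, induction). -/
def KfgDProp : Prop :=
  ∀ (k : Type u) [Field k] (F : Type u) [LieRing F] [LieAlgebra k F] (n : ℕ) (y : Fin n → F)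
    (c P' : ℕ) (D G K : LieIdeal k F), LieSubalgebra.lieSpan k F (Set.range y) = ⊤ →
    Submodule.span k (Set.range y) ⊔ D.toSubmodule = ⊤ → gd k D (c + 1) = ⊥ → 0 < P' →
    Der k F P' → (∀ (j : Fin n) (w : F), pw k (y j) P' w ∈ G) → FC G.toSubmodule ⊤ →
    (∃ S : Finset F, LieSubmodule.lieSpan k F (S : Set F) = K) →
    ∃ S : Finset F, gen (fun j => pw k (y j) P') (S : Set F) ⊔
      (⁅K, G⁆ : LieIdeal k F).toSubmodule = K.toSubmodule

/-! ## C. Sufficiency -/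

/-- (C1) The core theorem; proved in `Sol/Core.lean` from the lemmas above and those of `Tor`. -/
def CoreProp : Prop :=
  ∀ (k : Type u) [Field k] [Infinite k] (p : ℕ) [Fact p.Prime] [CharP k p] (F : Type u)
    [LieRing F] [LieAlgebra k F] (n : ℕ) (x : Fin n → F) (D K : LieIdeal k F) (c b m r : ℕ)
    (co : ℕ → k) (ζ : F), LieSubalgebra.lieSpan k F (Set.range x) = ⊤ →
    Submodule.span k (Set.range x) ⊔ D.toSubmodule = ⊤ →
    (∀ η : Fin n → F, (∀ i, η i - x i ∈ D) → ∃ θ : F →ₗ⁅k⁆ F, ∀ i, θ (x i) = η i) →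
    gd k D (c + 1) = ⊥ → Eng k D b → 0 < r →
    (∀ i ≤ m, co i ^ p ^ r = co i) → (∃ i ≤ m, co i ≠ 0) → IdI k F m co →
    (∃ S : Finset F, LieSubmodule.lieSpan k F (S : Set F) = K) → ζ ∉ K →
    ∃ I : LieIdeal k F, K ≤ I ∧ FC I.toSubmodule ⊤ ∧ ζ ∉ I

/-- (C2) PROOF (uses `CoreProp`). Let `N = gd k D (c + 1)`, `Q = F ⧸ N`, `π : F → Q` (`qMk N`, `qMk_surjective`,
`qMk_eq_zero` of `Two/Sep.lean` or `Two/RelFree.lean`, or `LieSubmodule.Quotient.mk'`), `D_Q`, `K_Q` the images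
of `D`, `K` (ideals, e.g. `LieIdeal.map`, `LieIdeal.mem_map_of_surjective`). `gd k D_Q (c+1) = ⊥`: by induction every element of
`gd k D_Q i`, `i ≥ 1`, is the image of an element of `gd k D i`. `Eng`, `IdI` (`pw_map`), the generation and
`span x ⊔ D = ⊤` pass to the quotient. Lifting: let `η : Fin n → Q`, `η i - π (x i) ∈ D_Q`. Choose `d i ∈ D` with
`π (x i + d i) = η i` and `θ₀ : F → F` with `θ₀ (x i) = x i + d i`. The set of `a` with `θ₀ a - a ∈ D` is a Lie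
subalgebra (`θ₀ ⁅a, b⁆ - ⁅a, b⁆ = ⁅θ₀ a - a, θ₀ b⁆ + ⁅a, θ₀ b - b⁆`) containing the `x i`, so it is everything; so `θ₀ D ⊆ D` and
`θ₀ N ⊆ N` (`map_mem_gd`), and `θ₀` induces `θ : Q → Q`. `K_Q` is generated by the image of the finite set.
`π ζ ∉ K_Q` because `N ≤ K`. `CoreProp` gives an ideal of `Q`; take its preimage (`FC` of the preimage: a finite subset
of `Q` lifts to `F`). -/
def RedCoreProp : Prop :=
  ∀ (k : Type u) [Field k] [Infinite k] (p : ℕ) [Fact p.Prime] [CharP k p] (F : Type u)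
    [LieRing F] [LieAlgebra k F] (n : ℕ) (x : Fin n → F) (D K : LieIdeal k F) (c b m r : ℕ)
    (co : ℕ → k) (ζ : F), LieSubalgebra.lieSpan k F (Set.range x) = ⊤ →
    Submodule.span k (Set.range x) ⊔ D.toSubmodule = ⊤ →
    (∀ η : Fin n → F, ∃ θ : F →ₗ⁅k⁆ F, ∀ i, θ (x i) = η i) →
    gd k D (c + 1) ≤ K → Eng k D b → 0 < r →
    (∀ i ≤ m, co i ^ p ^ r = co i) → (∃ i ≤ m, co i ≠ 0) → IdI k F m co →
    (∃ S : Finset F, LieSubmodule.lieSpan k F (S : Set F) = K) → ζ ∉ K →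
    ∃ I : LieIdeal k F, K ≤ I ∧ FC I.toSubmodule ⊤ ∧ ζ ∉ I

/-- (C3) Adding generators. PROOF. Let `n₀, π₀, S₀` be a relative finite presentation. `n = n₀ + N`,
`π (of (Fin.castAdd N i)) = π₀ (of i)`, `π (of (Fin.natAdd n₀ j)) = w j` (`FreeLieAlgebra.lift`). Choose `v j` with `π₀ (v j) = w j`.
Let `ι : FreeLieAlgebra k (Fin n₀) → FreeLieAlgebra k (Fin n)`, `of i ↦ of (castAdd i)`, and
`ρ` in the other direction, `of (castAdd i) ↦ of i`, `of (natAdd j) ↦ v j`. `ρ ∘ ι = id`, `π = π₀ ∘ ρ`. Let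
`S = ι S₀ ∪ {of (natAdd j) - ι (v j)}`, `R = verbalIdeal Id n ⊔ lieSpan S`. `ker π ≤ R`: for all `w`,
`w - ι (ρ w) ∈ lieSpan {of (natAdd j) - ι (v j)}` (the set of such `w` is a Lie subalgebra containing the generators); if `π w = 0` then
`ρ w ∈ ker π₀ = verbalIdeal Id n₀ ⊔ lieSpan S₀`, and `ι` maps the two ideals into `verbalIdeal Id n` (values of identities go to
values of identities) and `lieSpan (ι S₀)`. `R ≤ ker π`: `ρ` maps `verbalIdeal Id n` into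
`verbalIdeal Id n₀ ≤ ker π₀`; the elements of `S` are clear. -/
def TietzeProp : Prop :=
  ∀ (k : Type u) [Field k] (Id : Set (FreeLieAlgebra k ℕ)) (L : Type u) [LieRing L]
    [LieAlgebra k L] (N : ℕ) (w : Fin N → L), RelFinitelyPresented Id L →
    ∃ (n : ℕ) (π : FreeLieAlgebra k (Fin n) →ₗ⁅k⁆ L) (S : Finset (FreeLieAlgebra k (Fin n))),
      Function.Surjective π ∧
      π.ker = verbalIdeal Id n ⊔
        LieSubmodule.lieSpan k (FreeLieAlgebra k (Fin n)) (S : Set (FreeLieAlgebra k (Fin n))) ∧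
      ∀ j, ∃ i, π (FreeLieAlgebra.of k i) = w j

/-- (C4) PROOF (uses `RedCoreProp`, `TietzeProp`; compare `Tor/Final.lean`, `final_gen` and `tor_suff`). Choose a finite set of
representatives `w j` of a spanning set of `L / D` and a presentation `n, π, S` as in `TietzeProp`. `T = verbalIdeal Id n`,
`F = FreeLieAlgebra k (Fin n) ⧸ T`, `q = qMk T`, `x i = q (of i)`; `relFree_mem`, `relFree_gen`, `relFree_lift` give:
`F` is in the variety (so `IdI k F m co`), it is generated by the `x i`, and every map of the `x i` to `F` extends to an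
endomorphism. `π` induces `π_F : F → L` (`T ≤ ker π`), surjective, with kernel `K` = the ideal generated by `q S` (as in
`final_gen`). Let `D_F` = the preimage of `D` (`LieIdeal.comap`). `gd k D_F (c+1) ≤ K` (`map_mem_gd`: `π_F` maps it into
`gd k D (c+1) = ⊥`); `Eng k D_F b` (`pw_map`); `span x ⊔ D_F = ⊤` because the `w j` are among the `π_F (x i)`. For `z ≠ 0` in `L`
choose `ζ ∈ F` with `π_F ζ = z`; `ζ ∉ K`; `RedCoreProp` gives `I`; the image of `I` in `L` is an ideal of finite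
codimension not containing `z` (as in `final_gen`). -/
def SuffProp : Prop :=
  ∀ (k : Type u) [Field k] [Infinite k] (p : ℕ) [Fact p.Prime] [CharP k p]
    (Id : Set (FreeLieAlgebra k ℕ)) (L : Type u) [LieRing L] [LieAlgebra k L] (m r : ℕ)
    (co : ℕ → k), RelFinitelyPresented Id L → 0 < r → (∀ i ≤ m, co i ^ p ^ r = co i) →
    (∃ i ≤ m, co i ≠ 0) →
    (∀ (L' : Type u) [LieRing L'] [LieAlgebra k L'], InVariety Id L' → IdI k L' m co) →
    (∃ (D : LieIdeal k L) (c b : ℕ), FC D.toSubmodule ⊤ ∧ Eng k D b ∧ gd k D (c + 1) = ⊥) →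
    ResiduallyFiniteDimensional k L

/-! ## D. The structure of solvable algebras: words -/

/-- (D1) PROOF. For `lam : k` let `y' = y + lam • z`. By induction on `j`, `b y'^j - b y^j ∈ Γ`:
`⁅b y^j + g, y + lam z⁆ = b y^(j+1) + lam ⁅b y^j, z⁆ + ⁅g, y'⁆`, `g ∈ Γ`. The identity for `a, b, y'` and `⁅M, Γ⁆ ⊆ M'` (`a y'^i ∈ M`)
give `∑ i ≤ i₀, co i ⁅a y'^i, b y^(m-i)⁆ ∈ M'` for all `lam`. `a y'^i` is a polynomial in `lam` of degree
`≤ i` with the coefficient `a z^i` of `lam^i` (induction on `i`). So there are `q 0, …, q i₀ ∈ L` with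
`∑ l ≤ i₀, lam^l • q l ∈ M'` for all `lam : k`, `q i₀ = co i₀ • ⁅a z^i₀, b y^(m-i₀)⁆`. As `k` is infinite, all
the `q l` are in `M'` (Vandermonde: `i₀ + 1` distinct values of `lam`; compare `Tor/Vand.lean`). -/
def TopProp : Prop :=
  ∀ (k : Type u) [Field k] [Infinite k] (L : Type u) [LieRing L] [LieAlgebra k L] (m i₀ : ℕ)
    (co : ℕ → k) (M M' Γ : LieIdeal k L) (y z b : L), i₀ ≤ m → co i₀ ≠ 0 →
    (∀ i ≤ m, i₀ < i → co i = 0) → IdI k L m co → (∀ a ∈ M, ∀ g ∈ Γ, ⁅a, g⁆ ∈ M') →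
    (∀ j, ⁅pw k y j b, z⁆ ∈ Γ) → ∀ a ∈ M, ⁅pw k z i₀ a, pw k y (m - i₀) b⁆ ∈ M'

/-- (D2) PROOF. Induction on `c`. `c = 0`: `⁅a, d 0⁆`. Step: `fac d = ⁅fac d', z⁆` with `d'` = the first `c + 1`
entries and `z = d (Fin.last _)`; `⁅a, ⁅A, z⁆⁆ = ⁅⁅a, A⁆, z⁆ - ⁅⁅a, z⁆, A⁆` (`lie_lie_right`). By induction the first term is
`∑ ε s • wd a (ofFn (d' ∘ σ s) ++ [z])`, the second one `- ∑ ε s • wd a (z :: ofFn (d' ∘ σ s))`: words with the same
letters in another order, given by permutations independent of `a, d` (extend `σ s` by fixing the last place; resp. put the last index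
first). -/
def WordExpProp : Prop :=
  ∀ c : ℕ, ∃ (N : ℕ) (ε : Fin N → ℤ) (σ : Fin N → Equiv.Perm (Fin (c + 1))),
    ∀ (L : Type u) [LieRing L] (a : L) (d : Fin (c + 1) → L),
      ⁅a, fac d⁆ = ∑ s, ε s • wd a (List.ofFn fun i => d (σ s i))

/-- (D3) PROOF. Let `A = wd a u`. `wd A (z :: (u' ++ [z'])) = ⁅wd ⁅A, z⁆ u', z'⁆ = - ⁅wd z (A :: u'), z'⁆` (`lie_skew`,
`wd_neg`). Use `BalW` with the list `A :: u'` of length `≤ i`, then append the letters of `u''`. -/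
def SlotBalProp : Prop :=
  ∀ (k : Type u) [Field k] (L : Type u) [LieRing L] [LieAlgebra k L] (i e Q : ℕ),
    BalW k L i e Q → ∀ (y a d d' : L) (u u' u'' : List L), u'.length < i →
    wd a (u ++ pw k y (e + Q) d :: (u' ++ pw k y e d' :: u'')) =
      wd a (u ++ pw k y e d :: (u' ++ pw k y (e + Q) d' :: u''))

/-- (D4) Two entries of the same factor. PROOF (uses `WordExpProp`, `SlotBalProp`). Expand by `WordExpProp`; in the word for
`σ s` the entries `i`, `i'` occur exactly once, at the places `σ⁻¹ i`, `σ⁻¹ i'`. Cut the list at these places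
(a list `ofFn f` with places `q < q'` is `u ++ f q :: (u' ++ f q' :: u'')`, `u, u', u''` do not involve the two
places), `SlotBalProp` (or its mirror image, with `e + Q` and `e` exchanged, which is the same equation read backwards). -/
def SameBalProp : Prop :=
  ∀ (k : Type u) [Field k] (L : Type u) [LieRing L] [LieAlgebra k L] (c e Q : ℕ),
    BalW k L (c + 1) e Q → ∀ (y a z z' : L) (d : Fin (c + 1) → L) (i i' : Fin (c + 1)), i ≠ i' →
    ⁅a, fac (Function.update (Function.update d i (pw k y (e + Q) z)) i' (pw k y e z'))⁆ =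
      ⁅a, fac (Function.update (Function.update d i (pw k y e z)) i' (pw k y (e + Q) z'))⁆

/-- (D5) Entries of two factors. PROOF (uses `WordExpProp`, `SlotBalProp`). `WordExpProp` twice: the left hand side is a sum of words
`wd a (ofFn (f ∘ σ s) ++ ofFn (f' ∘ σ s'))`; the special entries occur exactly once, the letters between
them are at most `2 c`; `SlotBalProp`. -/
def DiffBalProp : Prop :=
  ∀ (k : Type u) [Field k] (L : Type u) [LieRing L] [LieAlgebra k L] (c e Q : ℕ),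
    BalW k L (2 * c + 1) e Q → ∀ (y a z z' : L) (d d' : Fin (c + 1) → L) (i i' : Fin (c + 1)),
    ⁅⁅a, fac (Function.update d i (pw k y (e + Q) z))⁆, fac (Function.update d' i' (pw k y e z'))⁆ =
      ⁅⁅a, fac (Function.update d i (pw k y e z))⁆, fac (Function.update d' i' (pw k y (e + Q) z'))⁆

/-! ## E. The structure of solvable algebras: monomials -/

/-- (E1) PROOF (uses `IdealGenProp`). `D = gen (adr x) S`, spanned by the words `wd a (ls.map x)`, `a ∈ S`, `ls` a list in `Fin n`.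
CLAIM: every such word is in `U = span {mono x a e} ⊔ gd 2`. Strong induction on the length of `ls`: an interchange of two
neighbours changes the word by `wd ⁅w, ⁅x i, x j⁆⁆ (…)` with `w ∈ D` a word, `⁅x i, x j⁆ = ∑ a_l x l + d`, `d ∈ D`: shorter
words plus an element of `gd 2`; so `ls` may be permuted (`List.Perm` induction) into the list
`(List.finRange n).flatMap (fun i => List.replicate (e i) i)`, `e i = ls.count i`. -/
def MonoSpanProp : Prop :=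
  ∀ (k : Type u) [Field k] (L : Type u) [LieRing L] [LieAlgebra k L] (n : ℕ) (x : Fin n → L)
    (D : LieIdeal k L) (S : Finset L), LieSubalgebra.lieSpan k L (Set.range x) = ⊤ →
    Submodule.span k (Set.range x) ⊔ D.toSubmodule = ⊤ →
    LieSubmodule.lieSpan k L (S : Set L) = D →
    D.toSubmodule ≤ Submodule.span k {w | ∃ a ∈ S, ∃ e : Fin n → ℕ, w = mono x a e} ⊔
      (gd k D 2).toSubmodule

/-- (E2) PROOF. `δ = pw k (x j) P` is a derivation with values in `D`, so `δ ⁅w, z⁆ - ⁅δ w, z⁆ ∈ gd 2` for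
`w ∈ D` (`pw_comm_mod`), and `δ (wd w l) - wd (δ w) l ∈ gd 2` for all lists `l` (`gd 2` is an ideal). The list of
`mono x a e'`, `e' = update e j (e j + P)`, is that of `mono x a e` with `P` additional letters `x j` inserted after the
letters `x j`: `mono x a e' = wd (δ (wd a l₁)) l₂`, `mono x a e = wd (wd a l₁) l₂`. -/
def MonoPwProp : Prop :=
  ∀ (k : Type u) [Field k] (L : Type u) [LieRing L] [LieAlgebra k L] (n : ℕ) (x : Fin n → L)
    (D : LieIdeal k L) (P : ℕ) (a : L) (e : Fin n → ℕ) (j : Fin n), Der k L P → Eng k D P → a ∈ D →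
    mono x a (Function.update e j (e j + P)) - pw k (x j) P (mono x a e) ∈ gd k D 2

/-- (E3) The factors of a product may be permuted, modulo `M'`. PROOF. `z, z' ∈ gd (c+1) ≤ D`, so
`⁅z, z'⁆ ∈ gd (c+2)`; for `w ∈ M`: `⁅⁅w, z⁆, z'⁆ - ⁅⁅w, z'⁆, z⁆ = ⁅w, ⁅z, z'⁆⁆ ∈ M'`; then append the remaining letters (`M'` is an
ideal; `wd_sub`). `List.Perm` induction (all prefixes `wd a l` are in `M`). -/
def PermProp : Prop :=
  ∀ (k : Type u) [Field k] (L : Type u) [LieRing L] [LieAlgebra k L] (D M M' : LieIdeal k L)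
    (c : ℕ), (∀ a ∈ M, ∀ g ∈ gd k D (c + 2), ⁅a, g⁆ ∈ M') → ∀ (l l' : List L), l.Perm l' →
    (∀ z ∈ l, z ∈ gd k D (c + 1)) → ∀ a ∈ M, wd a l - wd a l' ∈ M'

/-- (E4) Changing an entry modulo `gd 2`. PROOF. `fac d - fac (update d i w)` is `fac (update d i (d i - w))`
(additivity in every entry), in `gd (c+2)` because all the entries are in `D` and one of them is in `gd 2`
(`lie_mem_gd_gd`, `wd_mem_gd_all`). -/
def FacModProp : Prop :=
  ∀ (k : Type u) [Field k] (L : Type u) [LieRing L] [LieAlgebra k L] (D : LieIdeal k L) (c : ℕ)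
    (d : Fin (c + 1) → L) (i : Fin (c + 1)) (w : L), (∀ i, d i ∈ D) → w ∈ D →
    d i - w ∈ gd k D 2 → fac d - fac (Function.update d i w) ∈ gd k D (c + 2)

/-- The entries: monomials, except for the entry `i₁` of the factor `0`, to which `y^E` is applied. -/
def sv (k : Type u) [Field k] {L : Type u} [LieRing L] [LieAlgebra k L] {n T c : ℕ} (x : Fin n → L)
    (E : ℕ) (y : L) (i₁ : Fin (c + 1)) (α : Fin (T + 1) → Fin (c + 1) → L)
    (e : Fin (T + 1) × Fin (c + 1) → Fin n → ℕ) : Fin (T + 1) → Fin (c + 1) → L :=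
  fun l i => if l = 0 ∧ i = i₁ then pw k y E (mono x (α l i) (e (l, i))) else
    mono x (α l i) (e (l, i))

/-- (E5) Moving `Q` letters `x j` from the entry `s` to the entry `s'`. PROOF (uses `SameBalProp`, `DiffBalProp`, `MonoPwProp`,
`PermProp`, `FacModProp`). All the entries are in `D`. Write `e s = update e₀ j (e₀ j + (P + Q))`,
`e s' = update e₁ j (e₁ j + P)`. By `MonoPwProp` (for `P + Q` and for `P`) the entries `s`, `s'` are, modulo `gd 2`,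
`(u) (x j)^(P+Q)` and `(u') (x j)^P` with `u = mono x (α s) e₀`, `u' = mono x (α s') e₁`, resp. for the special entry
(`s = (0, i₁)` or `s' = (0, i₁)`) `(u (x j)^(P+Q)) y^E ≡ (u y^E) (x j)^(P+Q)`: `pw k (x j) P'` is a derivation with values in
`D` (`P' = P` or `P + Q`), so it commutes with brackets, hence with `y^E`, modulo `gd 2` on `D` (`pw_comm_mod`). Replacing these
entries changes the factors by elements of `gd (c+2)` (`FacModProp`) and the value by an element of `M'`. By `PermProp` the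
factors of `s`, `s'` may be moved to the front. Now apply `SameBalProp` (same factor) or `DiffBalProp` (two
different factors, `BalW.mono` is not needed: a smaller number of letters is included in `BalW`), append the other factors
(`wd`), and go back. -/
def ShiftProp : Prop :=
  ∀ (k : Type u) [Field k] (L : Type u) [LieRing L] [LieAlgebra k L] (n T c P Q E : ℕ)
    (x : Fin n → L) (D M M' : LieIdeal k L) (y : L) (i₁ : Fin (c + 1))
    (α : Fin (T + 1) → Fin (c + 1) → L) (e : Fin (T + 1) × Fin (c + 1) → Fin n → ℕ)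
    (s s' : Fin (T + 1) × Fin (c + 1)) (j : Fin n),
    (∀ a ∈ M, ∀ g ∈ gd k D (c + 2), ⁅a, g⁆ ∈ M') → Der k L P → Der k L (P + Q) → Eng k D P →
    BalW k L (2 * c + 2) P Q → (∀ l i, α l i ∈ D) → s ≠ s' → P + Q ≤ e s j → P ≤ e s' j →
    ∀ a ∈ M, val a (sv k x E y i₁ α e) - val a (sv k x E y i₁ α
      (fun t i => if t = s ∧ i = j then e t i - Q else if t = s' ∧ i = j then e t i + Q
        else e t i)) ∈ M'

/-- (E6) PROOF. A shift keeps `∑ t, e t j` for all `j` and increases `∑ t, (e t j)^2` if `e s j ≤ e s' j`. All `e t j` are bounded by the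
sum `B = ∑ t i, e t i`, so `∑ t i, (e t i)^2 ≤ B^2`. Strong induction on `B^2 - ∑ t i, (e t i)^2` (with `B` fixed): if for some
`j` there are `s ≠ s'` with `P + Q ≤ e s j`, `P + Q ≤ e s' j`, let `e s j ≤ e s' j` (exchange them); the shift from `s` to `s'`
increases the sum of squares by `2 Q (e s' j - e s j) + 2 Q^2 > 0`; by induction `R` holds after the shift, hence
before. Otherwise the second hypothesis applies. -/
def AssignProp : Prop :=
  ∀ (ι : Type) [Fintype ι] [DecidableEq ι] (n P Q : ℕ) (R : (ι → Fin n → ℕ) → Prop), 0 < Q →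
    (∀ (e : ι → Fin n → ℕ) (s s' : ι) (j : Fin n), s ≠ s' → P + Q ≤ e s j → P ≤ e s' j →
      R (fun t i => if t = s ∧ i = j then e t i - Q else if t = s' ∧ i = j then e t i + Q
        else e t i) → R e) →
    (∀ e : ι → Fin n → ℕ, (∀ j s s', P + Q ≤ e s j → P + Q ≤ e s' j → s = s') → R e) →
    ∀ e, R e

/-- (E7) PROOF (uses `TopProp`, `WordExpProp`, `PermProp`). Let `j₀ = m - i₀ ≤ E`. (i) Let `z ∈ gd (c+1)`, `u ∈ D`, `w ∈ M`:
`⁅⁅w, z⁆, u⁆ - ⁅⁅w, u⁆, z⁆ = ⁅w, ⁅z, u⁆⁆ ∈ M'` (`⁅z, u⁆ ∈ gd (c+2)`). So for a list `l` of elements of `D`,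
`wd (w z^i₀) l - (wd w l) z^i₀ ∈ M'`. (ii) `TopProp` with `Γ = gd (c+2)`: for `w ∈ M`, `b ∈ D`, every `y`:
`⁅w z^i₀, b y^j₀⁆ ∈ M'` (`⁅b y^j, z⁆ ∈ gd (c+2)` because `b y^j ∈ D`, `lie_skew`). Also `⁅w z^i₀, a y^E⁆ ∈ M'` for
`a ∈ D` (`b = a y^(E-j₀)`). (iii) So `⁅w z^i₀, fac d⁆ ∈ M'` for `w ∈ M`: by `WordExpProp` it is a combination of the words
`wd (w z^i₀) (l₁ ++ d i :: l₂)`, `d i = a y^E`, `l₁`, `l₂` lists of elements of `D`, and `wd (w z^i₀) l₁ ≡ (wd w l₁) z^i₀` by (i).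
(iv) Let `zs` contain `z` at least `i₀` times. By `PermProp` for the list `fac d :: zs` (`fac_mem`) it is enough to treat
the list `replicate i₀ z ++ fac d :: zs'`; its value is `wd ⁅a z^i₀, fac d⁆ zs' ∈ M'`. -/
def RepeatProp : Prop :=
  ∀ (k : Type u) [Field k] [Infinite k] (L : Type u) [LieRing L] [LieAlgebra k L] (m i₀ c E : ℕ)
    (co : ℕ → k) (D M M' : LieIdeal k L), i₀ ≤ m → co i₀ ≠ 0 → (∀ i ≤ m, i₀ < i → co i = 0) →
    IdI k L m co → (∀ a ∈ M, ∀ g ∈ gd k D (c + 2), ⁅a, g⁆ ∈ M') → m - i₀ ≤ E →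
    ∀ (d : Fin (c + 1) → L) (zs : List L) (z : L), (∀ i, d i ∈ D) →
      (∃ i y a, a ∈ D ∧ d i = pw k y E a) → (∀ z ∈ zs, z ∈ gd k D (c + 1)) →
      (∃ zs', zs.Perm (List.replicate i₀ z ++ zs')) → ∀ a ∈ M, wd ⁅a, fac d⁆ zs ∈ M'

/-- (E8) PROOF (uses `ShiftProp`, `AssignProp`, `RepeatProp`). Let `E = p^t`. Let `𝔅` be the finite set of the
elements `fac (fun i => mono x (a i) (f i))`, `a i ∈ S`, all `f i j < P + Q`, and
`T = n + (card 𝔅) * m + 1` (any `T ≥ n + (card 𝔅) * i₀`, where `i₀ ≤ m` is the largest index with `co i₀ ≠ 0`). Let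
`R e` be the statement `∀ a ∈ M, val a (sv k x E y i₁ α e) ∈ M'`. Apply `AssignProp` with `ι = Fin (T+1) × Fin (c+1)`: the first hypothesis is
`ShiftProp`. The second one: let every `j` have at most one slot `s` with `e s j ≥ P + Q`. At most `n` of the factors `1, …, T`
have an entry with an exponent `≥ P + Q`; the other ones, at least `T - n`, are in `𝔅`; by the pigeonhole principle some
`z ∈ 𝔅` occurs at least `i₀` times among the factors `1, …, T`. Now `val a v = wd ⁅a, fac (v 0)⁆ (ofFn (fun l => fac (v l.succ)))` and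
`RepeatProp` applies (`v 0 i₁ = (mono …) y^E`; all the monomials are in `D`; `fac_mem`). -/
def KeyMonoProp : Prop :=
  ∀ (k : Type u) [Field k] [Infinite k] (L : Type u) [LieRing L] [LieAlgebra k L] (n : ℕ)
    (x : Fin n → L) (D M M' : LieIdeal k L) (S : Finset L) (c m i₀ P Q E : ℕ) (co : ℕ → k),
    (∀ a ∈ S, a ∈ D) → i₀ ≤ m → co i₀ ≠ 0 → (∀ i ≤ m, i₀ < i → co i = 0) → IdI k L m co →
    (∀ a ∈ M, ∀ g ∈ gd k D (c + 2), ⁅a, g⁆ ∈ M') → m - i₀ ≤ E → 0 < Q → Der k L P →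
    Der k L (P + Q) → Eng k D P → BalW k L (2 * c + 2) P Q →
    ∃ T : ℕ, ∀ (y : L) (i₁ : Fin (c + 1)) (α : Fin (T + 1) → Fin (c + 1) → L)
      (e : Fin (T + 1) × Fin (c + 1) → Fin n → ℕ), (∀ l i, α l i ∈ S) →
      ∀ a ∈ M, val a (sv k x E y i₁ α e) ∈ M'

/-- (E9) PROOF (uses `KeyMonoProp`, `MonoSpanProp`, `CofFgProp`). `FC D ⊤`, so `D` is the ideal generated by a finite
set `S`. `T` from `KeyMonoProp`. `D ≤ span 𝔐 ⊔ gd 2`, `𝔐 = {mono x a e | a ∈ S}` (`MonoSpanProp`).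
(1) `gd (c+1) ≤ span {fac d | ∀ i, d i ∈ 𝔐} ⊔ gd (c+2)` (induction on `c`: `gd (c+1)` is spanned by the `⁅a, b⁆`,
`a ∈ gd c`, `b ∈ D`, `lie_mem_gd_gd`; `fac (Fin.snoc d b) = ⁅fac d, b⁆`). (2) Let `d : Fin (c+1) → L` have all entries in `D`,
`d i = a y^E`, `a ∈ D`. Modulo `gd (c+2)`, `fac d` is a combination of the `fac d'` with `d' j ∈ 𝔐` for `j ≠ i`,
`d' i = a' y^E`, `a' ∈ 𝔐` (additivity in every entry; `(gd 2) y^E ⊆ gd 2`; an entry in `gd 2` gives an element of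
`gd (c+2)`). (3) The set of `(w₀, z₁, …, z_T)` for which `wd ⁅a, w₀⁆ [z₁, …, z_T] ∈ M'` for all `a ∈ M` is linear in each
variable separately (fix the others; e.g. induction over lists) and contains the tuples with a component in `gd (c+2)` and the
other ones in `gd (c+1)`: `⁅M, gd (c+2)⁆ ⊆ M'`. So it is enough to treat `w₀ = fac d'`, `z_l = fac d_l` as in (1), (2): this is
`KeyMonoProp` (`val`, `sv`; the monomial of the special entry is `α 0 i₁`). -/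
def KeyProp : Prop :=
  ∀ (k : Type u) [Field k] [Infinite k] (L : Type u) [LieRing L] [LieAlgebra k L] (n : ℕ)
    (x : Fin n → L) (D M M' : LieIdeal k L) (c m i₀ P Q E : ℕ) (co : ℕ → k),
    LieSubalgebra.lieSpan k L (Set.range x) = ⊤ →
    Submodule.span k (Set.range x) ⊔ D.toSubmodule = ⊤ →
    i₀ ≤ m → co i₀ ≠ 0 → (∀ i ≤ m, i₀ < i → co i = 0) → IdI k L m co →
    (∀ a ∈ M, ∀ g ∈ gd k D (c + 2), ⁅a, g⁆ ∈ M') → m - i₀ ≤ E → 0 < Q → Der k L P →
    Der k L (P + Q) → Eng k D P → BalW k L (2 * c + 2) P Q →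
    ∃ T : ℕ, ∀ (d : Fin (c + 1) → L) (zs : List L), (∀ i, d i ∈ D) →
      (∃ i y a, a ∈ D ∧ d i = pw k y E a) → zs.length = T → (∀ z ∈ zs, z ∈ gd k D (c + 1)) →
      ∀ a ∈ M, wd ⁅a, fac d⁆ zs ∈ M'

/-! ## F. The structure of solvable algebras: assembly -/

/-- (F1) PROOF. `FC D ⊤`: `⊤ ≤ D ⊔ span W`, `W` finite; enumerate `range x ∪ W`. -/
def ExtGenProp : Prop :=
  ∀ (k : Type u) [Field k] (L : Type u) [LieRing L] [LieAlgebra k L] (n : ℕ) (x : Fin n → L)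
    (D : LieIdeal k L), LieSubalgebra.lieSpan k L (Set.range x) = ⊤ → FC D.toSubmodule ⊤ →
    ∃ (n' : ℕ) (y : Fin n' → L), LieSubalgebra.lieSpan k L (Set.range y) = ⊤ ∧
      Submodule.span k (Set.range y) ⊔ D.toSubmodule = ⊤

/-- (F2) PROOF (uses `FcStepProp`). The subspace `E₀ = span {a y^P | a ∈ D, y} ⊔ gd 2` is an ideal: for `δ = pw k y P`,
`⁅δ a, z⁆ = δ ⁅a, z⁆ - ⁅a, δ z⁆`, `⁅a, z⁆ ∈ D`, `⁅a, δ z⁆ ∈ gd 2` (`Eng k D P`). `E₀ ≤ D`. `FcStepProp` with `M = P` gives `FC`.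
`Eng k E (P + P)`: `w y^(P + P) = (w y^P) y^P`, `w y^P ∈ D`. -/
def DEProp : Prop :=
  ∀ (k : Type u) [Field k] (L : Type u) [LieRing L] [LieAlgebra k L] (n : ℕ) (x : Fin n → L)
    (D : LieIdeal k L) (P : ℕ), LieSubalgebra.lieSpan k L (Set.range x) = ⊤ →
    Submodule.span k (Set.range x) ⊔ D.toSubmodule = ⊤ → Der k L P → Eng k D P →
    ∃ E : LieIdeal k L, E.toSubmodule = Submodule.span k {w | ∃ y a, a ∈ D ∧ w = pw k y P a} ⊔
      (gd k D 2).toSubmodule ∧ E ≤ D ∧ FC E.toSubmodule ⊤ ∧ Eng k E (P + P)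

/-- (F3) PROOF. `⁅fac d, y⁆ = ∑ i, fac (update d i ⁅d i, y⁆)` (Leibniz, induction on `c`), so the span `Z₀` of the `fac d` with
all `d i ∈ D` and some `d i ∈ E` is an ideal. `gd k E (c+1)` is spanned by the `fac d` with all `d i ∈ E`
(induction on `c`; `fac (Fin.snoc d b) = ⁅fac d, b⁆`), and `E ≤ D`. `fac_mem`. -/
def ZsProp : Prop :=
  ∀ (k : Type u) [Field k] (L : Type u) [LieRing L] [LieAlgebra k L] (D E : LieIdeal k L) (c : ℕ),
    E ≤ D → ∃ Zs : LieIdeal k L, Zs.toSubmodule = Submodule.span k {w | ∃ d : Fin (c + 1) → L,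
      (∀ i, d i ∈ D) ∧ (∃ i, d i ∈ E) ∧ w = fac d} ∧ gd k E (c + 1) ≤ Zs ∧
      Zs ≤ gd k D (c + 1)

/-- (F4) PROOF. Let `E`, `Zs` be as in (F2), (F3) and `T` as in the hypothesis. `brn k M Zs (T+1)` is spanned by
the `wd ⁅a, w₀⁆ zs`, `a ∈ M`, `w₀ ∈ Zs`, `zs` a list of `T` elements of `Zs ≤ gd (c+1)` (`br_span`, induction on `T`). It is
linear in `w₀`, so let `w₀ = fac d`, all `d i ∈ D`, `d i₁ ∈ E`; `fac` is linear in the entry `i₁` (the others fixed), so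
let `d i₁ = a' y^P` with `a' ∈ D` (the hypothesis applies) or `d i₁ ∈ gd 2` (then `fac d ∈ gd (c+2)` as in `FacModProp`, and
`⁅a, fac d⁆ ∈ M'`, `M'` an ideal). -/
def BrnZsProp : Prop :=
  ∀ (k : Type u) [Field k] (L : Type u) [LieRing L] [LieAlgebra k L] (D E Zs M M' : LieIdeal k L)
    (c P T : ℕ),
    E.toSubmodule = Submodule.span k {w | ∃ y a, a ∈ D ∧ w = pw k y P a} ⊔
      (gd k D 2).toSubmodule →
    Zs.toSubmodule = Submodule.span k {w | ∃ d : Fin (c + 1) → L,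
      (∀ i, d i ∈ D) ∧ (∃ i, d i ∈ E) ∧ w = fac d} → Zs ≤ gd k D (c + 1) →
    (∀ a ∈ M, ∀ g ∈ gd k D (c + 2), ⁅a, g⁆ ∈ M') →
    (∀ (d : Fin (c + 1) → L) (zs : List L), (∀ i, d i ∈ D) →
      (∃ i y a, a ∈ D ∧ d i = pw k y P a) → zs.length = T → (∀ z ∈ zs, z ∈ gd k D (c + 1)) →
      ∀ a ∈ M, wd ⁅a, fac d⁆ zs ∈ M') → brn k M Zs (T + 1) ≤ M'

/-- (F5) PROOF (uses `ExtGenProp`, `KeyProp`, `DEProp`, `ZsProp`, `BrnZsProp`, `FrobProp`, `TorsionProp`, `BoundStepProp` of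
`Tor/Spec.lean`). Induction on `c` (for all `D, b, M, M'`). `c = 0`: `gd k D 1 = D`, so `⁅M, D⁆ ≤ M'`: `D' = D`, `t = 1`.
Step `c → c + 1` (the hypothesis is for `gd k D (c+2)`). By `ExtGenProp` we may assume
`span x ⊔ D = ⊤`. Let `i₀` be the largest index `≤ m` with `co i₀ ≠ 0`. `TorsionProp` gives `B, M₀`; as in `Tor/Main.lean`
(`main_pow`, `hB`) there are `s`, `Q > 0` with `P = p^s ≥ max (b, m, B)`, `BalW k L (2 c + 2) P Q` and `Der k L (P + Q)`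
(`BoundStepProp` repeatedly, starting from a large `s`, then `BalW.mono` to make `Q` a multiple of `P M₀`). `Der k L P`
(`FrobProp`), `Eng k D P` (`Eng.mono`). `KeyProp` with `E = P` gives `T`; `DEProp` gives `E`, `ZsProp` gives `Zs`,
`BrnZsProp` gives `brn M Zs (T+1) ≤ M'`. For `i ≤ T` let `M_i = brn M Zs i ⊔ M'`: ideals, `M_0 = M` (as `M' ≤ M`),
`M_(T+1) = M'`, `M_(i+1) ≤ M_i`, `⁅M_i, Zs⁆ ≤ M_(i+1)`, hence `⁅a, g⁆ ∈ M_(i+1)` for `a ∈ M_i`, `g ∈ gd k E (c+1) ≤ Zs`. The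
induction hypothesis for `E`, `P + P`, `M_i`, `M_(i+1)` gives `D_i ≤ E`, `b_i`, `t_i` with `brn M_i D_i t_i ≤ M_(i+1)`. Let
`D' = D_0 ⊓ … ⊓ D_T` (`fc_inf`, `Eng.mono` for each and intersection), `t = t_0 + … + t_T` (`brn_add`, `brn_mono`). -/
def SClaimProp : Prop :=
  ∀ (k : Type u) [Field k] [Infinite k] (p : ℕ) [Fact p.Prime] [CharP k p] (L : Type u)
    [LieRing L] [LieAlgebra k L] (n : ℕ) (x : Fin n → L) (m r : ℕ) (co : ℕ → k),
    LieSubalgebra.lieSpan k L (Set.range x) = ⊤ → 0 < r → (∀ i ≤ m, co i ^ p ^ r = co i) →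
    (∃ i ≤ m, co i ≠ 0) → IdI k L m co →
    ∀ (c b : ℕ) (D M M' : LieIdeal k L), M' ≤ M → FC D.toSubmodule ⊤ → Eng k D b →
      (∀ a ∈ M, ∀ g ∈ gd k D (c + 1), ⁅a, g⁆ ∈ M') →
      ∃ (D' : LieIdeal k L) (b' t : ℕ), D' ≤ D ∧ FC D'.toSubmodule ⊤ ∧ Eng k D' b' ∧
        brn k M D' t ≤ M'

/-- (F6) PROOF (uses `SClaimProp`). By induction on `j` there are `D_j, c_j, b_j` with `FC D_j ⊤`, `Eng k D_j b_j`,
`gd k D_j (c_j + 1) ≤ derivedSeries k L j`. `j = 0`: `D_0 = ⊤`, `c_0 = b_0 = 0`. Step: `M = derivedSeries k L j`,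
`M' = derivedSeries k L (j+1) = ⁅M, M⁆`; `SClaimProp` for `c_j` (`⁅M, gd k D_j (c_j+1)⁆ ≤ ⁅M, M⁆`) gives `D', b', t`, and
`gd k D' (c_j + 1 + t) = brn (gd k D' (c_j + 1)) D' t ≤ brn M D' t ≤ M'` (`gd_brn`, `gd_mono`, `brn_mono`). `L` is solvable
(`LieAlgebra.IsSolvable`): `derivedSeries k L j = ⊥` for some `j`. -/
def StructProp : Prop :=
  ∀ (k : Type u) [Field k] [Infinite k] (p : ℕ) [Fact p.Prime] [CharP k p] (L : Type u)
    [LieRing L] [LieAlgebra k L] (n : ℕ) (x : Fin n → L) (m r : ℕ) (co : ℕ → k),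
    LieSubalgebra.lieSpan k L (Set.range x) = ⊤ → 0 < r → (∀ i ≤ m, co i ^ p ^ r = co i) →
    (∃ i ≤ m, co i ≠ 0) → IdI k L m co → LieAlgebra.IsSolvable L →
    ∃ (D : LieIdeal k L) (c b : ℕ), FC D.toSubmodule ⊤ ∧ Eng k D b ∧ gd k D (c + 1) = ⊥

end Pool.Agent.Lib.MP_240c17_al.Sol
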