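import Pool.Agent.Lib.MP_240c17_al.Sol.Spec

/-!
(B1) Finite generation over commuting operators: ordered words.
-/

set_option autoImplicit false

namespace Pool.Agent.Lib.MP_240c17_al.Sol

universe u

open Pool.Agent.Lib.MP_240c17_al Pool.Agent.Lib.MP_240c17_al.Two Pool.Agent.Lib.MP_240c17_al.Tor

namespace Pbw

section

variable {k : Type u} [Field k] {X : Type u} [AddCommGroup X] [Module k X] {n : ℕ} {κ : Type}

/-- The word operators. -/
private def W (φ : Fin n → Module.End k X) (l : List (Fin n)) : Module.End k X := (l.map φ).prod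

private theorem W_nil (φ : Fin n → Module.End k X) (w : X) : W φ [] w = w := rfl

private theorem W_cons (φ : Fin n → Module.End k X) (i : Fin n) (l : List (Fin n)) (w : X) :
    W φ (i :: l) w = φ i (W φ l w) := by
  unfold W
  rw [List.map_cons, List.prod_cons, Module.End.mul_apply]

private theorem W_append (φ : Fin n → Module.End k X) (l l' : List (Fin n)) (w : X) :
    W φ (l ++ l') w = W φ l (W φ l' w) := by
  unfold W
  rw [List.map_append, List.prod_append, Module.End.mul_apply]

private theorem W_replicate (φ : Fin n → Module.End k X) (i : Fin n) (m : ℕ) (w : X) :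
    W φ (List.replicate m i) w = (φ i ^ m) w := by
  unfold W
  rw [List.map_replicate, List.prod_replicate]

private theorem W_mem {φ : Fin n → Module.End k X} {Z : Submodule k X} (hZ : Stab φ Z)
    (l : List (Fin n)) {w : X} (hw : w ∈ Z) : W φ l w ∈ Z := by
  induction l with
  | nil => exact hw
  | cons i l ih => rw [W_cons]; exact hZ i _ ih

/-- The operators in the algebra generated by the `ψ i` preserve the stable subspaces. -/
private theorem adjoin_stab {ψ : κ → Module.End k X} {U : Submodule k X} (hU : Stab ψ U)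
    {ρ : Module.End k X} (hρ : ρ ∈ Algebra.adjoin k (Set.range ψ)) : ∀ w ∈ U, ρ w ∈ U := by
  induction hρ using Algebra.adjoin_induction with
  | mem x hx => obtain ⟨i, rfl⟩ := hx; exact hU i
  | algebraMap r =>
    intro w hw
    rw [Module.algebraMap_end_apply]
    exact U.smul_mem r hw
  | add x y _ _ hx hy => intro w hw; exact U.add_mem (hx w hw) (hy w hw)
  | mul x y _ _ hx hy => intro w hw; exact hx _ (hy w hw)

/-- Permuting the letters, in a context. -/
private theorem perm_sub {φ : Fin n → Module.End k X} {Y Z U : Submodule k X} (hYU : Y ≤ U)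
    (hY : Stab φ Y) (hZ : Stab φ Z)
    (hc : ∀ i j, ∀ w ∈ Z,
      φ i (φ j w) - φ j (φ i w) ∈ Submodule.span k (Set.range fun l => φ l w) ⊔ Y)
    {s : X} (hs : s ∈ Z) (N : ℕ) (hN : ∀ l : List (Fin n), l.length < N → W φ l s ∈ U)
    {l l' : List (Fin n)} (h : l.Perm l') :
    ∀ l₁ : List (Fin n), (l₁ ++ l).length = N → W φ (l₁ ++ l) s - W φ (l₁ ++ l') s ∈ U := by
  induction h with
  | nil => intro l₁ _; rw [sub_self]; exact U.zero_mem
  | cons z _ ih =>
    intro l₁ h1
    have h2 := ih (l₁ ++ [z]) (by simpa using h1)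
    simpa using h2
  | swap z w l =>
    intro l₁ h1
    rw [W_append, W_append, ← map_sub, W_cons, W_cons, W_cons, W_cons]
    have h2 := hc w z (W φ l s) (W_mem hZ l hs)
    have h3 : Submodule.span k (Set.range fun i => φ i (W φ l s)) ⊔ Y ≤ U.comap (W φ l₁) := by
      apply sup_le
      · rw [Submodule.span_le]
        rintro _ ⟨i, rfl⟩
        rw [SetLike.mem_coe, Submodule.mem_comap]
        show W φ l₁ (φ i (W φ l s)) ∈ U
        rw [← W_cons, ← W_append]
        refine hN _ ?_
        simp only [List.length_append, List.length_cons] at h1 ⊢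
        omega
      · intro y hy
        exact hYU (W_mem hY l₁ hy)
    exact h3 h2
  | trans h12 _ ih1 ih2 =>
    intro l₁ h1
    have h2 := ih1 l₁ h1
    have h3 := ih2 l₁ (by
      rw [List.length_append] at h1 ⊢
      rw [← h12.length_eq]
      exact h1)
    have h4 := U.add_mem h2 h3
    rwa [sub_add_sub_cancel] at h4

/-- A long list is a permutation of a list beginning with many equal letters. -/
private theorem exists_perm (B : ℕ) (l : List (Fin n)) (hl : n * B < l.length) :
    ∃ (i : Fin n) (l₂ : List (Fin n)), l.Perm (List.replicate B i ++ l₂) := by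
  have h1 : ∃ i : Fin n, B ≤ l.count i := by
    by_contra hcon
    push Not at hcon
    have h2 : ∑ i : Fin n, l.count i = l.length := by
      have h3 := Multiset.sum_count_eq_card (s := (Finset.univ : Finset (Fin n)))
        (m := (l : Multiset (Fin n))) (fun a _ => Finset.mem_univ a)
      simpa using h3
    have h4 : ∑ i : Fin n, l.count i ≤ ∑ _i : Fin n, B :=
      Finset.sum_le_sum fun i _ => (hcon i).le
    rw [Finset.sum_const, Finset.card_univ, Fintype.card_fin, smul_eq_mul, h2] at h4
    omega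
  obtain ⟨i, hi⟩ := h1
  have h5 : List.Subperm (List.replicate B i) l := by
    rw [List.subperm_ext_iff]
    intro x hx
    rw [List.mem_replicate] at hx
    rw [hx.2, List.count_replicate_self]
    exact hi
  obtain ⟨l₁, h6, h7⟩ := h5
  obtain ⟨l₂, h8⟩ := h7.exists_perm_append
  exact ⟨i, l₂, h8.trans (h6.append_right l₂)⟩

end

end Pbw

open Pbw in
/-- (B1) -/
theorem pbw : PbwProp.{u} := by
  classical
  intro k _ X _ _ n A q κ φ ψ ρ Y Z hYφ hYψ hc hcψ hρ hq hrel ⟨S, hS⟩
  -- `Z` is stable
  have hYZ : Y ≤ Z := hS ▸ le_sup_right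
  have hZst : Stab (Sum.elim φ ψ) Z := by
    rw [← hS]
    exact (gen_stab _ _).sup (stab_elim.mpr ⟨hYφ, hYψ⟩)
  obtain ⟨hZφ, hZψ⟩ := stab_elim.mp hZst
  have hSZ : ∀ s ∈ S, s ∈ Z := by
    intro s hs
    rw [← hS]
    exact Submodule.mem_sup_left (subset_gen _ _ hs)
  -- the finite set
  have hfin : {l : List (Fin n) | l.length ≤ n * (A + q)}.Finite := List.finite_length_le _ _
  let S' : Finset X := (hfin.toFinset ×ˢ S).image fun x => W φ x.1 x.2
  have hS' : ∀ (l : List (Fin n)) (s : X), l.length ≤ n * (A + q) → s ∈ S → W φ l s ∈ S' := by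
    intro l s hl hs
    refine Finset.mem_image.mpr ⟨(l, s), Finset.mem_product.mpr ⟨?_, hs⟩, rfl⟩
    rw [Set.Finite.mem_toFinset]
    exact hl
  have hUst : Stab ψ (gen ψ (S' : Set X) ⊔ Y) := (gen_stab _ _).sup hYψ
  have hYU : Y ≤ gen ψ (S' : Set X) ⊔ Y := le_sup_right
  have hS'U : ∀ w ∈ S', w ∈ gen ψ (S' : Set X) ⊔ Y := fun w hw =>
    Submodule.mem_sup_left (subset_gen _ _ hw)
  have hUZ : gen ψ (S' : Set X) ⊔ Y ≤ Z := by
    refine sup_le (gen_le hZψ ?_) hYZ
    intro w hw
    obtain ⟨⟨l, s⟩, h1, rfl⟩ := Finset.mem_image.mp (Finset.mem_coe.mp hw)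
    exact W_mem hZφ l (hSZ s (Finset.mem_product.mp h1).2)
  -- all the words
  have hmain : ∀ s ∈ S, ∀ (N : ℕ) (l : List (Fin n)), l.length = N →
      W φ l s ∈ gen ψ (S' : Set X) ⊔ Y := by
    intro s hs N
    induction N using Nat.strong_induction_on with
    | _ N ih =>
      intro l hl
      by_cases hlen : l.length ≤ n * (A + q)
      · exact hS'U _ (hS' l s hlen hs)
      · obtain ⟨i, l₂, hp⟩ := exists_perm (A + q) l (not_le.mp hlen)
        have h1 := perm_sub (φ := φ) hYU hYφ hZφ hc (hSZ s hs) N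
          (fun l' hl' => ih l'.length hl' l' rfl) hp [] hl
        rw [List.nil_append, List.nil_append] at h1
        have h2 : W φ (List.replicate (A + q) i ++ l₂) s ∈ gen ψ (S' : Set X) ⊔ Y := by
          rw [W_append, W_replicate]
          have h3 := hrel i (W φ l₂ s) (W_mem hZφ l₂ (hSZ s hs))
          have h4 : (φ i ^ A) (W φ l₂ s) ∈ gen ψ (S' : Set X) ⊔ Y := by
            rw [← W_replicate, ← W_append]
            refine ih _ ?_ _ rfl
            have h5 := hp.length_eq
            rw [List.length_append, List.length_replicate] at h5 ⊢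
            omega
          have h6 := (gen ψ (S' : Set X) ⊔ Y).add_mem (hYU h3) (adjoin_stab hUst (hρ i) _ h4)
          rwa [sub_add_cancel] at h6
        have h7 := (gen ψ (S' : Set X) ⊔ Y).add_mem h1 h2
        rwa [sub_add_cancel] at h7
  -- conclusion
  refine ⟨S', le_antisymm hUZ ?_⟩
  have hcomm : ∀ (i : κ) (l : List (Fin n)), ∀ w ∈ Z, W φ l (ψ i w) - ψ i (W φ l w) ∈ Y := by
    intro i l
    induction l with
    | nil => intro w _; rw [W_nil, W_nil, sub_self]; exact Y.zero_mem
    | cons j l ih =>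
      intro w hw
      rw [W_cons, W_cons]
      have h1 := hYφ j _ (ih w hw)
      have h2 := hcψ i j (W φ l w) (W_mem hZφ l hw)
      have h3 := Y.sub_mem h1 h2
      rw [map_sub] at h3
      convert h3 using 1
      abel
  let C : Submodule k X :=
    { carrier := {w | w ∈ Z ∧ ∀ l, W φ l w ∈ gen ψ (S' : Set X) ⊔ Y}
      add_mem' := by
        rintro a b ⟨ha, ha'⟩ ⟨hb, hb'⟩
        refine ⟨Z.add_mem ha hb, fun l => ?_⟩
        rw [map_add]
        exact Submodule.add_mem _ (ha' l) (hb' l)
      zero_mem' := ⟨Z.zero_mem, fun l => by rw [map_zero]; exact Submodule.zero_mem _⟩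
      smul_mem' := by
        rintro c a ⟨ha, ha'⟩
        refine ⟨Z.smul_mem c ha, fun l => ?_⟩
        rw [map_smul]
        exact Submodule.smul_mem _ c (ha' l) }
  have hCst : Stab (Sum.elim φ ψ) C := by
    rw [stab_elim]
    constructor
    · rintro i w ⟨hw, hw'⟩
      refine ⟨hZφ i w hw, fun l => ?_⟩
      have h1 := hw' (l ++ [i])
      rwa [W_append, W_cons, W_nil] at h1
    · rintro i w ⟨hw, hw'⟩
      refine ⟨hZψ i w hw, fun l => ?_⟩
      have h1 := (gen ψ (S' : Set X) ⊔ Y).add_mem (hYU (hcomm i l w hw)) (hUst i _ (hw' l))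
      rwa [sub_add_cancel] at h1
  have hSC : (S : Set X) ⊆ C := fun s hs => ⟨hSZ s hs, fun l => hmain s hs _ l rfl⟩
  rw [← hS]
  refine sup_le ?_ hYU
  intro w hw
  exact (gen_le hCst hSC hw).2 []

end Pool.Agent.Lib.MP_240c17_al.Sol
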