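import Pool.Agent.Lib.MP_240c17_al.Sol.Spec

/-!
MP_240c17_al, module Assign (helper86): shifts increase the sum of squares.
-/

set_option autoImplicit false

namespace Pool.Agent.Lib.MP_240c17_al.Sol

universe u

open Pool.Agent.Lib.MP_240c17_al Pool.Agent.Lib.MP_240c17_al.Two Pool.Agent.Lib.MP_240c17_al.Tor

namespace AssignAux

variable {ι : Type} [Fintype ι] [DecidableEq ι]

theorem split {n : ℕ} (g : ι × Fin n → ℕ) {a b : ι × Fin n} (hab : a ≠ b) :
    ∑ x, g x = g a + (g b + ∑ x ∈ (Finset.univ.erase a).erase b, g x) := by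
  rw [Finset.add_sum_erase _ _ (Finset.mem_erase.2 ⟨hab.symm, Finset.mem_univ b⟩),
    Finset.add_sum_erase _ _ (Finset.mem_univ a)]

/-- the shift -/
def sh {n : ℕ} (Q : ℕ) (s s' : ι) (j : Fin n) (e : ι → Fin n → ℕ) : ι → Fin n → ℕ :=
  fun t i => if t = s ∧ i = j then e t i - Q else if t = s' ∧ i = j then e t i + Q else e t i

theorem sum_sh {n : ℕ} (h : ℕ → ℕ) (Q : ℕ) {s s' : ι} (hs : s ≠ s') (j : Fin n)
    (e : ι → Fin n → ℕ) :
    (∑ x : ι × Fin n, h (sh Q s s' j e x.1 x.2)) + h (e s j) + h (e s' j) =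
      (∑ x : ι × Fin n, h (e x.1 x.2)) + h (e s j - Q) + h (e s' j + Q) := by
  have hab : ((s, j) : ι × Fin n) ≠ (s', j) := fun h => hs (Prod.mk.inj h).1
  rw [split (fun x : ι × Fin n => h (sh Q s s' j e x.1 x.2)) hab,
    split (fun x : ι × Fin n => h (e x.1 x.2)) hab]
  have h1 : ∑ x ∈ (Finset.univ.erase (s, j)).erase (s', j), h (sh Q s s' j e x.1 x.2) =
      ∑ x ∈ (Finset.univ.erase (s, j)).erase (s', j), h (e x.1 x.2) := by
    refine Finset.sum_congr rfl fun x hx => ?_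
    obtain ⟨hx1, hx2⟩ := Finset.mem_erase.1 hx
    have hx3 := (Finset.mem_erase.1 hx2).1
    have e1 : sh Q s s' j e x.1 x.2 = e x.1 x.2 := by
      unfold sh
      rw [if_neg (fun h' => hx3 (Prod.ext h'.1 h'.2)), if_neg (fun h' => hx1 (Prod.ext h'.1 h'.2))]
    rw [e1]
  have e2 : sh Q s s' j e s j = e s j - Q := if_pos ⟨rfl, rfl⟩
  have e3 : sh Q s s' j e s' j = e s' j + Q := by
    unfold sh
    rw [if_neg (fun h' => hs h'.1.symm), if_pos ⟨rfl, rfl⟩]
  simp only [h1, e2, e3]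
  ring

theorem sq_le {n : ℕ} (e : ι → Fin n → ℕ) :
    ∑ x : ι × Fin n, e x.1 x.2 ^ 2 ≤ (∑ x : ι × Fin n, e x.1 x.2) ^ 2 := by
  rw [sq, Finset.sum_mul]
  refine Finset.sum_le_sum fun x _ => ?_
  rw [sq]
  exact Nat.mul_le_mul_left _
    (Finset.single_le_sum (f := fun x : ι × Fin n => e x.1 x.2) (fun _ _ => Nat.zero_le _)
      (Finset.mem_univ x))

theorem main {n P Q : ℕ} {R : (ι → Fin n → ℕ) → Prop} (hQ : 0 < Q)
    (h1 : ∀ (e : ι → Fin n → ℕ) (s s' : ι) (j : Fin n), s ≠ s' → P + Q ≤ e s j → P ≤ e s' j →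
      R (sh Q s s' j e) → R e)
    (h2 : ∀ e : ι → Fin n → ℕ, (∀ j s s', P + Q ≤ e s j → P + Q ≤ e s' j → s = s') → R e)
    (B : ℕ) : ∀ (N : ℕ) (e : ι → Fin n → ℕ), ∑ x : ι × Fin n, e x.1 x.2 = B →
      B ^ 2 ≤ (∑ x : ι × Fin n, e x.1 x.2 ^ 2) + N → R e := by
  intro N
  induction N using Nat.strong_induction_on with
  | _ N ih =>
    intro e hB hN
    by_cases h : ∀ j s s', P + Q ≤ e s j → P + Q ≤ e s' j → s = s'
    · exact h2 e h
    · push Not at h
      obtain ⟨j, s, s', hs, hs', hne⟩ := h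
      have key : ∀ s s' : ι, s ≠ s' → P + Q ≤ e s j → P + Q ≤ e s' j → e s j ≤ e s' j → R e := by
        intro s s' hne hs hs' hle
        have h3 := sum_sh (fun x => x) Q hne j e
        have h4 := sum_sh (fun x => x ^ 2) Q hne j e
        have h5 : ∑ x : ι × Fin n, sh Q s s' j e x.1 x.2 = B := by omega
        have h6 : (e s j) ^ 2 + (e s' j) ^ 2 < (e s j - Q) ^ 2 + (e s' j + Q) ^ 2 := by
          obtain ⟨u, hu⟩ := Nat.exists_eq_add_of_le (show Q ≤ e s j by omega)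
          obtain ⟨v, hv⟩ := Nat.exists_eq_add_of_le hle
          rw [hv, hu, Nat.add_sub_cancel_left]
          nlinarith [Nat.zero_le u, Nat.zero_le v, Nat.zero_le (Q * v)]
        have h7 : ∑ x : ι × Fin n, e x.1 x.2 ^ 2 <
            ∑ x : ι × Fin n, sh Q s s' j e x.1 x.2 ^ 2 := by omega
        have h8 := sq_le (sh Q s s' j e)
        rw [h5] at h8
        refine h1 e s s' j hne hs (by omega) ?_
        exact ih (B ^ 2 - ∑ x : ι × Fin n, sh Q s s' j e x.1 x.2 ^ 2) (by omega) _ h5 (by omega)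
      rcases le_total (e s j) (e s' j) with hle | hle
      · exact key s s' hne hs hs' hle
      · exact key s' s hne.symm hs' hs hle

end AssignAux

theorem assign : AssignProp := by
  intro ι _ _ n P Q R hQ h1 h2 e
  exact AssignAux.main hQ h1 h2 _ (( ∑ x : ι × Fin n, e x.1 x.2) ^ 2) e rfl (by omega)

end Pool.Agent.Lib.MP_240c17_al.Sol
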