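import Pool.Agent.Lib.MP_240c17_al.Tor.Spec

/-!
The lower central series of an ideal `D`, and basic lemmas (compare `Tor/Base.lean`, where `D` is the
derived algebra).
-/

set_option autoImplicit false

namespace Pool.Agent.Lib.MP_240c17_al.Sol

universe u

open Pool.Agent.Lib.MP_240c17_al.Two Pool.Agent.Lib.MP_240c17_al.Tor

section

variable (k : Type u) [Field k] {P : Type u} [LieRing P] [LieAlgebra k P]

/-- The lower central series of the ideal `D`: `gd 0 = ⊤`, `gd 1 = D`, `gd (i + 2) = ⁅gd (i + 1), D⁆`. -/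
def gd (D : LieIdeal k P) : ℕ → LieIdeal k P
  | 0 => ⊤
  | 1 => D
  | (i + 2) => ⁅gd D (i + 1), D⁆

/-- `brn M D t = ⁅…⁅⁅M, D⁆, D⁆ …, D⁆` (`t` times). -/
def brn (M D : LieIdeal k P) : ℕ → LieIdeal k P
  | 0 => M
  | (t + 1) => ⁅brn M D t, D⁆

/-- `⁅…⁅a, y⁆ …, y⁆` (`b` times) is in `D`, for all `a, y`. -/
def Eng (D : LieIdeal k P) (b : ℕ) : Prop := ∀ y a : P, pw k y b a ∈ D

/-- The product of the entries of `d`: `wd (d 0) [d 1, …, d c]`. -/
def fac {c : ℕ} (d : Fin (c + 1) → P) : P := wd (d 0) (List.ofFn fun i : Fin c => d i.succ)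

end

variable {k : Type u} [Field k] {P : Type u} [LieRing P] [LieAlgebra k P]

theorem gd_zero (D : LieIdeal k P) : gd k D 0 = ⊤ := rfl
theorem gd_one (D : LieIdeal k P) : gd k D 1 = D := rfl
theorem gd_succ (D : LieIdeal k P) (i : ℕ) : gd k D (i + 2) = ⁅gd k D (i + 1), D⁆ := rfl

theorem gd_le (D : LieIdeal k P) (i : ℕ) : gd k D (i + 1) ≤ gd k D i := by
  rcases i with _ | i
  · exact le_top
  · exact LieSubmodule.lie_le_left _ _

theorem gd_anti (D : LieIdeal k P) {i j : ℕ} (h : i ≤ j) : gd k D j ≤ gd k D i := by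
  induction j, h using Nat.le_induction with
  | base => exact le_rfl
  | succ j _ ih => exact (gd_le D j).trans ih

theorem gd_le_D (D : LieIdeal k P) {i : ℕ} (hi : 1 ≤ i) : gd k D i ≤ D := gd_anti D hi

theorem lie_mem_gd {D : LieIdeal k P} {i : ℕ} (hi : 1 ≤ i) {a b : P} (ha : a ∈ gd k D i)
    (hb : b ∈ D) : ⁅a, b⁆ ∈ gd k D (i + 1) := by
  obtain ⟨i, rfl⟩ := Nat.exists_eq_add_of_le' hi
  exact LieSubmodule.lie_mem_lie ha hb

theorem gd_succ_le {D : LieIdeal k P} {i : ℕ} (hi : 1 ≤ i) {Y : Submodule k P}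
    (h : ∀ a ∈ gd k D i, ∀ b ∈ D, ⁅a, b⁆ ∈ Y) : (gd k D (i + 1)).toSubmodule ≤ Y := by
  obtain ⟨i, rfl⟩ := Nat.exists_eq_add_of_le' hi
  exact br_le h

theorem lie_mem_gd_gd {D : LieIdeal k P} {i j : ℕ} (hi : 1 ≤ i) (hj : 1 ≤ j) {a b : P}
    (ha : a ∈ gd k D i) (hb : b ∈ gd k D j) : ⁅a, b⁆ ∈ gd k D (i + j) := by
  induction j, hj using Nat.le_induction generalizing i a b with
  | base => exact lie_mem_gd hi ha hb
  | succ j hj ih =>
    have h1 : (gd k D (j + 1)).toSubmodule ≤
        (gd k D (i + (j + 1))).toSubmodule.comap (LieAlgebra.ad k P a : P →ₗ[k] P) := by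
      apply gd_succ_le hj
      intro b hb d hd
      show ⁅a, ⁅b, d⁆⁆ ∈ gd k D (i + (j + 1))
      rw [lie_lie_right]
      refine sub_mem ?_ ?_
      · have h2 := lie_mem_gd (i := i + j) (by omega) (ih hi ha hb) hd
        exact h2
      · have h2 := ih (i := i + 1) (by omega) (lie_mem_gd hi ha hd) hb
        rwa [show i + 1 + j = i + (j + 1) by ring] at h2
    exact h1 hb

/-- The number of letters in `D`. -/
theorem wd_mem_gd {D : LieIdeal k P} {i : ℕ} (hi : 1 ≤ i) {a : P} (ha : a ∈ gd k D i) (l : List P)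
    [DecidablePred fun z : P => z ∈ D] :
    wd a l ∈ gd k D (i + l.countP (fun z => decide (z ∈ D))) := by
  induction l generalizing i a with
  | nil => simpa using ha
  | cons z l ih =>
    rw [wd_cons, List.countP_cons]
    by_cases hz : z ∈ D
    · have h := ih (i := i + 1) (by omega) (lie_mem_gd hi ha hz)
      simpa [hz, add_assoc, add_comm, add_left_comm] using h
    · have h := ih hi (lie_mem_right ha z)
      simpa [hz] using h

/-- All the letters are in `D`. -/
theorem wd_mem_gd_all {D : LieIdeal k P} {i : ℕ} (hi : 1 ≤ i) {a : P} (ha : a ∈ gd k D i)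
    (l : List P) (hl : ∀ z ∈ l, z ∈ D) : wd a l ∈ gd k D (i + l.length) := by
  induction l generalizing i a with
  | nil => simpa using ha
  | cons z l ih =>
    rw [wd_cons, List.length_cons]
    have h := ih (i := i + 1) (by omega) (lie_mem_gd hi ha (hl z (by simp)))
      (fun w hw => hl w (by simp [hw]))
    rwa [show i + 1 + l.length = i + (l.length + 1) by ring] at h

theorem fac_mem {D : LieIdeal k P} {c : ℕ} (d : Fin (c + 1) → P) (hd : ∀ i, d i ∈ D) :
    fac d ∈ gd k D (c + 1) := by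
  have h := wd_mem_gd_all (D := D) (i := 1) le_rfl (a := d 0) (hd 0)
    (List.ofFn fun i : Fin c => d i.succ) (by
      intro z hz
      obtain ⟨i, rfl⟩ := List.mem_ofFn.mp hz
      exact hd _)
  rw [List.length_ofFn, add_comm] at h
  exact h

theorem map_mem_gd {Q : Type u} [LieRing Q] [LieAlgebra k Q] (f : P →ₗ⁅k⁆ Q) {D : LieIdeal k P}
    {D' : LieIdeal k Q} (hf : ∀ a ∈ D, f a ∈ D') {i : ℕ} {a : P} (ha : a ∈ gd k D i) :
    f a ∈ gd k D' i := by
  rcases i with _ | i
  · exact LieSubmodule.mem_top _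
  induction i generalizing a with
  | zero => exact hf a ha
  | succ i ih =>
    have h1 : (gd k D (i + 1 + 1)).toSubmodule ≤
        (gd k D' (i + 1 + 1)).toSubmodule.comap (f : P →ₗ[k] Q) := by
      apply gd_succ_le (by omega)
      intro a ha b hb
      show f ⁅a, b⁆ ∈ gd k D' (i + 1 + 1)
      rw [LieHom.map_lie]
      exact lie_mem_gd (by omega) (ih ha) (hf b hb)
    exact h1 ha

theorem gd_mono {D D' : LieIdeal k P} (h : D ≤ D') (i : ℕ) : gd k D i ≤ gd k D' i := by
  rcases i with _ | i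
  · exact le_rfl
  induction i with
  | zero => exact h
  | succ i ih => exact LieSubmodule.mono_lie ih h

theorem brn_mono {M M' D D' : LieIdeal k P} (hM : M ≤ M') (hD : D ≤ D') (t : ℕ) :
    brn k M D t ≤ brn k M' D' t := by
  induction t with
  | zero => exact hM
  | succ t ih => exact LieSubmodule.mono_lie ih hD

theorem brn_le (M D : LieIdeal k P) (t : ℕ) : brn k M D t ≤ M := by
  induction t with
  | zero => exact le_rfl
  | succ t ih => exact (LieSubmodule.lie_le_left _ _).trans ih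

theorem brn_add (M D : LieIdeal k P) (s t : ℕ) : brn k M D (s + t) = brn k (brn k M D s) D t := by
  induction t with
  | zero => rfl
  | succ t ih =>
    show ⁅brn k M D (s + t), D⁆ = ⁅brn k (brn k M D s) D t, D⁆
    rw [ih]

theorem gd_brn (D : LieIdeal k P) (i t : ℕ) (hi : 1 ≤ i) :
    gd k D (i + t) = brn k (gd k D i) D t := by
  induction t with
  | zero => rfl
  | succ t ih =>
    obtain ⟨i, rfl⟩ := Nat.exists_eq_add_of_le' hi
    rw [show i + 1 + (t + 1) = (i + t) + 2 by ring, gd_succ,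
      show i + t + 1 = i + 1 + t by ring, ih]
    rfl

/-- A derivation `pw y e` with values in `D` commutes with brackets modulo the next term. -/
theorem pw_comm_mod {D : LieIdeal k P} {e : ℕ} (hD : Der k P e) (he : Eng k D e) {i : ℕ}
    (hi : 1 ≤ i) {a : P} (ha : a ∈ gd k D i) (y z : P) :
    pw k y e ⁅a, z⁆ - ⁅pw k y e a, z⁆ ∈ gd k D (i + 1) := by
  rw [hD y a z, add_sub_cancel_left]
  exact lie_mem_gd hi ha (he y z)

/-- Intersections of subspaces of finite codimension. -/
theorem fc_inf {X : Type u} [AddCommGroup X] [Module k X] {Y Z : Submodule k X} (h1 : FC Y ⊤)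
    (h2 : FC Z ⊤) : FC (Y ⊓ Z) ⊤ := by
  rw [fc_top_iff] at h1 h2 ⊢
  let f : X →ₗ[k] (X ⧸ Y) × (X ⧸ Z) := Y.mkQ.prod Z.mkQ
  have hf : LinearMap.ker f = Y ⊓ Z := by
    rw [LinearMap.ker_prod, Submodule.ker_mkQ, Submodule.ker_mkQ]
  have h3 : FiniteDimensional k (X ⧸ LinearMap.ker f) :=
    Module.Finite.equiv f.quotKerEquivRange.symm
  rw [hf] at h3
  exact h3

/-- The ordered monomial `⁅…⁅a, x 0⁆ …, x 0⁆, x 1⁆ …, x (n-1)⁆`, `e i` letters `x i`. -/
def mono {n : ℕ} (x : Fin n → P) (a : P) (e : Fin n → ℕ) : P :=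
  wd a ((List.finRange n).flatMap fun i => List.replicate (e i) (x i))

/-- The values of a product of `T + 1` factors, each one of them with `c + 1` entries. -/
def val {T c : ℕ} (a : P) (v : Fin (T + 1) → Fin (c + 1) → P) : P :=
  wd a (List.ofFn fun l => fac (v l))

theorem Eng.mono {D : LieIdeal k P} {b b' : ℕ} (h : Eng k D b) (hb : b ≤ b') : Eng k D b' := by
  intro y a
  obtain ⟨t, rfl⟩ := Nat.exists_eq_add_of_le hb
  rw [pw_add]
  exact h y _

end Pool.Agent.Lib.MP_240c17_al.Sol
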