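import Pool.Agent.Lib.MP_240c17_al.Sol.FacH4

set_option autoImplicit false

namespace Pool.Agent.Lib.MP_240c17_al.Sol

universe u

open Pool.Agent.Lib.MP_240c17_al Pool.Agent.Lib.MP_240c17_al.Two Pool.Agent.Lib.MP_240c17_al.Tor

namespace BrnZsH4

variable {k : Type u} [Field k] {L : Type u} [LieRing L] [LieAlgebra k L]

theorem brn_span (M Z : LieIdeal k L) (t : ℕ) : (brn k M Z (t + 1)).toSubmodule ≤
    Submodule.span k {w | ∃ a ∈ M, ∃ w₀ ∈ Z, ∃ zs : List L, zs.length = t ∧ (∀ z ∈ zs, z ∈ Z) ∧
      w = wd ⁅a, w₀⁆ zs} := by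
  induction t with
  | zero =>
    apply br_le
    intro a ha b hb
    exact Submodule.subset_span ⟨a, ha, b, hb, [], rfl, by simp, rfl⟩
  | succ t ih =>
    apply br_le
    intro a ha b hb
    have h1 := ih ha
    clear ha
    induction h1 using Submodule.span_induction with
    | mem x hx =>
      obtain ⟨a, ha, w₀, hw₀, zs, hl, hzs, rfl⟩ := hx
      refine Submodule.subset_span ⟨a, ha, w₀, hw₀, zs ++ [b], ?_, ?_, ?_⟩
      · rw [List.length_append, hl]
        rfl
      · intro z hz
        rw [List.mem_append, List.mem_singleton] at hz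
        rcases hz with hz | rfl
        · exact hzs z hz
        · exact hb
      · rw [wd_concat]
    | zero =>
      rw [zero_lie]
      exact Submodule.zero_mem _
    | add x y _ _ hx hy =>
      rw [add_lie]
      exact Submodule.add_mem _ hx hy
    | smul t x _ hx =>
      rw [smul_lie]
      exact Submodule.smul_mem _ t hx

end BrnZsH4

theorem brnZs : BrnZsProp.{u} := by
  intro k _ L _ _ D E Zs M M' c P T hE hZs hZD hM hT
  have hbase : ∀ a ∈ M, ∀ zs : List L, zs.length = T → (∀ z ∈ zs, z ∈ gd k D (c + 1)) →
      ∀ w₀ ∈ Zs, wd ⁅a, w₀⁆ zs ∈ M' := by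
    intro a ha zs hl hzs w₀ hw₀
    have h1 : w₀ ∈ Zs.toSubmodule := hw₀
    rw [hZs] at h1
    clear hw₀
    induction h1 using Submodule.span_induction with
    | mem x hx =>
      obtain ⟨d, hd, ⟨i, hi⟩, rfl⟩ := hx
      -- linear in the entry `i`
      have h2 : ∀ v ∈ Submodule.span k {w | ∃ y a, a ∈ D ∧ w = pw k y P a} ⊔
          (gd k D 2).toSubmodule, wd ⁅a, fac (Function.update d i v)⁆ zs ∈ M' := by
        intro v hv
        obtain ⟨v₁, hv₁, v₂, hv₂, rfl⟩ := Submodule.mem_sup.1 hv
        have hm : ∀ v ∈ D, ∀ j, Function.update d i v j ∈ D := by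
          intro v hv j
          by_cases h : j = i
          · subst h
            rw [Function.update_self]
            exact hv
          · rw [Function.update_of_ne h]
            exact hd j
        rw [H4.fac_update_add, lie_add, wd_add]
        refine M'.add_mem ?_ ?_
        · clear hv hv₂ v₂
          induction hv₁ using Submodule.span_induction with
          | mem x hx =>
            obtain ⟨y, b, hb, rfl⟩ := hx
            refine hT (Function.update d i (pw k y P b)) zs (hm _ (pw_mem hb y P))
              ⟨i, y, b, hb, ?_⟩ hl hzs a ha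
            rw [Function.update_self]
          | zero =>
            rw [H4.fac_update_zero, lie_zero, wd_zero]
            exact M'.zero_mem
          | add x y _ _ hx hy =>
            rw [H4.fac_update_add, lie_add, wd_add]
            exact M'.add_mem hx hy
          | smul t x _ hx =>
            rw [H4.fac_update_smul, lie_smul, wd_smul]
            exact M'.smul_mem t hx
        · have h3 : v₂ ∈ gd k D 2 := hv₂
          have h4 := H4.fac_mem2 (D := D) (Function.update d i v₂) i
            (hm _ (gd_le_D D (by omega) h3)) (by rw [Function.update_self]; exact h3)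
          exact wd_mem (hM a ha _ h4) zs
      have h5 := h2 (d i) (by
        rw [← hE]
        exact hi)
      rwa [Function.update_eq_self] at h5
    | zero =>
      rw [lie_zero, wd_zero]
      exact M'.zero_mem
    | add x y _ _ hx hy =>
      rw [lie_add, wd_add]
      exact M'.add_mem hx hy
    | smul t x _ hx =>
      rw [lie_smul, wd_smul]
      exact M'.smul_mem t hx
  intro w hw
  have h1 := BrnZsH4.brn_span M Zs T hw
  have h2 : Submodule.span k {w | ∃ a ∈ M, ∃ w₀ ∈ Zs, ∃ zs : List L, zs.length = T ∧
      (∀ z ∈ zs, z ∈ Zs) ∧ w = wd ⁅a, w₀⁆ zs} ≤ M'.toSubmodule := by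
    rw [Submodule.span_le]
    rintro _ ⟨a, ha, w₀, hw₀, zs, hl, hzs, rfl⟩
    exact hbase a ha zs hl (fun z hz => hZD (hzs z hz)) w₀ hw₀
  exact h2 h1

end Pool.Agent.Lib.MP_240c17_al.Sol
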