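import Pool.Agent.Lib.MP_240c17_al.Sol.Spec

/-!
MP_240c17_al, module CofD (helper86): the ideal G has finite codimension.
-/

set_option autoImplicit false

namespace Pool.Agent.Lib.MP_240c17_al.Sol

universe u

open Pool.Agent.Lib.MP_240c17_al Pool.Agent.Lib.MP_240c17_al.Two Pool.Agent.Lib.MP_240c17_al.Tor

namespace CofDaux

variable {k : Type u} [Field k] {F : Type u} [LieRing F] [LieAlgebra k F]

theorem bracket_span (W W' : Finset F) (U : Submodule k F)
    (h : ∀ w ∈ W, ∀ w' ∈ W', ⁅w, w'⁆ ∈ U) :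
    ∀ s ∈ Submodule.span k (W : Set F), ∀ s' ∈ Submodule.span k (W' : Set F), ⁅s, s'⁆ ∈ U := by
  intro s hs s' hs'
  have h1 : ∀ w ∈ W, ⁅w, s'⁆ ∈ U := by
    intro w hw
    have h2 : Submodule.span k (W' : Set F) ≤ U.comap (LieAlgebra.ad k F w : F →ₗ[k] F) := by
      rw [Submodule.span_le]
      intro w' hw'
      exact h w hw w' hw'
    exact h2 hs'
  have h3 : Submodule.span k (W : Set F) ≤ U.comap (adr k s') := by
    rw [Submodule.span_le]
    intro w hw
    exact h1 w hw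
  exact h3 hs

theorem step2 {D G : LieIdeal k F}
    (h1 : FC (G.toSubmodule ⊔ (gd k D 2).toSubmodule) (gd k D 1).toSubmodule) :
    ∀ i : ℕ, 1 ≤ i → FC (G.toSubmodule ⊔ (gd k D (i + 1)).toSubmodule)
      (gd k D i).toSubmodule := by
  classical
  intro i hi
  induction i, hi using Nat.le_induction with
  | base => exact h1
  | succ i hi ih =>
    obtain ⟨W, hW⟩ := h1
    obtain ⟨Wi, hWi⟩ := ih
    let W2 : Finset F := (Wi ×ˢ W).image (fun p : F × F => ⁅p.1, p.2⁆)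
    refine ⟨W2, ?_⟩
    refine gd_succ_le (i := i) hi fun a ha b hb => ?_
    obtain ⟨y, hy, s, hs, hys⟩ := Submodule.mem_sup.1 (hWi ha)
    obtain ⟨g, hg, a', ha', hga⟩ := Submodule.mem_sup.1 hy
    obtain ⟨y', hy', s', hs', hys'⟩ := Submodule.mem_sup.1 (hW hb)
    obtain ⟨g', hg', b', hb', hgb⟩ := Submodule.mem_sup.1 hy'
    have hg : g ∈ G := hg
    have hg' : g' ∈ G := hg'
    have ha' : a' ∈ gd k D (i + 1) := ha'
    have hb' : b' ∈ gd k D 2 := hb'
    have hss : ⁅s, s'⁆ ∈ Submodule.span k (W2 : Set F) := by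
      refine bracket_span Wi W _ (fun w hw w' hw' => ?_) s hs s' hs'
      apply Submodule.subset_span
      rw [Finset.mem_coe, Finset.mem_image]
      exact ⟨(w, w'), Finset.mem_product.2 ⟨hw, hw'⟩, rfl⟩
    have e : ⁅a, b⁆ = ((⁅g, b⁆ + ⁅s, g'⁆ - ⁅g, b'⁆) + (⁅a', b⁆ + ⁅a, b'⁆ - ⁅a', b'⁆)) + ⁅s, s'⁆ := by
      rw [← hys, ← hys', ← hga, ← hgb]
      simp only [add_lie, lie_add]
      abel
    rw [e]
    have hG1 : ⁅g, b⁆ + ⁅s, g'⁆ - ⁅g, b'⁆ ∈ G :=
      sub_mem (add_mem (lie_mem_right hg b) (lie_mem_left' hg' s)) (lie_mem_right hg b')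
    have hG2 : ⁅a', b⁆ + ⁅a, b'⁆ - ⁅a', b'⁆ ∈ gd k D (i + 1 + 1) := by
      refine sub_mem (add_mem ?_ ?_) ?_
      · exact lie_mem_gd (by omega) ha' hb
      · exact lie_mem_gd_gd hi (by norm_num) ha hb'
      · exact gd_anti D (by omega)
          (lie_mem_gd_gd (i := i + 1) (by omega) (by norm_num) ha' hb')
    exact Submodule.add_mem_sup (Submodule.add_mem_sup hG1 hG2) hss

theorem step3 {D G : LieIdeal k F}
    (h2 : ∀ i : ℕ, 1 ≤ i → FC (G.toSubmodule ⊔ (gd k D (i + 1)).toSubmodule)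
      (gd k D i).toSubmodule) :
    ∀ i : ℕ, FC (G.toSubmodule ⊔ (gd k D (i + 1)).toSubmodule) (gd k D 1).toSubmodule := by
  intro i
  induction i with
  | zero => exact FC.of_le le_sup_right
  | succ i ih =>
    have h3 : FC (G.toSubmodule ⊔ (gd k D (i + 1 + 1)).toSubmodule)
        (G.toSubmodule ⊔ (gd k D (i + 1)).toSubmodule) := by
      obtain ⟨W, hW⟩ := h2 (i + 1) (by omega)
      exact ⟨W, sup_le (le_sup_left.trans le_sup_left) hW⟩
    exact h3.trans ih

end CofDaux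

theorem cofD (h1 : FcStepProp.{u}) : CofDProp.{u} := by
  classical
  intro k _ F _ _ n y D G c M hx hsp hc hG
  have hE := h1 k F n y D (gd k D 2 ⊔ G) M hx hsp le_sup_left
    (fun j w _ => (le_sup_right : G ≤ gd k D 2 ⊔ G) (hG j w))
  rw [LieSubmodule.sup_toSubmodule] at hE
  have h2 : FC (G.toSubmodule ⊔ (gd k D 2).toSubmodule) (gd k D 1).toSubmodule := by
    rw [sup_comm]
    exact hE.mono le_rfl le_top
  have h3 := CofDaux.step3 (CofDaux.step2 h2) c
  rw [hc] at h3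
  have h4 : FC G.toSubmodule (gd k D 1).toSubmodule := by
    refine h3.mono ?_ le_rfl
    rw [LieSubmodule.bot_toSubmodule, sup_bot_eq]
  have h5 : FC (gd k D 1).toSubmodule ⊤ := by
    refine ⟨Finset.univ.image y, ?_⟩
    rw [← hsp, gd_one, sup_comm]
    refine sup_le_sup_left ?_ _
    apply Submodule.span_mono
    rintro _ ⟨i, rfl⟩
    rw [Finset.mem_coe, Finset.mem_image]
    exact ⟨i, Finset.mem_univ i, rfl⟩
  exact h4.trans h5

end Pool.Agent.Lib.MP_240c17_al.Sol
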