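import Pool.Agent.Lib.MP_240c17_al.Sol.Spec
import Pool.Agent.Lib.MP_240c17_al.Tor.Main

/-!
Assembly of the core theorem (C1).
-/

set_option autoImplicit false

namespace Pool.Agent.Lib.MP_240c17_al.Sol

universe u

open Pool.Agent.Lib.MP_240c17_al Pool.Agent.Lib.MP_240c17_al.Two Pool.Agent.Lib.MP_240c17_al.Tor

/-- There are arbitrarily large `s` with balancedness. -/
theorem core_bal (hFrob : FrobProp.{u}) (hTors : TorsionProp.{u}) (hStep : BoundStepProp.{u})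
    (k : Type u) [Field k] [Infinite k] (p : ℕ) [hp : Fact p.Prime] [CharP k p] (m r : ℕ)
    (co : ℕ → k) (hr : 0 < r) (hco : ∀ i ≤ m, co i ^ p ^ r = co i) (hne : ∃ i ≤ m, co i ≠ 0) :
    ∃ B M : ℕ, 0 < M ∧ ∀ (F : Type u) [LieRing F] [LieAlgebra k F], IdI k F m co →
      (∀ t, Der k F (p ^ t)) ∧
      (∀ s N : ℕ, B ≤ p ^ s → p ^ s * M ∣ N → Der k F (p ^ s + N)) ∧
      ∀ i b₀ : ℕ, ∃ s Q, b₀ ≤ p ^ s ∧ B ≤ p ^ s ∧ 0 < Q ∧ p ^ s * M ∣ Q ∧
        BalW k F i (p ^ s) Q := by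
  obtain ⟨B, M, hM, hT⟩ := hTors k p m r co hr hco hne
  refine ⟨B, M, hM, ?_⟩
  intro F _ _ hI
  have hFL := hT F hI
  refine ⟨fun t => hFrob k p F t, fun s N h1 h2 => (hFL s N h1 h2).1, ?_⟩
  intro i b₀
  have hp0 : 0 < p := hp.out.pos
  obtain ⟨s0, hs0⟩ := main_pow p (max b₀ B)
  have h0 : BalW k F 0 (p ^ s0) (p ^ s0 * M) :=
    (hFL s0 _ ((le_max_right _ _).trans hs0) (dvd_refl _)).2
  have hB : ∀ i, ∃ s Q, s0 ≤ s ∧ 0 < Q ∧ BalW k F i (p ^ s) Q := by
    intro i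
    induction i with
    | zero => exact ⟨s0, p ^ s0 * M, le_rfl, by positivity, h0⟩
    | succ i ih =>
      obtain ⟨s, Q, h1, h2, h3⟩ := ih
      exact ⟨2 * s + 2, p ^ (s + 2) * Q, by omega, by positivity, hStep k p F i s Q h3⟩
  obtain ⟨s1, Q1, hs1, hQ1, hBal1⟩ := hB i
  have hle : p ^ s0 ≤ p ^ s1 := Nat.pow_le_pow_right hp0 hs1
  refine ⟨s1, (p ^ s1 * M) * Q1, ((le_max_left _ _).trans hs0).trans hle,
    ((le_max_right _ _).trans hs0).trans hle, by positivity, Dvd.intro _ rfl, ?_⟩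
  exact hBal1.mono le_rfl (p ^ s1 * M)

theorem core (hFrob : FrobProp.{u}) (hTors : TorsionProp.{u}) (hStep : BoundStepProp.{u})
    (hUnb : UnbProp.{u}) (hW : WeightsProp.{u}) (hSpan : MomSpanProp.{u})
    (hExp : ExpProp.{u}) (hLin : LinExtProp.{u})
    (hPw : PwPolyProp.{u}) (hPoly : OpPolProp.{u}) (hStr : StrLinProp.{u}) (hNil : NilProp.{u})
    (hCof : CofDProp.{u}) (hGfg : GfgProp.{u})
    (hKfg : KfgDProp.{u}) (hXfg : XfgProp.{u}) (hFin : FinishProp.{u}) : CoreProp.{u} := by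
  intro k _ _ p hp _ F _ _ n x D K c b m r co ζ hx hxD hlift hgd hEng hr hco hne hI hK hζ
  have hp0 : 0 < p := hp.out.pos
  obtain ⟨B, M, hM, hT⟩ := core_bal hFrob hTors hStep k p m r co hr hco hne
  obtain ⟨hF, hDer, hBal⟩ := hT F hI
  obtain ⟨s1, Q2, hbs1, hBs1, hQ2pos, hQ2, hBal2⟩ := hBal c b
  have hDer2 : Der k F (p ^ s1 + Q2) := hDer s1 Q2 hBs1 hQ2
  obtain ⟨E, hE⟩ : ∃ E, E = p ^ s1 * (p ^ (2 * c) + 1) + b := ⟨_, rfl⟩
  have hInf : BalInf k F E Q2 := by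
    rw [hE]
    exact hUnb k p F D c b s1 Q2 hgd hEng hbs1 hF hDer2 hBal2
  have hEpos : 0 < E := by
    have : 0 < p ^ s1 * (p ^ (2 * c) + 1) := by positivity
    omega
  have hbE : b ≤ E := by omega
  obtain ⟨s3, hs3⟩ := main_pow p (max E B)
  obtain ⟨P, hP⟩ : ∃ P, P = p ^ s3 := ⟨_, rfl⟩
  have hEP : E ≤ P := by rw [hP]; exact (le_max_left _ _).trans hs3
  have hPpos : 0 < P := by omega
  obtain ⟨N, hN⟩ : ∃ N, N = Q2 * ((c + 1).factorial * (c + 1).factorial) * (P * M) := ⟨_, rfl⟩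
  have hNpos : 0 < N := by
    rw [hN]
    have := Nat.factorial_pos (c + 1)
    positivity
  have hDerP : Der k F P := by rw [hP]; exact hF s3
  have hDerPN : Der k F (P + N) := by
    rw [hP]
    refine hDer s3 N ((le_max_right _ _).trans hs3) ?_
    rw [hN, hP]
    exact Dvd.intro_left _ rfl
  have hdiv : ∀ j, 1 ≤ j → j ≤ c → Q2 * (j * (j + 1)) ∣ N ∧ E ≤ N / j := by
    intro j hj1 hjc
    have h1 : j ∣ (c + 1).factorial := Nat.dvd_factorial hj1 (by omega)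
    have h2 : j + 1 ∣ (c + 1).factorial := Nat.dvd_factorial (by omega) (by omega)
    constructor
    · rw [hN]
      exact Dvd.dvd.mul_right (mul_dvd_mul_left _ (mul_dvd_mul h1 h2)) _
    · rw [Nat.le_div_iff_mul_le (by omega), hN]
      have h3 : j ≤ (c + 1).factorial := Nat.le_of_dvd (Nat.factorial_pos _) h1
      calc E * j ≤ P * (c + 1).factorial := Nat.mul_le_mul hEP h3
        _ = 1 * (1 * (c + 1).factorial) * (P * 1) := by ring
        _ ≤ Q2 * ((c + 1).factorial * (c + 1).factorial) * (P * M) := by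
          gcongr
          · exact hQ2pos
          · exact Nat.factorial_pos _
          · exact hM
  have hNdiv : ∀ j < c, b ≤ N / (j + 1) := by
    intro j hj
    exact hbE.trans (hdiv (j + 1) (by omega) (by omega)).2
  obtain ⟨lam, g, hg⟩ := hW k c
  have hex : ∀ (v : F) (s j : ℕ), ∃ θ : F →ₗ⁅k⁆ F, j < c →
      ∀ i, θ (x i) = x i + lam s • pw k v (N / (j + 1)) (x i) := by
    intro v s j
    by_cases hj : j < c
    · obtain ⟨θ, hθ⟩ := hlift (fun i => x i + lam s • pw k v (N / (j + 1)) (x i)) (by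
        intro i
        show x i + lam s • pw k v (N / (j + 1)) (x i) - x i ∈ D
        rw [add_sub_cancel_left]
        exact D.smul_mem _ (hEng.mono (hNdiv j hj) v (x i)))
      exact ⟨θ, fun _ => hθ⟩
    · exact ⟨LieHom.id, fun h => absurd h hj⟩
  choose θ hθ using hex
  let Top : F → Module.End k F := fun v => ∑ j ∈ Finset.range c, ∑ s ∈ Finset.range (c + 1),
    ((-1) ^ j * g (j + 1) s) • (θ v s j : F →ₗ[k] F)
  have hOp : ∀ v, IsOpD k x c N lam g v (Top v) := by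
    intro v
    refine ⟨θ v, fun s j hj => hθ v s j hj, ?_⟩
    intro w
    simp only [Top, LinearMap.sum_apply, LinearMap.smul_apply]
    rfl
  let T : k → Module.End k F := fun μ => Top (mom k x μ)
  have ha : ∀ (μ : k) (w : F) (ls : List F),
      T μ (wd (pw k (mom k x μ) P w) ls) = wd (pw k (mom k x μ) (P + N) w) ls := by
    intro μ
    exact hLin k F n x P (P + N) (mom k x μ) (T μ) hx hDerP hDerPN
      (hExp k F D n x c b N E Q2 P lam g (mom k x μ) (T μ) hg hgd hEng hbE hInf hEpos hEP hdiv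
        (main_mom_mem x μ) (hOp _))
  obtain ⟨d, hd⟩ : ∃ d, d = c * N * n := ⟨_, rfl⟩
  have hPF : ∀ w, PF k d (fun μ => T μ w) := by
    rw [hd]
    exact hPoly k F D n x c b N lam g T hx hgd hEng hNdiv (fun μ => hOp _)
  let ν : Fin (d + 1 + P * n) → k := fun i => Infinite.natEmbedding k (i : ℕ)
  have hν : Function.Injective ν := fun i j h =>
    Fin.ext ((Infinite.natEmbedding k).injective h)
  obtain ⟨hG1, hG2, hG3, hG4⟩ := hStr k F n x P N d (d + 1) (d + 1 + P * n) ν T hν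
    (Nat.lt_succ_self d) hPF ha
  obtain ⟨M', hM'⟩ := hNil k F D n x c b P (d + 1) (d + 1 + P * n) ν hν (by omega) hgd hEng
    (hbE.trans hEP) hDerP
  obtain ⟨G, hG⟩ : ∃ G, G = GG k x P ν (d + 1) := ⟨_, rfl⟩
  rw [← hG] at hG1 hG2 hG3 hG4 hM'
  obtain ⟨s4, hs4⟩ := main_pow p (max M' P)
  obtain ⟨P', hP'⟩ : ∃ P', P' = p ^ s4 := ⟨_, rfl⟩
  rw [← hP'] at hs4
  have hM'P' : M' ≤ P' := (le_max_left _ _).trans hs4
  have hPP' : P ≤ P' := (le_max_right _ _).trans hs4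
  have hP'pos : 0 < P' := by omega
  have hDerP' : Der k F P' := by rw [hP']; exact hF s4
  have hP'G : ∀ (μ : k) (w : F), pw k (mom k x μ) P' w ∈ G := by
    intro μ w
    obtain ⟨t, rfl⟩ := Nat.exists_eq_add_of_le' hM'P'
    rw [pw_add]
    exact pw_mem (hM' μ w) _ t
  let ν' : Fin n → k := fun i => Infinite.natEmbedding k (i : ℕ)
  have hν' : Function.Injective ν' := fun i j h =>
    Fin.ext ((Infinite.natEmbedding k).injective h)
  have hsp := hSpan k F n x ν' hν'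
  have hy : LieSubalgebra.lieSpan k F (Set.range fun i => mom k x (ν' i)) = ⊤ :=
    main_gen hx hsp
  have hyD : Submodule.span k (Set.range fun i => mom k x (ν' i)) ⊔ D.toSubmodule = ⊤ := by
    rw [eq_top_iff, ← hxD]
    refine sup_le_sup_right ?_ _
    rw [Submodule.span_le]
    rintro _ ⟨j, rfl⟩
    exact hsp j
  have hGfc : FC G.toSubmodule ⊤ := hCof k F n (fun i => mom k x (ν' i)) D G c P' hy hyD hgd
    (fun j w => hP'G (ν' j) w)
  have hno := hGfg k F n (fun i => mom k x (ν' i)) D G c P N (fun j => T (ν' j)) hy hyD hgd hGfc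
    hNpos (fun j => hG1 (ν' j)) (fun j => hG2 (ν' j)) (fun i j => hG3 (ν' i) (ν' j))
    (fun j => hG4 (ν' j))
  have hK1 := hKfg k F n (fun i => mom k x (ν' i)) c P' D G K hy hyD hgd hP'pos hDerP'
    (fun j w => hP'G (ν' j) w) hGfc hK
  have hK2 := hXfg k F n (fun i => mom k x (ν' i)) P' G K hDerP'
    (fun j w => hP'G (ν' j) w) hK1
  refine hFin k F n x d N P' G K T ν' ζ hGfc hP'pos hDerP'
    (fun μ w => hP'G μ w) (hPw k F n x P') hPF hG1 hG2 hG3 ?_ hno hK2 hζ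
  intro μ a ha'
  obtain ⟨t, ht⟩ := Nat.exists_eq_add_of_le' hPP'
  rw [ht, pw_add, hG4 μ a ha', ← pw_add, add_assoc]

end Pool.Agent.Lib.MP_240c17_al.Sol
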