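import Pool.Agent.Lib.MP_240c17_al.Sol.Spec

/-!
MP_240c17_al, module DE (helper86): the ideal spanned by powers and the second term.
-/

set_option autoImplicit false

namespace Pool.Agent.Lib.MP_240c17_al.Sol

universe u

open Pool.Agent.Lib.MP_240c17_al Pool.Agent.Lib.MP_240c17_al.Two Pool.Agent.Lib.MP_240c17_al.Tor

theorem dE (h1 : FcStepProp.{u}) : DEProp.{u} := by
  intro k _ L _ _ n x D P hx hsp hDer hEng
  let E₀ : Submodule k L := Submodule.span k {w | ∃ y a, a ∈ D ∧ w = pw k y P a} ⊔
    (gd k D 2).toSubmodule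
  have hstab : ∀ z : L, ∀ m ∈ E₀, ⁅m, z⁆ ∈ E₀ := by
    intro z m hm
    have h2 : E₀ ≤ E₀.comap (adr k z) := by
      refine sup_le ?_ ?_
      · rw [Submodule.span_le]
        rintro _ ⟨y, a, ha, rfl⟩
        show ⁅pw k y P a, z⁆ ∈ E₀
        have e1 : ⁅pw k y P a, z⁆ = pw k y P ⁅a, z⁆ - ⁅a, pw k y P z⁆ := by
          rw [hDer y a z, add_sub_cancel_right]
        rw [e1]
        refine sub_mem ?_ ?_
        · exact Submodule.mem_sup_left (Submodule.subset_span ⟨y, _, lie_mem_right ha z, rfl⟩)
        · exact Submodule.mem_sup_right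
            (lie_mem_gd (i := 1) le_rfl (ha : a ∈ gd k D 1) (hEng y z))
      · intro m hm
        exact Submodule.mem_sup_right (lie_mem_right (I := gd k D 2) hm z)
    exact h2 hm
  let E : LieIdeal k L :=
    { E₀ with
      lie_mem := by
        intro z m hm
        have h3 := hstab z m hm
        rw [← lie_skew]
        exact E₀.neg_mem h3 }
  have hEE : E.toSubmodule = E₀ := rfl
  have hgen : ∀ (y a : L), a ∈ D → pw k y P a ∈ E := by
    intro y a ha
    show pw k y P a ∈ E₀
    exact Submodule.mem_sup_left (Submodule.subset_span ⟨y, a, ha, rfl⟩)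
  refine ⟨E, hEE, ?_, ?_, ?_⟩
  · have h4 : E₀ ≤ D.toSubmodule := by
      refine sup_le ?_ ?_
      · rw [Submodule.span_le]
        rintro _ ⟨y, a, ha, rfl⟩
        exact pw_mem ha y P
      · exact gd_le_D D (by norm_num)
    exact h4
  · refine h1 k L n x D E P hx hsp ?_ (fun j w hw => hgen _ _ hw)
    intro m hm
    show m ∈ E₀
    exact Submodule.mem_sup_right hm
  · intro y a
    rw [pw_add]
    exact hgen _ _ (hEng y a)

end Pool.Agent.Lib.MP_240c17_al.Sol
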