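import Pool.Agent.Lib.MP_240c17_al.Sol.ListH4

set_option autoImplicit false

namespace Pool.Agent.Lib.MP_240c17_al.Sol

universe u

open Pool.Agent.Lib.MP_240c17_al Pool.Agent.Lib.MP_240c17_al.Two Pool.Agent.Lib.MP_240c17_al.Tor

theorem diffBal (h1 : WordExpProp.{u}) (h2 : SlotBalProp.{u}) : DiffBalProp.{u} := by
  intro k _ L _ _ c e Q h y a z z' d d' i i'
  obtain ⟨N, ε, σ, hσ⟩ := h1 c
  have key : ∀ f f' : Fin (c + 1) → L, ⁅⁅a, fac f⁆, fac f'⁆ = ∑ s, ∑ s', ε s • ε s' •
      wd a ((List.ofFn fun i => f (σ s' i)) ++ List.ofFn fun i => f' (σ s i)) := by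
    intro f f'
    rw [hσ _ _ f']
    refine Finset.sum_congr rfl fun s _ => ?_
    rw [← wdL_apply (k := k), hσ _ _ f, map_sum, Finset.smul_sum]
    refine Finset.sum_congr rfl fun s' _ => ?_
    rw [map_zsmul, wdL_apply, wd_append]
  rw [key, key]
  refine Finset.sum_congr rfl fun s _ => Finset.sum_congr rfl fun s' _ => ?_
  congr 2
  rw [H4.update_perm, H4.update_perm, H4.update_perm, H4.update_perm]
  rw [H4.ofFn_update, H4.ofFn_update, H4.ofFn_update, H4.ofFn_update]
  exact H4.set_append_set h2 h y z z' _ _ a _ _ (by rw [List.length_ofFn]; exact Fin.is_lt _)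
    (by rw [List.length_ofFn]; exact Fin.is_lt _) (by simp; omega)

end Pool.Agent.Lib.MP_240c17_al.Sol
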