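import Pool.Agent.Lib.MP_240c17_al.Sol.Spec

/-!
MP_240c17_al, module ExtGen (helper86): generators which span modulo the ideal.
-/

set_option autoImplicit false

namespace Pool.Agent.Lib.MP_240c17_al.Sol

universe u

open Pool.Agent.Lib.MP_240c17_al Pool.Agent.Lib.MP_240c17_al.Two Pool.Agent.Lib.MP_240c17_al.Tor

theorem extGen : ExtGenProp.{u} := by
  classical
  intro k _ L _ _ n x D hx hD
  obtain ⟨W, hW⟩ := hD
  let T : Finset L := Finset.univ.image x ∪ W
  let y : Fin T.card → L := fun i => (T.equivFin.symm i : L)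
  have hy : Set.range y = (T : Set L) := by
    ext z
    constructor
    · rintro ⟨i, rfl⟩
      exact (T.equivFin.symm i).2
    · intro hz
      exact ⟨T.equivFin ⟨z, hz⟩, by simp [y]⟩
  have h1 : Set.range x ⊆ Set.range y := by
    rw [hy]
    rintro _ ⟨i, rfl⟩
    rw [Finset.mem_coe, Finset.mem_union, Finset.mem_image]
    exact Or.inl ⟨i, Finset.mem_univ i, rfl⟩
  have h2 : (W : Set L) ⊆ Set.range y := by
    rw [hy]
    intro z hz
    rw [Finset.mem_coe, Finset.mem_union]
    exact Or.inr hz
  refine ⟨T.card, y, ?_, ?_⟩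
  · rw [eq_top_iff, ← hx]
    exact LieSubalgebra.lieSpan_mono h1
  · rw [eq_top_iff, sup_comm]
    exact hW.trans (sup_le_sup_left (Submodule.span_mono h2) _)

end Pool.Agent.Lib.MP_240c17_al.Sol
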