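import Pool.Agent.Lib.MP_240c17_al.Sol.Spec

/-!
Lemmas on `fac` (helper4).
-/

set_option autoImplicit false

namespace Pool.Agent.Lib.MP_240c17_al.Sol

universe u

open Pool.Agent.Lib.MP_240c17_al Pool.Agent.Lib.MP_240c17_al.Two Pool.Agent.Lib.MP_240c17_al.Tor

namespace H4

section

variable {P : Type u} [LieRing P]

theorem fac_zero' (d : Fin (0 + 1) → P) : fac d = d 0 := by
  unfold fac
  simp

theorem fac_succ {c : ℕ} (d : Fin (c + 1 + 1) → P) :
    fac d = ⁅fac (fun i : Fin (c + 1) => d i.castSucc), d (Fin.last (c + 1))⁆ := by
  unfold fac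
  rw [List.ofFn_succ', List.concat_eq_append, wd_concat]
  rfl

theorem fac_snoc {c : ℕ} (d : Fin (c + 1) → P) (b : P) :
    fac (Fin.snoc (α := fun _ => P) d b : Fin (c + 1 + 1) → P) = ⁅fac d, b⁆ := by
  rw [fac_succ]
  simp

theorem fac_update_castSucc {c : ℕ} (d : Fin (c + 1 + 1) → P) (i : Fin (c + 1)) (v : P) :
    fac (Function.update d i.castSucc v) =
      ⁅fac (Function.update (fun j : Fin (c + 1) => d j.castSucc) i v), d (Fin.last (c + 1))⁆ := by
  rw [fac_succ]
  have h1 : (fun j : Fin (c + 1) => Function.update d i.castSucc v j.castSucc) =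
      Function.update (fun j : Fin (c + 1) => d j.castSucc) i v := by
    funext j
    by_cases h : j = i
    · subst h
      simp
    · have h2 : j.castSucc ≠ i.castSucc := fun h3 => h (Fin.castSucc_injective _ h3)
      rw [Function.update_of_ne h, Function.update_of_ne h2]
  rw [h1, Function.update_of_ne (Fin.castSucc_ne_last i).symm]

theorem fac_update_last {c : ℕ} (d : Fin (c + 1 + 1) → P) (v : P) :
    fac (Function.update d (Fin.last (c + 1)) v) =
      ⁅fac (fun j : Fin (c + 1) => d j.castSucc), v⁆ := by
  rw [fac_succ]
  have h1 : (fun j : Fin (c + 1) => Function.update d (Fin.last (c + 1)) v j.castSucc) =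
      (fun j : Fin (c + 1) => d j.castSucc) := by
    funext j
    rw [Function.update_of_ne (Fin.castSucc_ne_last j)]
  rw [h1, Function.update_self]

theorem fac_update_add {c : ℕ} (d : Fin (c + 1) → P) (i : Fin (c + 1)) (v w : P) :
    fac (Function.update d i (v + w)) =
      fac (Function.update d i v) + fac (Function.update d i w) := by
  induction c with
  | zero =>
    have hi : i = 0 := Fin.ext (by have := i.2; omega)
    subst hi
    simp only [fac_zero', Function.update_self]
  | succ c ih =>
    induction i using Fin.lastCases with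
    | last => rw [fac_update_last, fac_update_last, fac_update_last, lie_add]
    | cast j => rw [fac_update_castSucc, fac_update_castSucc, fac_update_castSucc, ih, add_lie]

theorem fac_update_smul {k : Type u} [Field k] [LieAlgebra k P] {c : ℕ} (d : Fin (c + 1) → P)
    (i : Fin (c + 1)) (t : k) (v : P) :
    fac (Function.update d i (t • v)) = t • fac (Function.update d i v) := by
  induction c with
  | zero =>
    have hi : i = 0 := Fin.ext (by have := i.2; omega)
    subst hi
    simp only [fac_zero', Function.update_self]
  | succ c ih =>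
    induction i using Fin.lastCases with
    | last => rw [fac_update_last, fac_update_last, lie_smul]
    | cast j => rw [fac_update_castSucc, fac_update_castSucc, ih, smul_lie]

/-- Leibniz rule -/
theorem fac_lie {c : ℕ} (d : Fin (c + 1) → P) (y : P) :
    ⁅fac d, y⁆ = ∑ i, fac (Function.update d i ⁅d i, y⁆) := by
  induction c with
  | zero =>
    rw [Fin.sum_univ_one, fac_zero', fac_zero', Function.update_self]
  | succ c ih =>
    rw [Fin.sum_univ_castSucc, fac_succ, lie_lie_swap, ih, sum_lie]
    rw [fac_update_last]
    simp only [fac_update_castSucc]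

theorem fac_update_zero {c : ℕ} (d : Fin (c + 1) → P) (i : Fin (c + 1)) :
    fac (Function.update d i 0) = 0 := by
  have h := fac_update_add d i 0 0
  rw [add_zero] at h
  exact left_eq_add.1 h

end

section

variable {k : Type u} [Field k] {P : Type u} [LieRing P] [LieAlgebra k P]

/-- one entry in `gd 2` -/
theorem fac_mem2 {D : LieIdeal k P} {c : ℕ} (d : Fin (c + 1) → P) (i : Fin (c + 1))
    (hd : ∀ i, d i ∈ D) (hi : d i ∈ gd k D 2) : fac d ∈ gd k D (c + 2) := by
  induction c with
  | zero =>
    have h0 : i = 0 := Fin.ext (by have := i.2; omega)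
    subst h0
    rw [fac_zero']
    exact hi
  | succ c ih =>
    rw [fac_succ]
    induction i using Fin.lastCases with
    | last =>
      have h1 := fac_mem (D := D) (fun j : Fin (c + 1) => d j.castSucc) (fun j => hd _)
      have h2 := lie_mem_gd_gd (D := D) (i := c + 1) (j := 2) (by omega) (by omega) h1 hi
      exact h2
    | cast j =>
      have h1 := ih (fun j : Fin (c + 1) => d j.castSucc) j (fun j => hd _) hi
      exact lie_mem_gd (i := c + 2) (by omega) h1 (hd _)

end

end H4

end Pool.Agent.Lib.MP_240c17_al.Sol
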