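import Pool.Agent.Lib.MP_240c17_al.Sol.Spec

/-!
MP_240c17_al, module FacMod (helper86): changing an entry of a product.
-/

set_option autoImplicit false

namespace Pool.Agent.Lib.MP_240c17_al.Sol

universe u

open Pool.Agent.Lib.MP_240c17_al Pool.Agent.Lib.MP_240c17_al.Two Pool.Agent.Lib.MP_240c17_al.Tor

namespace FacModAux

variable {k : Type u} [Field k] {L : Type u} [LieRing L] [LieAlgebra k L]

theorem wd_update {D : LieIdeal k L} (c : ℕ) : ∀ (i₀ : ℕ), 1 ≤ i₀ → ∀ (a : L), a ∈ gd k D i₀ →
    ∀ (f : Fin c → L) (j : Fin c) (w : L), (∀ i, f i ∈ D) → w ∈ D → f j - w ∈ gd k D 2 →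
    wd a (List.ofFn f) - wd a (List.ofFn (Function.update f j w)) ∈ gd k D (i₀ + c + 1) := by
  induction c with
  | zero => intro i₀ _ a _ f j; exact j.elim0
  | succ c ih =>
    intro i₀ hi a ha f j w hf hw hfw
    rw [List.ofFn_succ, List.ofFn_succ, wd_cons, wd_cons]
    refine Fin.cases ?_ (fun j' => ?_) j (motive := fun j => f j - w ∈ gd k D 2 →
      wd ⁅a, f 0⁆ (List.ofFn fun i : Fin c => f i.succ) -
        wd ⁅a, Function.update f j w 0⁆
          (List.ofFn fun i : Fin c => Function.update f j w i.succ) ∈
        gd k D (i₀ + (c + 1) + 1)) hfw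
    · intro hfw
      have e1 : (fun i : Fin c => Function.update f 0 w i.succ) = fun i : Fin c => f i.succ := by
        funext i
        rw [Function.update_of_ne (Fin.succ_ne_zero i)]
      rw [e1, Function.update_self, ← wd_sub, ← lie_sub]
      have h1 := wd_mem_gd_all (D := D) (i := i₀ + 2) (by omega)
        (lie_mem_gd_gd hi (by norm_num) ha hfw) (List.ofFn fun i : Fin c => f i.succ) (by
          intro z hz
          obtain ⟨i, rfl⟩ := List.mem_ofFn.mp hz
          exact hf _)
      rw [List.length_ofFn] at h1
      rwa [show i₀ + 2 + c = i₀ + (c + 1) + 1 by ring] at h1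
    · intro hfw
      have e1 : (fun i : Fin c => Function.update f j'.succ w i.succ) =
          Function.update (fun i : Fin c => f i.succ) j' w := by
        funext i
        by_cases h : i = j'
        · rw [h, Function.update_self, Function.update_self]
        · rw [Function.update_of_ne h,
            Function.update_of_ne (fun h' => h (Fin.succ_injective _ h'))]
      rw [e1, Function.update_of_ne (Fin.succ_ne_zero j').symm]
      have h1 := ih (i₀ + 1) (by omega) ⁅a, f 0⁆ (lie_mem_gd hi ha (hf 0))
        (fun i : Fin c => f i.succ) j' w (fun i => hf _) hw hfw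
      rwa [show i₀ + 1 + c + 1 = i₀ + (c + 1) + 1 by ring] at h1

end FacModAux

theorem facMod : FacModProp.{u} := by
  intro k _ L _ _ D c d i w hd hw hdw
  unfold fac
  refine Fin.cases ?_ (fun j' => ?_) i (motive := fun i => d i - w ∈ gd k D 2 →
      wd (d 0) (List.ofFn fun i : Fin c => d i.succ) -
        wd (Function.update d i w 0)
          (List.ofFn fun l : Fin c => Function.update d i w l.succ) ∈
        gd k D (c + 2)) hdw
  · intro hdw
    have e1 : (fun i : Fin c => Function.update d 0 w i.succ) = fun i : Fin c => d i.succ := by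
      funext i
      rw [Function.update_of_ne (Fin.succ_ne_zero i)]
    rw [e1, Function.update_self, ← wd_sub]
    have h1 := wd_mem_gd_all (D := D) (i := 2) (by omega)
      hdw (List.ofFn fun i : Fin c => d i.succ) (by
        intro z hz
        obtain ⟨i, rfl⟩ := List.mem_ofFn.mp hz
        exact hd _)
    rw [List.length_ofFn, add_comm] at h1
    exact h1
  · intro hdw
    have e1 : (fun i : Fin c => Function.update d j'.succ w i.succ) =
        Function.update (fun i : Fin c => d i.succ) j' w := by
      funext i
      by_cases h : i = j'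
      · rw [h, Function.update_self, Function.update_self]
      · rw [Function.update_of_ne h,
          Function.update_of_ne (fun h' => h (Fin.succ_injective _ h'))]
    rw [e1, Function.update_of_ne (Fin.succ_ne_zero j').symm]
    have h1 := FacModAux.wd_update (D := D) c 1 le_rfl (d 0) (hd 0)
      (fun i : Fin c => d i.succ) j' w (fun i => hd _) hw hdw
    rwa [show 1 + c + 1 = c + 2 by ring] at h1

end Pool.Agent.Lib.MP_240c17_al.Sol
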