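import Pool.Agent.Lib.MP_240c17_al.Sol.Spec
import Pool.Agent.Lib.MP_240c17_al.Two.LieGen

/-!
An ideal containing `gd 2` and a power of every generator has finite codimension.
-/

set_option autoImplicit false

namespace Pool.Agent.Lib.MP_240c17_al.Sol

universe u

open Pool.Agent.Lib.MP_240c17_al Pool.Agent.Lib.MP_240c17_al.Two Pool.Agent.Lib.MP_240c17_al.Tor

/-- The generators span a complement. -/
theorem FcStep_fcD {k : Type u} [Field k] {F : Type u} [LieRing F] [LieAlgebra k F] {n : ℕ}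
    {y : Fin n → F} {D : LieIdeal k F}
    (h : Submodule.span k (Set.range y) ⊔ D.toSubmodule = ⊤) : FC D.toSubmodule ⊤ := by
  classical
  refine ⟨Finset.univ.image y, ?_⟩
  rw [Finset.coe_image, Finset.coe_univ, Set.image_univ, sup_comm, h]

/-- A commutator of two generators. -/
theorem FcStep_comm {k : Type u} [Field k] {F : Type u} [LieRing F] [LieAlgebra k F] {n : ℕ}
    {y : Fin n → F} {D : LieIdeal k F} {Y : Submodule k F}
    (h : Submodule.span k (Set.range y) ⊔ D.toSubmodule = ⊤) {w : F}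
    (hw : ∀ d ∈ D, ⁅w, d⁆ ∈ Y) (z : F) :
    ⁅w, z⁆ ∈ Submodule.span k (Set.range fun l => ⁅w, y l⁆) ⊔ Y := by
  have hz : z ∈ Submodule.span k (Set.range y) ⊔ D.toSubmodule := by
    rw [h]
    exact Submodule.mem_top
  obtain ⟨v, hv, d, hd, rfl⟩ := Submodule.mem_sup.mp hz
  rw [lie_add]
  refine Submodule.add_mem_sup ?_ (hw d hd)
  have h1 : Submodule.span k (Set.range y) ≤
      (Submodule.span k (Set.range fun l => ⁅w, y l⁆)).comap
        (LieAlgebra.ad k F w : F →ₗ[k] F) := by
    rw [Submodule.span_le]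
    rintro _ ⟨l, rfl⟩
    exact Submodule.subset_span ⟨l, rfl⟩
  exact h1 hv

theorem fcStep (h1 : PbwProp.{u}) : FcStepProp.{u} := by
  classical
  intro k _ F _ _ n y D E M hy hD hDE hM
  have hfc : FC D.toSubmodule ⊤ := FcStep_fcD hD
  obtain ⟨S, hS⟩ := cofFg k F n y hy D hfc
  have hgen := idealGen k F n y hy (S : Set F)
  rw [hS] at hgen
  let ψ : Empty → Module.End k F := fun i => i.elim
  have hsplit : ∀ w ∈ D.toSubmodule ⊔ E.toSubmodule, ∀ d ∈ D, ⁅w, d⁆ ∈ E.toSubmodule := by
    intro w hw d hd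
    obtain ⟨w1, hw1, w2, hw2, rfl⟩ := Submodule.mem_sup.mp hw
    rw [add_lie]
    refine E.toSubmodule.add_mem ?_ (lie_mem_right (I := E) hw2 d)
    exact hDE (lie_mem_gd (D := D) (i := 1) le_rfl hw1 hd)
  have hgen2 : gen (Sum.elim (fun i => adr k (y i)) ψ) (S : Set F) = D.toSubmodule := by
    rw [hgen]
    apply le_antisymm
    · exact gen_le (stab_elim.mpr ⟨gen_stab _ _, fun i => i.elim⟩) (subset_gen _ _)
    · exact gen_le (stab_elim.mp (gen_stab _ _)).1 (subset_gen _ _)
  obtain ⟨S', hS'⟩ := h1 k F n M 1 Empty (fun i => adr k (y i)) ψ (fun _ => 0)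
    E.toSubmodule (D.toSubmodule ⊔ E.toSubmodule) (by
      intro i w hw
      exact lie_mem_right (I := E) hw (y i)) (fun i => i.elim) (by
      intro i j w hw
      have h3 := FcStep_comm (Y := E.toSubmodule) hD (hsplit w hw) ⁅y j, y i⁆
      rw [lie_lie_right] at h3
      exact h3) (fun i => i.elim) (fun i => Subalgebra.zero_mem _) one_pos (by
      intro i w hw
      rw [LinearMap.zero_apply, sub_zero]
      show pw k (y i) (M + 1) w ∈ E
      rw [pw_succ]
      refine lie_mem_right (I := E) ?_ (y i)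
      obtain ⟨w1, hw1, w2, hw2, rfl⟩ := Submodule.mem_sup.mp hw
      rw [map_add]
      exact E.add_mem (hM i w1 hw1) (pw_mem hw2 _ _)) ⟨S, by rw [hgen2]⟩
  have h5 : gen ψ (S' : Set F) ≤ Submodule.span k (S' : Set F) :=
    gen_le (fun i => i.elim) Submodule.subset_span
  have h6 : FC E.toSubmodule (D.toSubmodule ⊔ E.toSubmodule) := by
    refine ⟨S', ?_⟩
    rw [← hS', sup_comm]
    exact sup_le_sup_left h5 _
  exact h6.trans (hfc.mono le_sup_left le_rfl)

end Pool.Agent.Lib.MP_240c17_al.Sol
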