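import Pool.Agent.Lib.MP_240c17_al.Sol.Spec
import Pool.Agent.Lib.MP_240c17_al.Two.RelFree
import Pool.Agent.Lib.MP_240c17_al.Tor.AlgFin

/-!
Solvable relatively finitely presented algebras are residually finite dimensional.
-/

set_option autoImplicit false

namespace Pool.Agent.Lib.MP_240c17_al.Sol

universe u

open Pool.Agent.Lib.MP_240c17_al Pool.Agent.Lib.MP_240c17_al.Two Pool.Agent.Lib.MP_240c17_al.Tor

variable {k : Type u} [Field k]

/-- Images of the free generators generate. -/
theorem final_gen_of {n : ℕ} {L : Type u} [LieRing L] [LieAlgebra k L]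
    (π : FreeLieAlgebra k (Fin n) →ₗ⁅k⁆ L) (hπ : Function.Surjective π) :
    LieSubalgebra.lieSpan k L (Set.range fun i => π (FreeLieAlgebra.of k i)) = ⊤ := by
  rw [eq_top_iff]
  intro q _
  obtain ⟨w, rfl⟩ := hπ q
  have h1 : π w = FreeLieAlgebra.lift k (fun i => π (FreeLieAlgebra.of k i)) w := by
    have : π = FreeLieAlgebra.lift k (fun i => π (FreeLieAlgebra.of k i)) := by
      apply FreeLieAlgebra.hom_ext
      intro i
      simp
    rw [← this]
  rw [h1]
  refine lift_mem (LieSubalgebra.lieSpan k L (Set.range fun i => π (FreeLieAlgebra.of k i))) _ ?_ w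
  intro i
  exact LieSubalgebra.subset_lieSpan (Set.mem_range_self i)

/-- Relatively finitely presented algebras belong to the variety. -/
theorem final_inVariety {Id : Set (FreeLieAlgebra k ℕ)} {n : ℕ} {L : Type u} [LieRing L]
    [LieAlgebra k L] (π : FreeLieAlgebra k (Fin n) →ₗ⁅k⁆ L) (hπ : Function.Surjective π)
    (h : verbalIdeal Id n ≤ π.ker) : InVariety Id L := by
  obtain ⟨g, hg⟩ := relFree_factor (verbalIdeal Id n) π h
  refine relFree_inVariety_of_surjective g ?_ (relFree_mem Id n)
  intro x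
  obtain ⟨w, rfl⟩ := hπ x
  exact ⟨qMk _ w, hg w⟩

theorem sol_final (hSuff : SuffProp.{u}) (hStruct : StructProp.{u}) [Infinite k] (p : ℕ)
    [Fact p.Prime] [Algebra (ZMod p) k] (Id : Set (FreeLieAlgebra k ℕ)) (m : ℕ) (co : ℕ → k)
    (hne : ∃ i ≤ m, co i ≠ 0) (halg : ∀ i ≤ m, IsAlgebraic (ZMod p) (co i))
    (hI : ∀ (L : Type u) [LieRing L] [LieAlgebra k L], InVariety Id L → ∀ a b y : L,
      ∑ i ∈ Finset.range (m + 1),
        co i • ⁅(fun l => ⁅l, y⁆)^[i] a, (fun l => ⁅l, y⁆)^[m - i] b⁆ = 0)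
    (L : Type u) [LieRing L] [LieAlgebra k L] (hL : RelFinitelyPresented Id L)
    (hsol : LieAlgebra.IsSolvable L) : ResiduallyFiniteDimensional k L := by
  haveI : CharP k p := charP_of_injective_algebraMap (algebraMap (ZMod p) k).injective p
  obtain ⟨r, hr, hco⟩ := algFin k p m co halg
  have hI' : ∀ (L' : Type u) [LieRing L'] [LieAlgebra k L'], InVariety Id L' →
      IdI k L' m co := by
    intro L' _ _ hL' a b y
    have h := hI L' hL' a b y
    simp only [← pw_iterate (k := k)] at h
    exact h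
  obtain ⟨n, π, S, hπ, hker⟩ := id hL
  have hV : InVariety Id L := final_inVariety π hπ (by rw [hker]; exact le_sup_left)
  exact hSuff k p Id L m r co hL hr hco hne hI' (hStruct k p L n
    (fun i => π (FreeLieAlgebra.of k i)) m r co (final_gen_of π hπ) hr hco hne (hI' L hV) hsol)

end Pool.Agent.Lib.MP_240c17_al.Sol
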