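import Pool.Agent.Lib.MP_240c17_al.Sol.Spec
import Pool.Agent.Lib.MP_240c17_al.Two.Hilbert
import Pool.Agent.Lib.MP_240c17_al.Two.Mod
import Pool.Agent.Lib.MP_240c17_al.Two.LieGen

/-!
(B4) The ideal `G` is a noetherian module over the commuting operators `T`.
-/

set_option autoImplicit false

namespace Pool.Agent.Lib.MP_240c17_al.Sol

universe u

open Pool.Agent.Lib.MP_240c17_al Pool.Agent.Lib.MP_240c17_al.Two Pool.Agent.Lib.MP_240c17_al.Tor

section

variable {k : Type u} [Field k] {F : Type u} [LieRing F] [LieAlgebra k F]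

private theorem gfg_brn_gd (G D : LieIdeal k F) (j : ℕ) : brn k G D j ≤ gd k D j := by
  rcases j with _ | j
  · exact le_top
  induction j with
  | zero => exact LieSubmodule.lie_le_right _ _
  | succ j ih => exact LieSubmodule.mono_lie ih le_rfl

private theorem gfg_stab {G D : LieIdeal k F} {T : Module.End k F} (h1 : ∀ a ∈ G, T a ∈ G)
    (h2 : ∀ a ∈ G, ∀ z : F, T ⁅a, z⁆ = ⁅T a, z⁆) (j : ℕ) : ∀ a ∈ brn k G D j, T a ∈ brn k G D j := by
  induction j with
  | zero => exact h1
  | succ j ih =>
    have h : (⁅brn k G D j, D⁆ : LieIdeal k F).toSubmodule ≤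
        (brn k G D (j + 1)).toSubmodule.comap T := by
      apply br_le
      intro a ha b hb
      show T ⁅a, b⁆ ∈ brn k G D (j + 1)
      rw [h2 a (brn_le G D j ha) b]
      exact LieSubmodule.lie_mem_lie (ih a ha) hb
    exact fun a ha => h ha

private theorem gfg_T_pw {G : LieIdeal k F} {T : Module.End k F}
    (h2 : ∀ a ∈ G, ∀ z : F, T ⁅a, z⁆ = ⁅T a, z⁆) (y : F) (e : ℕ) :
    ∀ a ∈ G, T (pw k y e a) = pw k y e (T a) := by
  induction e with
  | zero => intro a _; simp
  | succ e ih =>
    intro a ha
    rw [pw_succ, pw_succ, h2 _ (pw_mem ha y e), ih a ha]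

/-- Step (i). -/
private theorem gfg_pbw (h1 : PbwProp.{u}) {n : ℕ} {y : Fin n → F} {D G : LieIdeal k F}
    {P N : ℕ} {T : Fin n → Module.End k F}
    (hspan : Submodule.span k (Set.range y) ⊔ D.toSubmodule = ⊤) (hN : 0 < N)
    (hT : ∀ i, ∀ a ∈ G, T i a ∈ G) (hTl : ∀ i, ∀ a ∈ G, ∀ z : F, T i ⁅a, z⁆ = ⁅T i a, z⁆)
    (hTp : ∀ i, ∀ a ∈ G, pw k (y i) P (T i a) = pw k (y i) (P + N) a) (j : ℕ)
    (h : ∃ S : Finset F, gen (Sum.elim (fun i => adr k (y i)) T) (S : Set F) ⊔
      (brn k G D (j + 1)).toSubmodule = (brn k G D j).toSubmodule) :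
    ∃ S : Finset F, gen T (S : Set F) ⊔
      (brn k G D (j + 1)).toSubmodule = (brn k G D j).toSubmodule := by
  refine h1 k F n P N (Fin n) (fun i => adr k (y i)) T T (brn k G D (j + 1)).toSubmodule
    (brn k G D j).toSubmodule ?_ ?_ ?_ ?_ ?_ hN ?_ h
  · exact fun i a ha => lie_mem_right (I := brn k G D (j + 1)) ha (y i)
  · exact fun i a ha => gfg_stab (hT i) (hTl i) (j + 1) a ha
  · intro i l w hw
    have h2 : (adr k (y i)) ((adr k (y l)) w) - (adr k (y l)) ((adr k (y i)) w) =
        ⁅w, ⁅y l, y i⁆⁆ := by
      rw [lie_lie_right w (y l) (y i)]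
      rfl
    show (adr k (y i)) ((adr k (y l)) w) - (adr k (y l)) ((adr k (y i)) w) ∈ _
    rw [h2]
    obtain ⟨a, ha, d, hd, had⟩ := Submodule.mem_sup.mp
      (hspan.symm ▸ Submodule.mem_top : ⁅y l, y i⁆ ∈ Submodule.span k (Set.range y) ⊔ D.toSubmodule)
    rw [← had, lie_add]
    refine Submodule.add_mem_sup ?_ ?_
    · have h3 : Submodule.span k (Set.range y) ≤
          (Submodule.span k (Set.range fun l => (adr k (y l)) w)).comap
            (LieAlgebra.ad k F w : F →ₗ[k] F) := by
        rw [Submodule.span_le]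
        rintro _ ⟨t, rfl⟩
        show ⁅w, y t⁆ ∈ Submodule.span k (Set.range fun l => (adr k (y l)) w)
        exact Submodule.subset_span ⟨t, rfl⟩
      exact h3 ha
    · exact LieSubmodule.lie_mem_lie hw hd
  · intro i l w hw
    show T i ⁅w, y l⁆ - ⁅T i w, y l⁆ ∈ _
    rw [hTl i w (brn_le G D j hw), sub_self]
    exact Submodule.zero_mem _
  · exact fun i => Algebra.subset_adjoin ⟨i, rfl⟩
  · intro i w hw
    have hw' : w ∈ G := brn_le G D j hw
    show pw k (y i) (P + N) w - T i (pw k (y i) P w) ∈ _
    rw [gfg_T_pw (hTl i) (y i) P w hw', hTp i w hw', sub_self]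
    exact Submodule.zero_mem _

end

theorem gfg (h1 : PbwProp.{u}) : GfgProp.{u} := by
  classical
  intro k _ F _ _ n y D G c P N T hy hspan hgd hG hN hT hTl hTc hTp U hU hUG
  have hDfc : FC D.toSubmodule ⊤ := by
    refine ⟨Finset.univ.image y, ?_⟩
    rw [Finset.coe_image, Finset.coe_univ, Set.image_univ, sup_comm, hspan]
  obtain ⟨SG, hSG⟩ := cofFg k F n y hy G hG
  obtain ⟨SD, hSD⟩ := cofFg k F n y hy D hDfc
  have hDgen : gen (fun i => adr k (y i)) (SD : Set F) = D.toSubmodule := by
    rw [← idealGen k F n y hy, hSD]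
  have hSDD : ∀ d ∈ SD, d ∈ D := by
    intro d hd
    have h : d ∈ D.toSubmodule := by
      rw [← hDgen]
      exact subset_gen _ _ hd
    exact h
  -- the layers
  have hlay : ∀ j, ∃ S : Finset F, gen T (S : Set F) ⊔
      (brn k G D (j + 1)).toSubmodule = (brn k G D j).toSubmodule := by
    intro j
    induction j with
    | zero =>
      apply gfg_pbw h1 hspan hN hT hTl hTp 0
      refine ⟨SG, le_antisymm ?_ ?_⟩
      · refine sup_le (gen_le ?_ ?_) (LieSubmodule.lie_le_left _ _)
        · rintro (i | i) w hw
          · exact lie_mem_right (I := G) hw _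
          · exact hT i w hw
        · intro s hs
          show s ∈ G
          rw [← hSG]
          exact LieSubmodule.subset_lieSpan hs
      · have h2 : (brn k G D 0).toSubmodule = gen (fun i => adr k (y i)) (SG : Set F) := by
          rw [← idealGen k F n y hy, hSG]
          rfl
        rw [h2]
        refine le_sup_of_le_left ?_
        exact gen_le (stab_elim.mp (gen_stab (Sum.elim (fun i => adr k (y i)) T)
          (SG : Set F))).1 (subset_gen _ _)
    | succ j ih =>
      apply gfg_pbw h1 hspan hN hT hTl hTp (j + 1)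
      obtain ⟨S, hS⟩ := ih
      have hSK : ∀ s ∈ S, s ∈ brn k G D j := by
        intro s hs
        have h : s ∈ (brn k G D j).toSubmodule := by
          rw [← hS]
          exact (le_sup_left : gen T (S : Set F) ≤ _) (subset_gen _ _ hs)
        exact h
      let S' : Finset F := Finset.image₂ (fun s w => ⁅s, w⁆) S SD
      refine ⟨S', le_antisymm ?_ ?_⟩
      · refine sup_le (gen_le ?_ ?_) (LieSubmodule.lie_le_left _ _)
        · rintro (i | i) w hw
          · exact lie_mem_right (I := brn k G D (j + 1)) hw _
          · exact gfg_stab (hT i) (hTl i) (j + 1) w hw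
        · intro x hx
          obtain ⟨s, hs, w, hw, rfl⟩ := Finset.mem_image₂.mp (Finset.mem_coe.mp hx)
          exact LieSubmodule.lie_mem_lie (hSK s hs) (hSDD w hw)
      · obtain ⟨U', hU'⟩ : ∃ U' : Submodule k F, U' = gen (Sum.elim (fun i => adr k (y i)) T)
          (S' : Set F) ⊔ (brn k G D (j + 1 + 1)).toSubmodule := ⟨_, rfl⟩
        rw [← hU']
        have hstab : Stab (Sum.elim (fun i => adr k (y i)) T) U' := by
          rw [hU']
          refine (gen_stab _ _).sup ?_
          rintro (i | i) w hw
          · exact lie_mem_right (I := brn k G D (j + 1 + 1)) hw _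
          · exact gfg_stab (hT i) (hTl i) (j + 1 + 1) w hw
        have hUs : ∀ i, ∀ w ∈ U', ⁅w, y i⁆ ∈ U' := fun i w hw => hstab (Sum.inl i) w hw
        have hUT : ∀ i, ∀ w ∈ U', T i w ∈ U' := fun i w hw => hstab (Sum.inr i) w hw
        have hKU : (brn k G D (j + 1 + 1)).toSubmodule ≤ U' := by rw [hU']; exact le_sup_right
        let C : Submodule k F :=
          { carrier := {d | d ∈ D ∧ ∀ h ∈ brn k G D j, ⁅h, d⁆ ∈ U'}
            add_mem' := by
              intro a b ha hb
              refine ⟨D.add_mem ha.1 hb.1, ?_⟩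
              intro h hh
              rw [lie_add]
              exact U'.add_mem (ha.2 h hh) (hb.2 h hh)
            zero_mem' := by
              refine ⟨D.zero_mem, ?_⟩
              intro h _
              rw [lie_zero]
              exact U'.zero_mem
            smul_mem' := by
              intro t a ha
              refine ⟨D.smul_mem t ha.1, ?_⟩
              intro h hh
              rw [lie_smul]
              exact U'.smul_mem t (ha.2 h hh) }
        have hC : D.toSubmodule ≤ C := by
          rw [← hDgen]
          refine gen_le ?_ ?_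
          · intro i d hd
            refine ⟨lie_mem_right hd.1 (y i), ?_⟩
            intro h hh
            show ⁅h, ⁅d, y i⁆⁆ ∈ U'
            rw [lie_lie_right h d (y i)]
            exact U'.sub_mem (hUs i _ (hd.2 h hh)) (hd.2 _ (lie_mem_right hh (y i)))
          · intro d hd
            refine ⟨hSDD d hd, ?_⟩
            let B : Submodule k F :=
              { carrier := {h | h ∈ brn k G D j ∧ ⁅h, d⁆ ∈ U'}
                add_mem' := by
                  intro a b ha hb
                  refine ⟨(brn k G D j).add_mem ha.1 hb.1, ?_⟩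
                  rw [add_lie]
                  exact U'.add_mem ha.2 hb.2
                zero_mem' := by
                  refine ⟨(brn k G D j).zero_mem, ?_⟩
                  rw [zero_lie]
                  exact U'.zero_mem
                smul_mem' := by
                  intro t a ha
                  refine ⟨(brn k G D j).smul_mem t ha.1, ?_⟩
                  rw [smul_lie]
                  exact U'.smul_mem t ha.2 }
            have hB : (brn k G D j).toSubmodule ≤ B := by
              rw [← hS]
              refine sup_le (gen_le ?_ ?_) ?_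
              · intro i h hh
                refine ⟨gfg_stab (hT i) (hTl i) j h hh.1, ?_⟩
                rw [← hTl i h (brn_le G D j hh.1) d]
                exact hUT i _ hh.2
              · intro s hs
                refine ⟨hSK s hs, ?_⟩
                rw [hU']
                refine (le_sup_left : gen (Sum.elim (fun i => adr k (y i)) T) (S' : Set F) ≤ _)
                  (subset_gen _ _ ?_)
                exact Finset.mem_coe.mpr (Finset.mem_image₂.mpr ⟨s, hs, d, hd, rfl⟩)
              · intro h hh
                refine ⟨(LieSubmodule.lie_le_left (brn k G D j) D) hh, ?_⟩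
                exact hKU (LieSubmodule.lie_mem_lie hh (hSDD d hd))
            exact fun h hh => (hB hh).2
        exact br_le (fun a ha b hb => (hC hb).2 a ha)
  have hfin : ∀ j, ∃ S : Finset F, gen T (S : Set F) ⊔
      (brn k G D j).toSubmodule = G.toSubmodule := by
    intro j
    induction j with
    | zero =>
      refine ⟨∅, ?_⟩
      have h1 : gen T ((∅ : Finset F) : Set F) ≤ G.toSubmodule :=
        gen_le (fun i w hw => hT i w hw) (by simp)
      exact sup_eq_right.mpr h1
    | succ j ih =>
      obtain ⟨S, hS⟩ := ih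
      obtain ⟨S', hS'⟩ := hlay j
      refine ⟨S ∪ S', ?_⟩
      rw [Finset.coe_union, gen_union, sup_assoc, hS', hS]
  obtain ⟨S, hS⟩ := hfin (c + 1)
  have hbot : brn k G D (c + 1) = ⊥ := by
    rw [eq_bot_iff, ← hgd]
    exact gfg_brn_gd G D (c + 1)
  rw [hbot] at hS
  obtain ⟨S2, hS2⟩ := hilbert mod_ k F (Fin n) T ⊥ G.toSubmodule U (stab_bot T)
    (by
      intro i j w hw
      rw [hTc i j w hw, sub_self]
      exact Submodule.zero_mem _) ⟨S, hS⟩ hU bot_le hUG
  refine ⟨S2, ?_⟩
  rw [sup_bot_eq] at hS2
  exact hS2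

end Pool.Agent.Lib.MP_240c17_al.Sol
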