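import Pool.Agent.Lib.MP_240c17_al.Sol.Spec
import Pool.Agent.Lib.MP_240c17_al.Two.LieGen

/-!
Multilinear reduction to monomials.
-/

set_option autoImplicit false

namespace Pool.Agent.Lib.MP_240c17_al.Sol

universe u

open Pool.Agent.Lib.MP_240c17_al Pool.Agent.Lib.MP_240c17_al.Two Pool.Agent.Lib.MP_240c17_al.Tor

section

variable {k : Type u} [Field k] {L : Type u} [LieRing L] [LieAlgebra k L]

private theorem key_fac_succ {c : ℕ} (d : Fin (c + 2) → L) :
    fac d = ⁅fac (fun i : Fin (c + 1) => d i.castSucc), d (Fin.last (c + 1))⁆ := by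
  unfold fac
  rw [List.ofFn_succ', List.concat_eq_append, wd_concat]
  rfl

/-- `gd (c + 1)` is spanned by the products -/
private theorem key_gd (D : LieIdeal k L) (c : ℕ) : (gd k D (c + 1)).toSubmodule ≤
    Submodule.span k {w | ∃ d : Fin (c + 1) → L, (∀ i, d i ∈ D) ∧ w = fac d} := by
  induction c with
  | zero =>
    intro a ha
    exact Submodule.subset_span ⟨fun _ => a, fun _ => ha, rfl⟩
  | succ c ih =>
    apply gd_succ_le (by omega)
    intro a ha b hb
    have h1 : Submodule.span k {w | ∃ d : Fin (c + 1) → L, (∀ i, d i ∈ D) ∧ w = fac d} ≤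
        (Submodule.span k {w | ∃ d : Fin (c + 1 + 1) → L, (∀ i, d i ∈ D) ∧ w = fac d}).comap
          (adr k b) := by
      rw [Submodule.span_le]
      rintro _ ⟨d, hd, rfl⟩
      refine Submodule.subset_span ⟨Fin.snoc d b, ?_, ?_⟩
      · intro i
        refine Fin.lastCases ?_ (fun i => ?_) i
        · rw [Fin.snoc_last]
          exact hb
        · rw [Fin.snoc_castSucc]
          exact hd i
      · rw [key_fac_succ]
        simp only [Fin.snoc_castSucc, Fin.snoc_last]
        rfl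
    exact h1 (ih ha)

/-- expansion of the entries, modulo `gd (c + 2)` -/
private theorem key_exp (D : LieIdeal k L) (c : ℕ) (A : Fin (c + 1) → Set L)
    (hA : ∀ i, ∀ a ∈ A i, a ∈ D) (d : Fin (c + 1) → L)
    (hd : ∀ i, d i ∈ Submodule.span k (A i) ⊔ (gd k D 2).toSubmodule) :
    fac d ∈ Submodule.span k {w | ∃ d' : Fin (c + 1) → L, (∀ i, d' i ∈ A i) ∧ w = fac d'} ⊔
      (gd k D (c + 2)).toSubmodule := by
  induction c with
  | zero =>
    have h1 : Submodule.span k (A 0) ⊔ (gd k D 2).toSubmodule ≤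
        Submodule.span k {w | ∃ d' : Fin (0 + 1) → L, (∀ i, d' i ∈ A i) ∧ w = fac d'} ⊔
          (gd k D (0 + 2)).toSubmodule := by
      refine sup_le_sup_right (Submodule.span_mono ?_) _
      intro a ha
      refine ⟨fun _ => a, fun i => ?_, rfl⟩
      have hi : i = 0 := Fin.fin_one_eq_zero i
      rw [hi]
      exact ha
    exact h1 (hd 0)
  | succ c ih =>
    rw [key_fac_succ]
    have h1 := ih (fun i => A i.castSucc) (fun i => hA _) (fun i => d i.castSucc) (fun i => hd _)
    have hAD : ∀ i, Submodule.span k (A i) ⊔ (gd k D 2).toSubmodule ≤ D.toSubmodule := by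
      intro i
      refine sup_le ?_ (gd_le_D D (by omega))
      rw [Submodule.span_le]
      exact hA i
    obtain ⟨a₁, ha₁, a₂, ha₂, ha⟩ := Submodule.mem_sup.mp h1
    obtain ⟨b₁, hb₁, b₂, hb₂, hb⟩ := Submodule.mem_sup.mp (hd (Fin.last (c + 1)))
    have hb₁D : b₁ ∈ D := hAD _ (Submodule.mem_sup_left hb₁)
    have hbD : d (Fin.last (c + 1)) ∈ D := hAD _ (hd _)
    have ha₁D : a₁ ∈ gd k D (c + 1) := by
      have h2 : Submodule.span k {w | ∃ d' : Fin (c + 1) → L,
          (∀ i, d' i ∈ A i.castSucc) ∧ w = fac d'} ≤ (gd k D (c + 1)).toSubmodule := by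
        rw [Submodule.span_le]
        rintro _ ⟨d', hd', rfl⟩
        exact fac_mem d' fun i => hA _ _ (hd' i)
      exact h2 ha₁
    have h2 : ⁅fac (fun i : Fin (c + 1) => d i.castSucc), d (Fin.last (c + 1))⁆ =
        ⁅a₁, b₁⁆ + (⁅a₁, b₂⁆ + ⁅a₂, d (Fin.last (c + 1))⁆) := by
      rw [← ha, add_lie, ← hb, lie_add, add_assoc]
    rw [h2]
    refine Submodule.add_mem_sup ?_ ?_
    · -- the bracket of the two spans
      have h3 : ∀ a ∈ Submodule.span k {w | ∃ d' : Fin (c + 1) → L,
          (∀ i, d' i ∈ A i.castSucc) ∧ w = fac d'}, ∀ b ∈ A (Fin.last (c + 1)),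
          ⁅a, b⁆ ∈ Submodule.span k {w | ∃ d' : Fin (c + 1 + 1) → L,
            (∀ i, d' i ∈ A i) ∧ w = fac d'} := by
        intro a ha b hb
        have h4 : Submodule.span k {w | ∃ d' : Fin (c + 1) → L,
            (∀ i, d' i ∈ A i.castSucc) ∧ w = fac d'} ≤ (Submodule.span k {w |
              ∃ d' : Fin (c + 1 + 1) → L, (∀ i, d' i ∈ A i) ∧ w = fac d'}).comap (adr k b) := by
          rw [Submodule.span_le]
          rintro _ ⟨d', hd', rfl⟩
          refine Submodule.subset_span ⟨Fin.snoc (α := fun _ => L) d' b, ?_, ?_⟩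
          · intro i
            refine Fin.lastCases ?_ (fun i => ?_) i
            · rw [Fin.snoc_last]
              exact hb
            · rw [Fin.snoc_castSucc]
              exact hd' i
          · rw [key_fac_succ]
            simp only [Fin.snoc_castSucc, Fin.snoc_last]
            rfl
        exact h4 ha
      have h4 : Submodule.span k (A (Fin.last (c + 1))) ≤ (Submodule.span k {w |
          ∃ d' : Fin (c + 1 + 1) → L, (∀ i, d' i ∈ A i) ∧ w = fac d'}).comap
          (LieAlgebra.ad k L a₁ : L →ₗ[k] L) := by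
        rw [Submodule.span_le]
        intro b hb
        exact h3 a₁ ha₁ b hb
      exact h4 hb₁
    · refine add_mem ?_ ?_
      · exact lie_mem_gd_gd (by omega) (by omega) ha₁D hb₂
      · exact lie_mem_gd (by omega) ha₂ hbD

/-- multilinearity -/
private theorem key_ml {M M' Γ : LieIdeal k L} (hM : ∀ a ∈ M, ∀ g ∈ Γ, ⁅a, g⁆ ∈ M') (B : Set L)
    (N : ℕ) (A : Set L) (hAM : ∀ a ∈ A, a ∈ M)
    (h : ∀ a ∈ A, ∀ zs : List L, zs.length = N → (∀ z ∈ zs, z ∈ B) → wd a zs ∈ M') :
    ∀ a ∈ A, ∀ zs : List L, zs.length = N →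
      (∀ z ∈ zs, z ∈ Submodule.span k B ⊔ Γ.toSubmodule) → wd a zs ∈ M' := by
  induction N generalizing A with
  | zero =>
    intro a ha zs hz _
    rw [List.length_eq_zero_iff] at hz
    subst hz
    exact h a ha [] rfl (by simp)
  | succ N ih =>
    intro a ha zs hz hzs
    obtain ⟨z, zs, rfl⟩ := List.exists_cons_of_length_eq_add_one hz
    rw [wd_cons]
    have hzl : zs.length = N := by simpa using hz
    have h1 := ih {w | ∃ a ∈ A, ∃ b ∈ B, w = ⁅a, b⁆} (by
      rintro _ ⟨a, ha, b, -, rfl⟩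
      exact lie_mem_right (hAM a ha) b) (by
      rintro _ ⟨a, ha, b, hb, rfl⟩ zs hz hzs
      have h2 := h a ha (b :: zs) (by simp [hz]) (by
        intro z hz
        rw [List.mem_cons] at hz
        rcases hz with rfl | hz
        · exact hb
        · exact hzs z hz)
      exact h2)
    have h2 : Submodule.span k B ⊔ Γ.toSubmodule ≤ M'.toSubmodule.comap
        (wdL k zs ∘ₗ (LieAlgebra.ad k L a : L →ₗ[k] L)) := by
      refine sup_le ?_ ?_
      · rw [Submodule.span_le]
        intro b hb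
        exact h1 ⁅a, b⁆ ⟨a, ha, b, hb, rfl⟩ zs hzl
          (fun w hw => hzs w (List.mem_cons_of_mem _ hw))
      · intro g hg
        exact wd_mem (hM a (hAM a ha) g hg) zs
    exact h2 (hzs z List.mem_cons_self)

end

/-- (E9) -/
theorem key (h1 : KeyMonoProp.{u}) (h2 : MonoSpanProp.{u}) : KeyProp.{u} := by
  classical
  intro k _ _ L _ _ n x D M M' c m i₀ P Q E co hx hxD hi₀ hco hco' hId hM hE hQ hP hPQ hEng hB
  -- generators of `D`
  have hFC : FC D.toSubmodule ⊤ := by
    refine ⟨Finset.univ.image x, ?_⟩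
    rw [Finset.coe_image, Finset.coe_univ, Set.image_univ, sup_comm, hxD]
  obtain ⟨S, hS⟩ := cofFg k L n x hx D hFC
  have hSD : ∀ a ∈ S, a ∈ D := by
    intro a ha
    rw [← hS]
    exact LieSubmodule.subset_lieSpan ha
  obtain ⟨T, hT⟩ := h1 k L n x D M M' S c m i₀ P Q E co hSD hi₀ hco hco' hId hM hE hQ hP hPQ
    hEng hB
  refine ⟨T, ?_⟩
  intro d zs hd hsp hzl hzs
  obtain ⟨i₁, y, a', ha', hdi⟩ := hsp
  let 𝔐 : Set L := {w | ∃ a ∈ S, ∃ e : Fin n → ℕ, w = mono x a e}
  have h𝔐 : ∀ w ∈ 𝔐, w ∈ D := by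
    rintro _ ⟨a, ha, e, rfl⟩
    exact wd_mem (hSD a ha) _
  have hD𝔐 : D.toSubmodule ≤ Submodule.span k 𝔐 ⊔ (gd k D 2).toSubmodule :=
    h2 k L n x D S hx hxD hS
  -- the products of monomials
  let B : Set L := {w | ∃ d' : Fin (c + 1) → L, (∀ i, d' i ∈ 𝔐) ∧ w = fac d'}
  have hgdB : (gd k D (c + 1)).toSubmodule ≤
      Submodule.span k B ⊔ (gd k D (c + 2)).toSubmodule := by
    refine (key_gd D c).trans ?_
    rw [Submodule.span_le]
    rintro _ ⟨d, hd, rfl⟩
    exact key_exp D c (fun _ => 𝔐) (fun _ => h𝔐) d (fun i => hD𝔐 (hd i))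
  -- the first factor
  let A : Fin (c + 1) → Set L := fun i => if i = i₁ then pw k y E '' 𝔐 else 𝔐
  have hA : ∀ i, ∀ a ∈ A i, a ∈ D := by
    intro i a ha
    by_cases hi : i = i₁
    · simp only [A, if_pos hi] at ha
      obtain ⟨b, hb, rfl⟩ := ha
      exact pw_mem (h𝔐 b hb) y E
    · simp only [A, if_neg hi] at ha
      exact h𝔐 a ha
  have hdA : ∀ i, d i ∈ Submodule.span k (A i) ⊔ (gd k D 2).toSubmodule := by
    intro i
    by_cases hi : i = i₁
    · have h3 : A i = pw k y E '' 𝔐 := if_pos hi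
      rw [h3, hi, hdi]
      have h4 : Submodule.span k 𝔐 ⊔ (gd k D 2).toSubmodule ≤
          (Submodule.span k (pw k y E '' 𝔐) ⊔ (gd k D 2).toSubmodule).comap (pw k y E) := by
        refine sup_le ?_ ?_
        · rw [Submodule.span_le]
          intro b hb
          exact Submodule.mem_sup_left (Submodule.subset_span ⟨b, hb, rfl⟩)
        · intro b hb
          exact Submodule.mem_sup_right (pw_mem (I := gd k D 2) hb y E)
      exact h4 (hD𝔐 ha')
    · have h3 : A i = 𝔐 := if_neg hi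
      rw [h3]
      exact hD𝔐 (hd i)
  have hfac := key_exp D c A hA d hdA
  -- the case of monomials
  have hcore : ∀ d' : Fin (c + 1) → L, (∀ i, d' i ∈ A i) → ∀ a ∈ M, ∀ zs : List L,
      zs.length = T → (∀ z ∈ zs, z ∈ B) → wd ⁅a, fac d'⁆ zs ∈ M' := by
    intro d' hd' a ha zs hzl hzs
    -- the monomials of the factor `0`
    have h3 : ∀ i, ∃ b ∈ S, ∃ e : Fin n → ℕ,
        d' i = if i = i₁ then pw k y E (mono x b e) else mono x b e := by
      intro i
      have h4 := hd' i
      by_cases hi : i = i₁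
      · simp only [A, if_pos hi] at h4
        obtain ⟨_, ⟨b, hb, e, rfl⟩, h5⟩ := h4
        exact ⟨b, hb, e, by rw [if_pos hi]; exact h5.symm⟩
      · simp only [A, if_neg hi] at h4
        obtain ⟨b, hb, e, h5⟩ := h4
        exact ⟨b, hb, e, by rw [if_neg hi]; exact h5⟩
    choose b₀ hb₀ e₀ he₀ using h3
    have h4 : ∀ l : Fin T, ∃ (b : Fin (c + 1) → L) (e : Fin (c + 1) → Fin n → ℕ),
        (∀ i, b i ∈ S) ∧ zs.get (l.cast hzl.symm) = fac fun i => mono x (b i) (e i) := by
      intro l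
      obtain ⟨d₁, hd₁, h5⟩ := hzs _ (List.get_mem zs (l.cast hzl.symm))
      choose b hb e he using hd₁
      refine ⟨b, e, hb, ?_⟩
      rw [h5]
      congr 1
      funext i
      exact he i
    choose b e hb hbe using h4
    let α : Fin (T + 1) → Fin (c + 1) → L := Fin.cons b₀ b
    let ee : Fin (T + 1) × Fin (c + 1) → Fin n → ℕ := fun t =>
      (Fin.cons e₀ e : Fin (T + 1) → Fin (c + 1) → Fin n → ℕ) t.1 t.2
    have hα : ∀ l i, α l i ∈ S := by
      intro l
      refine Fin.cases ?_ (fun l => ?_) l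
      · exact hb₀
      · exact hb l
    have h5 := hT y i₁ α ee hα a ha
    unfold val at h5
    rw [List.ofFn_succ, wd_cons] at h5
    have h6 : sv k x E y i₁ α ee 0 = d' := by
      funext i
      rw [he₀ i]
      simp only [sv, true_and]
      rfl
    have h7 : (List.ofFn fun l : Fin T => fac (sv k x E y i₁ α ee l.succ)) = zs := by
      have h8 : ∀ l : Fin T, fac (sv k x E y i₁ α ee l.succ) = zs.get (l.cast hzl.symm) := by
        intro l
        have h9 : sv k x E y i₁ α ee l.succ = fun i => mono x (b l i) (e l i) := by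
          funext i
          exact if_neg (fun h => Fin.succ_ne_zero l h.1)
        rw [hbe l, h9]
      simp only [h8]
      subst hzl
      exact List.ofFn_get zs
    rw [h6, h7] at h5
    exact h5
  -- all factors
  have hall : ∀ a ∈ M, Submodule.span k {w | ∃ d' : Fin (c + 1) → L, (∀ i, d' i ∈ A i) ∧
      w = fac d'} ⊔ (gd k D (c + 2)).toSubmodule ≤ M'.toSubmodule.comap
        (wdL k zs ∘ₗ (LieAlgebra.ad k L a : L →ₗ[k] L)) := by
    intro a ha
    refine sup_le ?_ ?_
    · rw [Submodule.span_le]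
      rintro _ ⟨d', hd', rfl⟩
      refine key_ml hM B T {w | ∃ a ∈ M, w = ⁅a, fac d'⁆} ?_ ?_ ⁅a, fac d'⁆ ⟨a, ha, rfl⟩ zs hzl
        (fun z hz => hgdB (hzs z hz))
      · rintro _ ⟨a, ha, rfl⟩
        exact lie_mem_right ha _
      · rintro _ ⟨a, ha, rfl⟩ zs hzl hzs
        exact hcore d' hd' a ha zs hzl hzs
    · intro g hg
      exact wd_mem (hM a ha g hg) zs
  intro a ha
  exact hall a ha hfac

end Pool.Agent.Lib.MP_240c17_al.Sol
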