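import Pool.Agent.Lib.MP_240c17_al.Sol.Spec

/-!
(E8) Pigeonhole: products of monomials are in `M'` (helper50).
-/

set_option autoImplicit false

namespace Pool.Agent.Lib.MP_240c17_al.Sol

universe u

open Pool.Agent.Lib.MP_240c17_al Pool.Agent.Lib.MP_240c17_al.Two Pool.Agent.Lib.MP_240c17_al.Tor

/-- If many values of `g` are equal to `z` then the list of the values is a permutation of a list
which begins with copies of `z`. -/
private theorem perm_of_card {X : Type u} {T : ℕ} (g : Fin T → X) (z : X) (F : Finset (Fin T))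
    (hF : ∀ l ∈ F, g l = z) {i₀ : ℕ} (hi : i₀ ≤ F.card) :
    ∃ zs', (List.ofFn g).Perm (List.replicate i₀ z ++ zs') := by
  have h1 : F.toList.Subperm (List.finRange T) :=
    F.nodup_toList.subperm fun l _ => List.mem_finRange l
  obtain ⟨l0, hl0, hs0⟩ := h1
  have hl1 := hl0.map g
  have hs := hs0.map g
  have h3 : F.toList.map g = List.replicate F.card z := by
    rw [List.eq_replicate_iff]
    refine ⟨by rw [List.length_map, Finset.length_toList], ?_⟩
    intro b hb
    obtain ⟨l, hl, rfl⟩ := List.mem_map.1 hb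
    exact hF l (Finset.mem_toList.1 hl)
  obtain ⟨l2, hl2⟩ := hs.exists_perm_append
  obtain ⟨r, hr⟩ := Nat.exists_eq_add_of_le hi
  refine ⟨List.replicate r z ++ l2, ?_⟩
  rw [List.ofFn_eq_map]
  refine hl2.trans ?_
  rw [← List.append_assoc, ← List.replicate_add, ← hr, ← h3]
  exact hl1.append_right l2

/-- At most `n` factors have an entry with a large exponent. -/
private theorem card_bad {n T c B : ℕ} (e : Fin (T + 1) × Fin (c + 1) → Fin n → ℕ)
    (h : ∀ j s s', B ≤ e s j → B ≤ e s' j → s = s') :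
    (Finset.univ.filter fun l : Fin T => ∃ i j, B ≤ e (l.succ, i) j).card ≤ n := by
  classical
  rcases Nat.eq_zero_or_pos n with rfl | hn
  · rw [Nat.le_zero, Finset.card_eq_zero, Finset.filter_eq_empty_iff]
    rintro l - ⟨i, j, -⟩
    exact j.elim0
  have hne : Nonempty (Fin n) := ⟨⟨0, hn⟩⟩
  have h1 : ∀ l ∈ Finset.univ.filter (fun l : Fin T => ∃ i j, B ≤ e (l.succ, i) j),
      ∃ j : Fin n, ∃ i, B ≤ e (l.succ, i) j := by
    intro l hl
    obtain ⟨i, j, hij⟩ := (Finset.mem_filter.1 hl).2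
    exact ⟨j, i, hij⟩
  choose! f hf using h1
  have h2 : Set.InjOn f (Finset.univ.filter fun l : Fin T => ∃ i j, B ≤ e (l.succ, i) j) := by
    intro l hl l' hl' hll
    obtain ⟨i, hi⟩ := hf l hl
    obtain ⟨i', hi'⟩ := hf l' hl'
    rw [hll] at hi
    have h3 := h _ _ _ hi hi'
    exact Fin.succ_injective _ (Prod.mk.inj h3).1
  have h3 := Finset.card_le_card_of_injOn f (t := (Finset.univ : Finset (Fin n)))
    (fun l _ => Finset.mem_univ _) h2
  rwa [Finset.card_univ, Fintype.card_fin] at h3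

theorem keyMono (h1 : ShiftProp.{u}) (h2 : AssignProp) (h3 : RepeatProp.{u}) :
    KeyMonoProp.{u} := by
  classical
  intro k _ _ L _ _ n x D M M' S c m i₀ P Q E co hSD hi₀ hco hco' hId hMM' hE hQ hDP hDPQ hEng hBal
  let κ : Type u := (Fin (c + 1) → {a // a ∈ S}) × (Fin (c + 1) → Fin n → Fin (P + Q))
  refine ⟨n + Fintype.card κ * m + 1, ?_⟩
  generalize hTdef : n + Fintype.card κ * m + 1 = T
  intro y i₁ α e hα
  have hαD : ∀ l i, α l i ∈ D := fun l i => hSD _ (hα l i)
  have hD : ∀ (e : Fin (T + 1) × Fin (c + 1) → Fin n → ℕ) l i, sv k x E y i₁ α e l i ∈ D := by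
    intro e l i
    unfold sv
    split_ifs
    · exact pw_mem (wd_mem (hαD l i) _) y E
    · exact wd_mem (hαD l i) _
  have key := h2 (Fin (T + 1) × Fin (c + 1)) n P Q
    (fun e => ∀ a ∈ M, val a (sv k x E y i₁ α e) ∈ M') hQ
  refine key ?_ ?_ e
  · intro e s s' j hss hs hs' hR a ha
    have h4 := h1 k L n T c P Q E x D M M' y i₁ α e s s' j hMM' hDP hDPQ hEng hBal hαD hss hs hs' a ha
    have h5 := add_mem h4 (hR a ha)
    rwa [sub_add_cancel] at h5
  · intro e he a ha
    -- the good factors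
    let bad : Finset (Fin T) := Finset.univ.filter fun l : Fin T => ∃ i j, P + Q ≤ e (l.succ, i) j
    have hbad : bad.card ≤ n := card_bad e he
    have hgood : Fintype.card κ * m < (badᶜ).card := by
      rw [Finset.card_compl, Fintype.card_fin]
      omega
    have hlt : ∀ l ∈ badᶜ, ∀ i j, e (l.succ, i) j < P + Q := by
      intro l hl i j
      by_contra hcon
      exact (Finset.mem_compl.1 hl) (Finset.mem_filter.2 ⟨Finset.mem_univ _, i, j, not_lt.1 hcon⟩)
    let Fm : Fin T → κ := fun l => if hl : l ∈ badᶜ then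
      (fun i => ⟨α l.succ i, hα _ _⟩, fun i j => ⟨e (l.succ, i) j, hlt l hl i j⟩)
      else (fun i => ⟨α l.succ i, hα _ _⟩, fun i j => ⟨0, by omega⟩)
    obtain ⟨b, -, hb⟩ := Finset.exists_lt_card_fiber_of_mul_lt_card_of_maps_to
      (s := badᶜ) (t := (Finset.univ : Finset κ)) (f := Fm) (n := m)
      (fun l _ => Finset.mem_univ _) (by rwa [Finset.card_univ])
    have hval : val a (sv k x E y i₁ α e) = wd ⁅a, fac (sv k x E y i₁ α e 0)⁆
        (List.ofFn fun l : Fin T => fac (sv k x E y i₁ α e l.succ)) := by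
      unfold val
      rw [List.ofFn_succ, wd_cons]
    rw [hval]
    refine h3 k L m i₀ c E co D M M' hi₀ hco hco' hId hMM' hE (sv k x E y i₁ α e 0) _
      (fac fun i => mono x (b.1 i : L) fun j => (b.2 i j : ℕ)) (hD e 0)
      ⟨i₁, y, mono x (α 0 i₁) (e (0, i₁)), wd_mem (hαD 0 i₁) _, ?_⟩ ?_ ?_ a ha
    · unfold sv
      rw [if_pos ⟨rfl, rfl⟩]
    · intro z hz
      obtain ⟨l, rfl⟩ := List.mem_ofFn.1 hz
      exact fac_mem _ (hD e l.succ)
    · refine perm_of_card _ _ (badᶜ.filter fun l => Fm l = b) ?_ (by omega)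
      intro l hl
      obtain ⟨hl1, hl2⟩ := Finset.mem_filter.1 hl
      have h6 : Fm l = (fun i => ⟨α l.succ i, hα _ _⟩, fun i j => ⟨e (l.succ, i) j, hlt l hl1 i j⟩) :=
        dif_pos hl1
      rw [← hl2, h6]
      have h7 : sv k x E y i₁ α e l.succ =
          fun i => mono x (α l.succ i) fun j => e (l.succ, i) j := by
        funext i
        unfold sv
        exact if_neg fun h => Fin.succ_ne_zero l h.1
      exact congrArg fac h7

end Pool.Agent.Lib.MP_240c17_al.Sol
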