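import Pool.Agent.Lib.MP_240c17_al.Sol.Spec
import Pool.Agent.Lib.MP_240c17_al.Tor.Rel
import Pool.Agent.Lib.MP_240c17_al.Two.LieGen

/-!
(B5) Finite generation of a finitely generated ideal `K` modulo `⁅K, G⁆` over powers of the generators,
with an ideal `D`.
-/

set_option autoImplicit false

namespace Pool.Agent.Lib.MP_240c17_al.Sol

universe u

open Pool.Agent.Lib.MP_240c17_al Pool.Agent.Lib.MP_240c17_al.Two Pool.Agent.Lib.MP_240c17_al.Tor

section

variable {k : Type u} [Field k] {F : Type u} [LieRing F] [LieAlgebra k F]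

/-- The filtration. -/
private def kfF (K B D : LieIdeal k F) : ℕ → LieIdeal k F
  | 0 => K
  | (j + 1) => ⁅kfF K B D j, D⁆ ⊔ B

private theorem kf_B_le {K B : LieIdeal k F} (D : LieIdeal k F) (hB : B ≤ K) (j : ℕ) :
    B ≤ kfF K B D j := by
  rcases j with _ | j
  · exact hB
  · exact le_sup_right

private theorem kf_br_le (K B D : LieIdeal k F) (j : ℕ) :
    (⁅kfF K B D j, D⁆ : LieIdeal k F) ≤ kfF K B D (j + 1) := le_sup_left

private theorem kf_succ_le {K B : LieIdeal k F} (D : LieIdeal k F) (hB : B ≤ K) (j : ℕ) :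
    kfF K B D (j + 1) ≤ kfF K B D j :=
  sup_le (LieSubmodule.lie_le_left _ _) (kf_B_le D hB j)

private theorem kf_le {K B : LieIdeal k F} (D : LieIdeal k F) (hB : B ≤ K) (j : ℕ) :
    kfF K B D j ≤ K := by
  induction j with
  | zero => exact le_rfl
  | succ j ih => exact (kf_succ_le D hB j).trans ih

private theorem kf_gd {K B D : LieIdeal k F} (j : ℕ) :
    kfF K B D (j + 1) ≤ gd k D (j + 1) ⊔ B := by
  induction j with
  | zero =>
    exact sup_le (le_sup_of_le_left (LieSubmodule.lie_le_right _ _)) le_sup_right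
  | succ j ih =>
    refine sup_le ?_ le_sup_right
    have h : (⁅kfF K B D (j + 1), D⁆ : LieIdeal k F).toSubmodule ≤
        (gd k D (j + 1 + 1) ⊔ B : LieIdeal k F).toSubmodule := by
      apply br_le
      intro a ha b hb
      obtain ⟨a1, ha1, a2, ha2, rfl⟩ := (LieSubmodule.mem_sup _ _ _).mp (ih ha)
      rw [add_lie]
      refine add_mem ?_ ?_
      · exact (le_sup_left : gd k D (j + 1 + 1) ≤ gd k D (j + 1 + 1) ⊔ B)
          (lie_mem_gd (by omega) ha1 hb)
      · exact (le_sup_right : B ≤ gd k D (j + 1 + 1) ⊔ B) (lie_mem_right ha2 b)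
    exact h

end

theorem kfgD (h1 : PbwProp.{u}) : KfgDProp.{u} := by
  classical
  intro k _ F _ _ n y c P' D G K hy hyD hgd hP' hDer hpwG hG hK
  obtain ⟨S0, hS0⟩ := hK
  let B : LieIdeal k F := ⁅K, G⁆
  have hBK : B ≤ K := LieSubmodule.lie_le_left _ _
  -- a finite set generating `D` modulo `G`
  obtain ⟨W, hW⟩ := rel_fc_comap (hG.mono le_rfl (le_top : D.toSubmodule ≤ ⊤))
  have hWD : ∀ d ∈ D, ∃ g ∈ G, ∃ s ∈ Submodule.span k
      ((W.image (fun w : ↥D.toSubmodule => (w : F)) : Finset F) : Set F), d = g + s := by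
    intro d hd
    obtain ⟨a, ha, b, hb, hab⟩ := Submodule.mem_sup.mp
      (hW (Submodule.mem_top : (⟨d, hd⟩ : ↥D.toSubmodule) ∈ ⊤))
    refine ⟨a, ha, b, ?_, ?_⟩
    · have h4 : (b : F) ∈ Submodule.map D.toSubmodule.subtype
          (Submodule.span k (W : Set ↥D.toSubmodule)) := ⟨b, hb, rfl⟩
      rw [Submodule.map_span] at h4
      rw [Finset.coe_image]
      exact h4
    · have := congrArg (fun w : ↥D.toSubmodule => (w : F)) hab
      simpa using this.symm
  -- the layers
  have hlay : ∀ j, ∃ S : Finset F, gen (fun i => adr k (y i)) (S : Set F) ⊔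
      (kfF K B D (j + 1)).toSubmodule = (kfF K B D j).toSubmodule := by
    intro j
    induction j with
    | zero =>
      refine ⟨S0, ?_⟩
      rw [← idealGen k F n y hy, hS0]
      exact sup_eq_left.mpr (kf_succ_le D hBK 0)
    | succ j ih =>
      obtain ⟨S, hS⟩ := ih
      have hSK : ∀ s ∈ S, s ∈ kfF K B D j := by
        intro s hs
        have h : s ∈ (kfF K B D j).toSubmodule := by
          rw [← hS]
          exact (le_sup_left : gen (fun i => adr k (y i)) (S : Set F) ≤ _) (subset_gen _ _ hs)
        exact h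
      let W' : Finset F := W.image (fun w : ↥D.toSubmodule => (w : F))
      have hW'D : ∀ w ∈ W', w ∈ D := by
        intro w hw
        obtain ⟨w, _, rfl⟩ := Finset.mem_image.mp hw
        exact w.2
      let S' : Finset F := Finset.image₂ (fun s w => ⁅s, w⁆) S W'
      refine ⟨S', le_antisymm ?_ ?_⟩
      · refine sup_le ?_ (kf_succ_le D hBK (j + 1))
        refine gen_le (fun i a ha => lie_mem_right (I := kfF K B D (j + 1)) ha (y i)) ?_
        intro x hx
        obtain ⟨s, hs, w, hw, rfl⟩ := Finset.mem_image₂.mp (Finset.mem_coe.mp hx)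
        exact kf_br_le K B D j (LieSubmodule.lie_mem_lie (hSK s hs) (hW'D w hw))
      · obtain ⟨U, hU⟩ : ∃ U : Submodule k F, U = gen (fun i => adr k (y i)) (S' : Set F) ⊔
          (kfF K B D (j + 1 + 1)).toSubmodule := ⟨_, rfl⟩
        rw [← hU]
        have hUs : ∀ i, ∀ w ∈ U, ⁅w, y i⁆ ∈ U := by
          intro i w hw
          have h : Stab (fun i => adr k (y i)) U := by
            rw [hU]
            exact (gen_stab _ _).sup
              (fun i a ha => lie_mem_right (I := kfF K B D (j + 1 + 1)) ha (y i))
          exact h i w hw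
        have hBU : B.toSubmodule ≤ U := by
          rw [hU]
          exact le_sup_of_le_right (kf_B_le D hBK (j + 1 + 1))
        have hKU : (kfF K B D (j + 1 + 1)).toSubmodule ≤ U := by rw [hU]; exact le_sup_right
        let C : Submodule k F :=
          { carrier := {κ | ∀ d ∈ D, ⁅κ, d⁆ ∈ U}
            add_mem' := by
              intro a b ha hb d hd
              rw [add_lie]
              exact U.add_mem (ha d hd) (hb d hd)
            zero_mem' := by
              intro d _
              rw [zero_lie]
              exact U.zero_mem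
            smul_mem' := by
              intro t a ha d hd
              rw [smul_lie]
              exact U.smul_mem t (ha d hd) }
        have hC : (kfF K B D j).toSubmodule ≤ C := by
          rw [← hS]
          refine sup_le (gen_le ?_ ?_) ?_
          · intro i κ hκ d hd
            show ⁅⁅κ, y i⁆, d⁆ ∈ U
            rw [lie_lie_swap κ (y i) d]
            exact U.add_mem (hUs i _ (hκ d hd)) (hκ _ (D.lie_mem hd))
          · intro s hs d hd
            obtain ⟨g, hg, s', hs', rfl⟩ := hWD d hd
            rw [lie_add]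
            refine U.add_mem (hBU ?_) ?_
            · exact LieSubmodule.lie_mem_lie (kf_le D hBK j (hSK s hs)) hg
            · have h9 : Submodule.span k ((W' : Finset F) : Set F) ≤
                  U.comap (LieAlgebra.ad k F s : F →ₗ[k] F) := by
                rw [Submodule.span_le]
                intro w hw
                show ⁅s, w⁆ ∈ U
                rw [hU]
                refine (le_sup_left : gen (fun i => adr k (y i)) (S' : Set F) ≤ _)
                  (subset_gen _ _ ?_)
                exact Finset.mem_coe.mpr (Finset.mem_image₂.mpr ⟨s, hs, w, hw, rfl⟩)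
              exact h9 hs'
          · intro κ hκ d hd
            exact hKU (kf_br_le K B D (j + 1) (LieSubmodule.lie_mem_lie hκ hd))
        have h2 : (⁅kfF K B D j, D⁆ : LieIdeal k F).toSubmodule ≤ U :=
          br_le (fun a ha b hb => hC ha b hb)
        intro w hw
        obtain ⟨a, ha, b, hb, rfl⟩ := (LieSubmodule.mem_sup _ _ _).mp hw
        exact U.add_mem (h2 ha) (hBU hb)
  -- over the powers
  have hlay2 : ∀ j, ∃ S : Finset F, gen (fun i => pw k (y i) P') (S : Set F) ⊔
      (kfF K B D (j + 1)).toSubmodule = (kfF K B D j).toSubmodule := by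
    intro j
    obtain ⟨S, hS⟩ := hlay j
    refine h1 k F n 0 P' (Fin n) (fun i => adr k (y i)) (fun i => pw k (y i) P')
      (fun i => pw k (y i) P') _ _ ?_ ?_ ?_ ?_ ?_ hP' ?_ ?_
    · intro i w hw
      exact lie_mem_right (I := kfF K B D (j + 1)) hw _
    · intro i w hw
      exact pw_mem (I := kfF K B D (j + 1)) hw _ _
    · intro i l w hw
      have e1 : adr k (y i) (adr k (y l) w) - adr k (y l) (adr k (y i) w) = ⁅w, ⁅y l, y i⁆⁆ := by
        show ⁅⁅w, y l⁆, y i⁆ - ⁅⁅w, y i⁆, y l⁆ = _
        rw [lie_lie_swap w (y l) (y i)]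
        abel
      rw [e1]
      obtain ⟨a, ha, d, hd, had⟩ := Submodule.mem_sup.mp
        (show ⁅y l, y i⁆ ∈ Submodule.span k (Set.range y) ⊔ D.toSubmodule by
          rw [hyD]; exact Submodule.mem_top)
      rw [← had, lie_add]
      refine Submodule.add_mem_sup ?_ ?_
      · have h2 : Submodule.span k (Set.range y) ≤
            (Submodule.span k (Set.range fun l => adr k (y l) w)).comap
              (LieAlgebra.ad k F w : F →ₗ[k] F) := by
          rw [Submodule.span_le]
          rintro _ ⟨l', rfl⟩
          exact Submodule.subset_span ⟨l', rfl⟩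
        exact h2 ha
      · exact kf_br_le K B D j (LieSubmodule.lie_mem_lie hw hd)
    · intro i l w hw
      have e1 : pw k (y i) P' (adr k (y l) w) - adr k (y l) (pw k (y i) P' w) =
          ⁅w, pw k (y i) P' (y l)⁆ := by
        show pw k (y i) P' ⁅w, y l⁆ - ⁅pw k (y i) P' w, y l⁆ = _
        rw [hDer, add_sub_cancel_left]
      rw [e1]
      exact kf_B_le D hBK (j + 1) (LieSubmodule.lie_mem_lie (kf_le D hBK j hw) (hpwG i (y l)))
    · intro i
      exact Algebra.subset_adjoin ⟨i, rfl⟩
    · intro i w _
      have e1 : (adr k (y i) ^ (0 + P')) w - pw k (y i) P' ((adr k (y i) ^ 0) w) = 0 := by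
        rw [zero_add, pow_zero]
        exact sub_self _
      rw [e1]
      exact Submodule.zero_mem _
    · refine ⟨S, le_antisymm ?_ ?_⟩
      · refine sup_le ?_ (kf_succ_le D hBK j)
        refine gen_le ?_ ?_
        · rintro (i | i) w hw
          · exact lie_mem_right (I := kfF K B D j) hw _
          · exact pw_mem (I := kfF K B D j) hw _ _
        · intro s hs
          rw [SetLike.mem_coe, ← hS]
          exact (le_sup_left : gen (fun i => adr k (y i)) (S : Set F) ≤ _) (subset_gen _ _ hs)
      · rw [← hS]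
        refine sup_le_sup_right ?_ _
        exact gen_le (stab_elim.mp (gen_stab (Sum.elim (fun i => adr k (y i))
          (fun i => pw k (y i) P')) (S : Set F))).1 (subset_gen _ _)
  have hfin : ∀ j, ∃ S : Finset F, gen (fun i => pw k (y i) P') (S : Set F) ⊔
      (kfF K B D j).toSubmodule = K.toSubmodule := by
    intro j
    induction j with
    | zero =>
      refine ⟨∅, ?_⟩
      have h2 : gen (fun i => pw k (y i) P') ((∅ : Finset F) : Set F) ≤ K.toSubmodule :=
        gen_le (fun i w hw => pw_mem (I := K) hw _ _) (by simp)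
      exact sup_eq_right.mpr h2
    | succ j ih =>
      obtain ⟨S, hS⟩ := ih
      obtain ⟨S', hS'⟩ := hlay2 j
      refine ⟨S ∪ S', ?_⟩
      rw [Finset.coe_union, gen_union, sup_assoc, hS', hS]
  obtain ⟨S, hS⟩ := hfin (c + 1)
  refine ⟨S, ?_⟩
  have h3 : kfF K B D (c + 1) = B := by
    apply le_antisymm
    · have h2 := kf_gd (K := K) (B := B) (D := D) c
      rw [hgd, bot_sup_eq] at h2
      exact h2
    · exact kf_B_le D hBK _
  rw [h3] at hS
  exact hS

end Pool.Agent.Lib.MP_240c17_al.Sol
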