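import Pool.Agent.Lib.MP_240c17_al.Sol.FacH4

/-!
Words with two special letters (helper4).
-/

set_option autoImplicit false

namespace Pool.Agent.Lib.MP_240c17_al.Sol

universe u

open Pool.Agent.Lib.MP_240c17_al Pool.Agent.Lib.MP_240c17_al.Two Pool.Agent.Lib.MP_240c17_al.Tor

namespace H4

theorem ofFn_update {α : Type u} {n : ℕ} (f : Fin n → α) (i : Fin n) (v : α) :
    List.ofFn (Function.update f i v) = (List.ofFn f).set i v := by
  apply List.ext_getElem
  · simp
  · intro j h1 h2
    rw [List.getElem_ofFn, List.getElem_set]
    by_cases h : (i : ℕ) = j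
    · rw [if_pos h]
      have h3 : (⟨j, by simpa using h1⟩ : Fin n) = i := Fin.ext h.symm
      rw [h3, Function.update_self]
    · rw [if_neg h, List.getElem_ofFn]
      have h3 : (⟨j, by simpa using h1⟩ : Fin n) ≠ i := fun h4 => h (by rw [← h4])
      rw [Function.update_of_ne h3]

theorem set_eq {α : Type u} (l : List α) {i : ℕ} (h : i < l.length) (v : α) :
    l.set i v = l.take i ++ v :: l.drop (i + 1) := by
  rw [List.set_eq_take_append_cons_drop, if_pos h]

theorem update_perm {α : Type u} {n : ℕ} (σ : Equiv.Perm (Fin n)) (f : Fin n → α) (i : Fin n)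
    (v : α) : (fun t => Function.update f i v (σ t)) =
      Function.update (fun t => f (σ t)) (σ.symm i) v := by
  funext t
  by_cases h : t = σ.symm i
  · subst h
    simp
  · have h2 : σ t ≠ i := fun h3 => h (by rw [← h3, σ.symm_apply_apply])
    rw [Function.update_of_ne h, Function.update_of_ne h2]

section

variable {k : Type u} [Field k] {L : Type u} [LieRing L] [LieAlgebra k L]

/-- two letters of a list -/
theorem set_set (h3 : SlotBalProp.{u}) {i e Q : ℕ} (h : BalW k L i e Q) (y z z' : L) :
    ∀ (l : List L) (a : L) (q q' : ℕ), q < q' → q' < l.length → l.length ≤ i →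
      wd a ((l.set q (pw k y (e + Q) z)).set q' (pw k y e z')) =
        wd a ((l.set q (pw k y e z)).set q' (pw k y (e + Q) z')) := by
  intro l
  induction l with
  | nil =>
    intro a q q' _ h2
    simp at h2
  | cons w l ih =>
    intro a q q' h1 h2 hl
    rw [List.length_cons] at h2 hl
    obtain ⟨r, rfl⟩ : ∃ r, q' = r + 1 := ⟨q' - 1, by omega⟩
    cases q with
    | zero =>
      rw [List.set_cons_zero, List.set_cons_zero, List.set_cons_succ, List.set_cons_succ,
        set_eq l (by omega), set_eq l (by omega)]
      have h4 := h3 k L i e Q h y a z z' [] (l.take r) (l.drop (r + 1)) (by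
        rw [List.length_take]
        omega)
      simpa using h4
    | succ q =>
      rw [List.set_cons_succ, List.set_cons_succ, List.set_cons_succ, List.set_cons_succ, wd_cons,
        wd_cons]
      exact ih ⁅a, w⁆ q r (by omega) (by omega) (by omega)

/-- letters of two lists -/
theorem set_append_set (h3 : SlotBalProp.{u}) {i e Q : ℕ} (h : BalW k L i e Q) (y z z' : L)
    (l m : List L) (a : L) (q q' : ℕ) (hq : q < l.length) (hq' : q' < m.length)
    (hi : l.length + m.length < i + 2) :
      wd a (l.set q (pw k y (e + Q) z) ++ m.set q' (pw k y e z')) =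
        wd a (l.set q (pw k y e z) ++ m.set q' (pw k y (e + Q) z')) := by
  rw [set_eq l hq, set_eq l hq, set_eq m hq', set_eq m hq']
  have h4 := h3 k L i e Q h y a z z' (l.take q) (l.drop (q + 1) ++ m.take q') (m.drop (q' + 1)) (by
    rw [List.length_append, List.length_take, List.length_drop]
    omega)
  simpa [List.append_assoc] using h4

end

end H4

end Pool.Agent.Lib.MP_240c17_al.Sol
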