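import Pool.Agent.Lib.MP_240c17_al.Sol.Spec

/-!
Additional letters in a monomial (statement `MonoPwProp`).
-/

set_option autoImplicit false

namespace Pool.Agent.Lib.MP_240c17_al.Sol

universe u

open Pool.Agent.Lib.MP_240c17_al Pool.Agent.Lib.MP_240c17_al.Two Pool.Agent.Lib.MP_240c17_al.Tor

section

variable {k : Type u} [Field k] {L : Type u} [LieRing L] [LieAlgebra k L]

private theorem mp_replicate (a y : L) (e : ℕ) : wd a (List.replicate e y) = pw k y e a := by
  induction e generalizing a with
  | zero => simp
  | succ e ih => rw [List.replicate_succ, wd_cons, ih, pw_succ']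

private theorem mp_wd {D : LieIdeal k L} {P : ℕ} (hD : Der k L P) (he : Eng k D P) (y : L)
    (l : List L) : ∀ w ∈ D, wd (pw k y P w) l - pw k y P (wd w l) ∈ gd k D 2 := by
  induction l with
  | nil =>
    intro w _
    simp
  | cons z l ih =>
    intro w hw
    rw [wd_cons, wd_cons]
    have h1 : wd ⁅pw k y P w, z⁆ l - pw k y P (wd ⁅w, z⁆ l) =
        (wd (pw k y P ⁅w, z⁆) l - pw k y P (wd ⁅w, z⁆ l)) -
          wd (pw k y P ⁅w, z⁆ - ⁅pw k y P w, z⁆) l := by
      rw [wd_sub]
      abel
    rw [h1]
    refine sub_mem (ih _ (lie_mem_right hw z)) (wd_mem ?_ l)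
    exact pw_comm_mod hD he (i := 1) le_rfl hw y z

end

theorem monoPw : MonoPwProp.{u} := by
  intro k _ L _ _ n x D P a e j hD he ha
  obtain ⟨s, t, hst⟩ := List.append_of_mem (List.mem_finRange j)
  have hnd : (s ++ j :: t).Nodup := by
    rw [← hst]
    exact List.nodup_finRange n
  have hs : ∀ i ∈ s, i ≠ j := by
    rintro i hi rfl
    exact (List.disjoint_of_nodup_append hnd) hi (by simp)
  have ht : ∀ i ∈ t, i ≠ j := by
    rintro i hi rfl
    have h1 := (List.nodup_append.mp hnd).2.1
    exact (List.nodup_cons.mp h1).1 hi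
  have hm : ∀ e : Fin n → ℕ, mono x a e =
      wd (pw k (x j) (e j) (wd a (s.flatMap fun i => List.replicate (e i) (x i))))
        (t.flatMap fun i => List.replicate (e i) (x i)) := by
    intro e
    rw [mono, hst, List.flatMap_append, List.flatMap_cons, wd_append, wd_append,
      mp_replicate (k := k)]
  have hs2 : (s.flatMap fun i => List.replicate (Function.update e j (e j + P) i) (x i)) =
      s.flatMap fun i => List.replicate (e i) (x i) := by
    apply List.flatMap_congr
    intro i hi
    rw [Function.update_of_ne (hs i hi)]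
  have ht2 : (t.flatMap fun i => List.replicate (Function.update e j (e j + P) i) (x i)) =
      t.flatMap fun i => List.replicate (e i) (x i) := by
    apply List.flatMap_congr
    intro i hi
    rw [Function.update_of_ne (ht i hi)]
  rw [hm, hm e, hs2, ht2, Function.update_self, pw_add']
  exact mp_wd hD he (x j) _ _ (pw_mem (wd_mem ha _) _ _)

end Pool.Agent.Lib.MP_240c17_al.Sol
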