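import Pool.Agent.Lib.MP_240c17_al.Sol.Spec
import Pool.Agent.Lib.MP_240c17_al.Two.LieGen

/-!
The ideal `D` is spanned by ordered monomials modulo `gd 2` (statement `MonoSpanProp`).
-/

set_option autoImplicit false

namespace Pool.Agent.Lib.MP_240c17_al.Sol

universe u

open Pool.Agent.Lib.MP_240c17_al Pool.Agent.Lib.MP_240c17_al.Two Pool.Agent.Lib.MP_240c17_al.Tor

section

variable {k : Type u} [Field k] {L : Type u} [LieRing L] [LieAlgebra k L] {n : ℕ}

/-- An interchange of two neighbours. -/
private theorem ms_swap {x : Fin n → L} {D : LieIdeal k L} {U : Submodule k L}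
    (hx : Submodule.span k (Set.range x) ⊔ D.toSubmodule = ⊤)
    (hU : (gd k D 2).toSubmodule ≤ U) {a : L} (ha : a ∈ D) {m : ℕ}
    (hm : ∀ ls : List (Fin n), ls.length < m → wd a (ls.map x) ∈ U)
    (l₁ l₂ : List (Fin n)) (i j : Fin n) (hl : l₁.length + (l₂.length + 2) ≤ m) :
    wd a ((l₁ ++ i :: j :: l₂).map x) - wd a ((l₁ ++ j :: i :: l₂).map x) ∈ U := by
  have hw : wd a (l₁.map x) ∈ D := wd_mem ha _
  let f : L →ₗ[k] L := wdL k (l₂.map x) ∘ₗ (LieAlgebra.ad k L (wd a (l₁.map x)) : L →ₗ[k] L)
  have hf : ∀ z, f z = wd ⁅wd a (l₁.map x), z⁆ (l₂.map x) := fun z => rfl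
  have h1 : (⊤ : Submodule k L) ≤ U.comap f := by
    rw [← hx]
    refine sup_le ?_ ?_
    · rw [Submodule.span_le]
      rintro _ ⟨l, rfl⟩
      show f (x l) ∈ U
      rw [hf]
      have h2 := hm (l₁ ++ l :: l₂) (by
        rw [List.length_append, List.length_cons]
        omega)
      rw [List.map_append, List.map_cons, wd_append, wd_cons] at h2
      exact h2
    · intro d hd
      show f d ∈ U
      rw [hf]
      exact hU (wd_mem (lie_mem_gd (i := 1) le_rfl hw hd) _)
  have h2 : f ⁅x i, x j⁆ ∈ U := h1 (Submodule.mem_top : ⁅x i, x j⁆ ∈ ⊤)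
  rw [hf, lie_lie_right, wd_sub] at h2
  rw [List.map_append, List.map_append, wd_append, wd_append]
  simpa only [List.map_cons, wd_cons] using h2

private theorem ms_perm {x : Fin n → L} {D : LieIdeal k L} {U : Submodule k L}
    (hx : Submodule.span k (Set.range x) ⊔ D.toSubmodule = ⊤)
    (hU : (gd k D 2).toSubmodule ≤ U) {a : L} (ha : a ∈ D) {m : ℕ}
    (hm : ∀ ls : List (Fin n), ls.length < m → wd a (ls.map x) ∈ U)
    {l l' : List (Fin n)} (h : l.Perm l') : ∀ l₁ : List (Fin n), l₁.length + l.length ≤ m →
      wd a ((l₁ ++ l).map x) - wd a ((l₁ ++ l').map x) ∈ U := by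
  induction h with
  | nil =>
    intro l₁ _
    rw [sub_self]
    exact U.zero_mem
  | @cons z l l' h ih =>
    intro l₁ hl
    have h1 := ih (l₁ ++ [z]) (by
      rw [List.length_append, List.length_singleton]
      rw [List.length_cons] at hl
      omega)
    rwa [List.append_assoc, List.append_assoc, List.singleton_append, List.singleton_append] at h1
  | swap z w l =>
    intro l₁ hl
    exact ms_swap hx hU ha hm l₁ l w z (by
      rw [List.length_cons, List.length_cons] at hl
      omega)
  | @trans l l' l'' h h' ih ih' =>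
    intro l₁ hl
    have h1 := ih l₁ hl
    have h2 := ih' l₁ (by rw [← h.length_eq]; exact hl)
    have h3 := U.add_mem h1 h2
    rwa [sub_add_sub_cancel] at h3

/-- The ordered list with the same entries. -/
private theorem ms_sort (ls : List (Fin n)) :
    ls.Perm ((List.finRange n).flatMap fun i => List.replicate (ls.count i) i) := by
  rw [List.perm_iff_count]
  intro a
  rw [List.count_flatMap]
  have h1 : (List.count a ∘ fun i => List.replicate (ls.count i) i) =
      fun i => if i = a then ls.count i else 0 := by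
    funext i
    simp only [Function.comp_apply, List.count_replicate, beq_iff_eq]
  rw [h1, ← Fin.sum_univ_def, Finset.sum_ite_eq' Finset.univ a (fun i => ls.count i)]
  simp

private theorem ms_word {x : Fin n → L} {D : LieIdeal k L} {U : Submodule k L}
    (hx : Submodule.span k (Set.range x) ⊔ D.toSubmodule = ⊤)
    (hU : (gd k D 2).toSubmodule ≤ U) {a : L} (ha : a ∈ D) (hmono : ∀ e, mono x a e ∈ U) :
    ∀ (m : ℕ) (ls : List (Fin n)), ls.length < m → wd a (ls.map x) ∈ U := by
  intro m
  induction m with
  | zero =>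
    intro ls hls
    exact absurd hls (Nat.not_lt_zero _)
  | succ m ih =>
    intro ls hls
    have h1 := ms_perm hx hU ha ih (ms_sort ls) [] (by
      rw [List.length_nil]
      omega)
    rw [List.nil_append, List.nil_append] at h1
    have h2 : wd a (((List.finRange n).flatMap fun i => List.replicate (ls.count i) i).map x) =
        mono x a (fun i => ls.count i) := by
      rw [mono, List.map_flatMap]
      congr 2
      funext i
      rw [List.map_replicate]
    rw [h2] at h1
    have h3 := U.add_mem h1 (hmono fun i => ls.count i)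
    rwa [sub_add_cancel] at h3

end

theorem monoSpan : MonoSpanProp.{u} := by
  intro k _ L _ _ n x D S hgen hx hS
  have hSD : ∀ a ∈ S, a ∈ D := by
    intro a ha
    rw [← hS]
    exact LieSubmodule.subset_lieSpan ha
  have hD : D.toSubmodule = gen (fun i => adr k (x i)) (S : Set L) := by
    rw [← hS]
    exact idealGen k L n x hgen (S : Set L)
  let W : Submodule k L := Submodule.span k {w | ∃ a ∈ S, ∃ ls : List (Fin n),
    w = wd a (ls.map x)}
  have hW : D.toSubmodule ≤ W := by
    rw [hD]
    refine gen_le ?_ ?_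
    · intro i y hy
      have h2 : W ≤ W.comap (adr k (x i)) := by
        rw [Submodule.span_le]
        rintro _ ⟨a, ha, ls, rfl⟩
        refine Submodule.subset_span ⟨a, ha, ls ++ [i], ?_⟩
        rw [List.map_append, List.map_singleton, wd_concat]
        rfl
      exact h2 hy
    · intro a ha
      exact Submodule.subset_span ⟨a, ha, [], rfl⟩
  refine hW.trans ?_
  rw [Submodule.span_le]
  rintro _ ⟨a, ha, ls, rfl⟩
  refine ms_word hx le_sup_right (hSD a ha) (fun e => ?_) (ls.length + 1) ls (Nat.lt_succ_self _)
  exact Submodule.mem_sup_left (Submodule.subset_span ⟨a, ha, e, rfl⟩)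

end Pool.Agent.Lib.MP_240c17_al.Sol
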