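import Pool.Agent.Lib.MP_240c17_al.Sol.Spec
import Pool.Agent.Lib.MP_240c17_al.Tor.Comb
import Pool.Agent.Lib.MP_240c17_al.Tor.Vand
import Pool.Agent.Lib.MP_240c17_al.Tor.OpPoly

/-!
The elements of the moment curve act nilpotently modulo the ideal `GG`.
-/

set_option autoImplicit false

namespace Pool.Agent.Lib.MP_240c17_al.Sol

universe u

open Pool.Agent.Lib.MP_240c17_al Pool.Agent.Lib.MP_240c17_al.Two Pool.Agent.Lib.MP_240c17_al.Tor

section

variable {k : Type u} [Field k] {F : Type u} [LieRing F] [LieAlgebra k F]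

private theorem Nil_prod {n L : ℕ} (x : Fin n → F) (ν : Fin L → k) (P₀ : ℕ) (l : List (Fin L)) :
    ∀ z : F, (l.map fun i => pw k (mom k x (ν i)) P₀ ^ 1).prod z ∈
      Mid k P₀ (l.map fun i => mom k x (ν i)) := by
  induction l with
  | nil =>
    intro z
    exact LieSubmodule.mem_top _
  | cons h l ih =>
    intro z
    rw [List.map_cons, List.map_cons, List.prod_cons, Module.End.mul_apply, pow_one]
    exact LieSubmodule.subset_lieSpan ⟨_, ih z, rfl⟩

private theorem Nil_comm {D : LieIdeal k F} {e : ℕ} (hD : Der k F e) (he : Eng k D e) {i : ℕ}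
    (hi : 1 ≤ i) {a : F} (ha : a ∈ gd k D i) (y z : F) (f : ℕ) :
    pw k y e (pw k z f a) - pw k z f (pw k y e a) ∈ gd k D (i + 1) := by
  induction f with
  | zero =>
    rw [pw_zero, pw_zero, sub_self]
    exact (gd k D (i + 1)).zero_mem
  | succ f ih =>
    rw [pw_succ, pw_succ]
    have h1 := pw_comm_mod hD he hi (pw_mem ha z f) y z
    have h2 := lie_mem_right ih z
    have h3 := (gd k D (i + 1)).add_mem h1 h2
    rw [sub_lie] at h3
    have h4 : pw k y e ⁅pw k z f a, z⁆ - ⁅pw k y e (pw k z f a), z⁆ +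
        (⁅pw k y e (pw k z f a), z⁆ - ⁅pw k z f (pw k y e a), z⁆) =
        pw k y e ⁅pw k z f a, z⁆ - ⁅pw k z f (pw k y e a), z⁆ := by abel
    rwa [h4] at h3

/-- The span of the operators. -/
private def NilA {n : ℕ} (x : Fin n → F) (P₀ : ℕ) : Submodule k (Module.End k F) :=
  Submodule.span k (Set.range fun μ : k => pw k (mom k x μ) P₀)

private theorem NilA_stab {n : ℕ} (x : Fin n → F) (P₀ : ℕ) (I : LieIdeal k F)
    {ψ : Module.End k F} (hψ : ψ ∈ NilA x P₀) {z : F} (hz : z ∈ I) : ψ z ∈ I := by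
  unfold NilA at hψ
  induction hψ using Submodule.span_induction with
  | mem ψ h =>
    obtain ⟨μ, rfl⟩ := h
    exact pw_mem hz _ _
  | zero => exact I.zero_mem
  | add a b _ _ ha hb => exact I.add_mem ha hb
  | smul c a _ ha => exact I.smul_mem c ha

private theorem NilA_comm {n : ℕ} (x : Fin n → F) (P₀ : ℕ) (D G : LieIdeal k F)
    (hD : Der k F P₀) (he : Eng k D P₀) {i : ℕ} (hi : 1 ≤ i)
    {ψ ψ' : Module.End k F} (hψ : ψ ∈ NilA x P₀) (hψ' : ψ' ∈ NilA x P₀) {z : F}
    (hz : z ∈ (gd k D i ⊔ G : LieIdeal k F)) :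
    ψ (ψ' z) - ψ' (ψ z) ∈ (gd k D (i + 1) ⊔ G : LieIdeal k F) := by
  have h0 : ∀ μ μ' : k, pw k (mom k x μ) P₀ (pw k (mom k x μ') P₀ z) -
      pw k (mom k x μ') P₀ (pw k (mom k x μ) P₀ z) ∈ (gd k D (i + 1) ⊔ G : LieIdeal k F) := by
    intro μ μ'
    let T : F →ₗ[k] F := pw k (mom k x μ) P₀ ∘ₗ pw k (mom k x μ') P₀ -
      pw k (mom k x μ') P₀ ∘ₗ pw k (mom k x μ) P₀
    have h3 : (gd k D i ⊔ G : LieIdeal k F).toSubmodule ≤
        (gd k D (i + 1) ⊔ G : LieIdeal k F).toSubmodule.comap T := by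
      rw [LieSubmodule.sup_toSubmodule]
      apply sup_le
      · intro a ha
        have h4 := Nil_comm hD he hi ha (mom k x μ) (mom k x μ') P₀
        exact (le_sup_left : gd k D (i + 1) ≤ gd k D (i + 1) ⊔ G) h4
      · intro a ha
        have h4 : pw k (mom k x μ) P₀ (pw k (mom k x μ') P₀ a) -
            pw k (mom k x μ') P₀ (pw k (mom k x μ) P₀ a) ∈ G :=
          G.sub_mem (pw_mem (pw_mem ha _ _) _ _) (pw_mem (pw_mem ha _ _) _ _)
        exact (le_sup_right : G ≤ gd k D (i + 1) ⊔ G) h4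
    exact h3 hz
  unfold NilA at hψ hψ'
  induction hψ using Submodule.span_induction with
  | mem ψ h =>
    obtain ⟨μ, rfl⟩ := h
    induction hψ' using Submodule.span_induction with
    | mem ψ h =>
      obtain ⟨μ', rfl⟩ := h
      exact h0 μ μ'
    | zero =>
      rw [LinearMap.zero_apply, LinearMap.zero_apply, map_zero, sub_self]
      exact LieSubmodule.zero_mem _
    | add a b _ _ ha hb =>
      rw [LinearMap.add_apply, LinearMap.add_apply, map_add]
      have h5 := add_mem ha hb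
      refine (congrArg (· ∈ (gd k D (i + 1) ⊔ G : LieIdeal k F)) ?_).mp h5
      beta_reduce
      abel
    | smul c a _ ha =>
      rw [LinearMap.smul_apply, LinearMap.smul_apply, map_smul, ← smul_sub]
      exact Submodule.smul_mem (gd k D (i + 1) ⊔ G : LieIdeal k F).toSubmodule c ha
  | zero =>
    rw [LinearMap.zero_apply, LinearMap.zero_apply, map_zero, sub_self]
    exact LieSubmodule.zero_mem _
  | add a b _ _ ha hb =>
    rw [LinearMap.add_apply, LinearMap.add_apply, map_add]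
    have h5 := add_mem ha hb
    refine (congrArg (· ∈ (gd k D (i + 1) ⊔ G : LieIdeal k F)) ?_).mp h5
    beta_reduce
    abel
  | smul c a _ ha =>
    rw [LinearMap.smul_apply, LinearMap.smul_apply, map_smul, ← smul_sub]
    exact Submodule.smul_mem (gd k D (i + 1) ⊔ G : LieIdeal k F).toSubmodule c ha

private theorem NilA_span {n : ℕ} (x : Fin n → F) (P₀ : ℕ) (ν : Fin (P₀ * n + 1) → k)
    (hν : Function.Injective ν) :
    NilA x P₀ ≤ Submodule.span k (Set.range fun i => pw k (mom k x (ν i)) P₀) := by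
  unfold NilA
  rw [Submodule.span_le]
  rintro _ ⟨μ, rfl⟩
  obtain ⟨ℓ, hℓ⟩ := lagrange k (P₀ * n + 1) ν hν
  have h1 : pw k (mom k x μ) P₀ = ∑ i, ℓ μ i • pw k (mom k x (ν i)) P₀ := by
    apply LinearMap.ext
    intro w
    obtain ⟨q, hq⟩ := pwPoly k F n x P₀ w
    rw [LinearMap.sum_apply]
    have h2 : ∀ i, (ℓ μ i • pw k (mom k x (ν i)) P₀) w =
        ∑ l ∈ Finset.range (P₀ * n + 1), (ℓ μ i * ν i ^ l) • q l := by
      intro i
      have h3 := hq (ν i)
      beta_reduce at h3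
      rw [LinearMap.smul_apply, h3, Finset.smul_sum]
      simp only [smul_smul]
    rw [Finset.sum_congr rfl (fun i _ => h2 i), Finset.sum_comm]
    have h3 := hq μ
    beta_reduce at h3
    rw [h3]
    apply Finset.sum_congr rfl
    intro l hl
    rw [Finset.mem_range] at hl
    rw [← Finset.sum_smul, ← hℓ μ l hl]
  show pw k (mom k x μ) P₀ ∈ Submodule.span k (Set.range fun i => pw k (mom k x (ν i)) P₀)
  rw [h1]
  exact Submodule.sum_mem _ fun i _ => Submodule.smul_mem _ _ (Submodule.subset_span ⟨i, rfl⟩)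

end

theorem nil_ : NilProp.{u} := by
  intro k _ F _ _ D n x c b P₀ r L ν hν hrn hc hb hbP hder
  classical
  have he : Eng k D P₀ := hb.mono hbP
  set G : LieIdeal k F := GG k x P₀ ν r with hG
  have key : ∀ i : ℕ, 1 ≤ i → ∃ M : ℕ, ∀ (μ : k),
      ∀ w ∈ (gd k D i ⊔ G : LieIdeal k F), pw k (mom k x μ) (P₀ * M) w ∈
        (gd k D (i + 1) ⊔ G : LieIdeal k F) := by
    intro i hi
    have hYZ : (gd k D (i + 1) ⊔ G : LieIdeal k F) ≤ (gd k D i ⊔ G : LieIdeal k F) :=
      sup_le_sup_right (gd_le D i) G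
    suffices hM : ∃ M : ℕ, ∀ ψ ∈ NilA x P₀,
        ∀ z ∈ (gd k D i ⊔ G : LieIdeal k F).toSubmodule,
        (ψ ^ M) z ∈ (gd k D (i + 1) ⊔ G : LieIdeal k F).toSubmodule by
      obtain ⟨M, hM⟩ := hM
      refine ⟨M, fun μ w hw => ?_⟩
      rw [pw_mul]
      exact hM (pw k (mom k x μ) P₀) (Submodule.subset_span ⟨μ, rfl⟩) w hw
    refine comb k F L (P₀ * n + 1) r 1 (fun j => pw k (mom k x (ν j)) P₀)
      (gd k D (i + 1) ⊔ G : LieIdeal k F).toSubmodule (gd k D i ⊔ G : LieIdeal k F).toSubmodule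
      (NilA x P₀) hYZ ?_ ?_ ?_ ?_ hrn ?_ ?_
    · intro ψ hψ z hz
      exact NilA_stab x P₀ _ hψ hz
    · intro ψ hψ z hz
      exact NilA_stab x P₀ _ hψ hz
    · intro ψ hψ ψ' hψ' z hz
      exact NilA_comm x P₀ D G hder he hi hψ hψ' hz
    · intro j
      exact Submodule.subset_span ⟨ν j, rfl⟩
    · intro s hs
      let e := s.equivFinOfCardEq hs
      refine (NilA_span x P₀ (fun i => ν (e.symm i)) (by
        intro a b hab
        have h4 := hν hab
        exact e.symm.injective (Subtype.ext h4))).trans ?_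
      rw [Submodule.span_le]
      rintro _ ⟨i, rfl⟩
      exact Submodule.subset_span ⟨(e.symm i : Fin L), (e.symm i).2, rfl⟩
    · intro l hl hlr z _
      have h3 := Nil_prod x ν P₀ l z
      have h4 : Mid k P₀ (l.map fun i => mom k x (ν i)) ≤ G := by
        rw [hG]
        unfold GG
        exact le_iSup₂_of_le l ⟨hl, hlr⟩ le_rfl
      exact (le_sup_right : G ≤ gd k D (i + 1) ⊔ G) (h4 h3)
  have main : ∀ i : ℕ, ∃ M : ℕ, ∀ (μ : k) (w : F),
      pw k (mom k x μ) M w ∈ (gd k D (i + 1) ⊔ G : LieIdeal k F) := by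
    intro i
    induction i with
    | zero =>
      refine ⟨b, fun μ w => ?_⟩
      exact (le_sup_left : gd k D (0 + 1) ≤ gd k D (0 + 1) ⊔ G) (hb _ _)
    | succ i ih =>
      obtain ⟨M, hM⟩ := ih
      obtain ⟨M', hM'⟩ := key (i + 1) (by omega)
      refine ⟨P₀ * M' + M, fun μ w => ?_⟩
      rw [pw_add]
      exact hM' μ _ (hM μ w)
  obtain ⟨M, hM⟩ := main c
  refine ⟨M, fun μ w => ?_⟩
  have h3 := hM μ w
  rw [hc, bot_sup_eq] at h3
  exact h3

end Pool.Agent.Lib.MP_240c17_al.Sol
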