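import Pool.Agent.Lib.MP_240c17_al.Sol.Spec
import Pool.Agent.Lib.MP_240c17_al.Tor.OpPoly

/-!
The operators `T μ` depend polynomially on the parameter (with an ideal `D`).
-/

set_option autoImplicit false

namespace Pool.Agent.Lib.MP_240c17_al.Sol

universe u

open Pool.Agent.Lib.MP_240c17_al Pool.Agent.Lib.MP_240c17_al.Two Pool.Agent.Lib.MP_240c17_al.Tor

section

variable {k : Type u} [Field k] {F : Type u} [LieRing F] [LieAlgebra k F]

/-- words starting in `gd i`, `1 ≤ i` -/
private theorem OpPol_word {D : LieIdeal k F} {c n e : ℕ} (hc : gd k D (c + 1) = ⊥)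
    (x : Fin n → F) (ξ u : Fin n → k → F) (lam : k) (hξ : ∀ l μ, ξ l μ = x l + lam • u l μ)
    (hu : ∀ l, PF k e (u l)) (huD : ∀ l μ, u l μ ∈ D) (ls : List (Fin n)) :
    ∀ (i d : ℕ) (f : k → F), 1 ≤ i → (∀ μ, f μ ∈ gd k D i) → PF k d f →
      PF k (d + (c - i) * e) (fun μ => wd (f μ) (ls.map (fun l => ξ l μ))) := by
  induction ls with
  | nil =>
    intro i d f _ _ h
    exact OpPoly_mono h (Nat.le_add_right _ _)
  | cons l ls ih =>
    intro i d f hi hf h
    have e1 : (fun μ => wd (f μ) ((l :: ls).map (fun l => ξ l μ))) = fun μ =>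
        wd ⁅f μ, x l⁆ (ls.map (fun l => ξ l μ)) +
        lam • wd ⁅f μ, u l μ⁆ (ls.map (fun l => ξ l μ)) := by
      funext μ
      rw [List.map_cons, wd_cons, hξ, lie_add, lie_smul, wd_add, wd_smul]
    rw [e1]
    apply OpPoly_add
    · have h1 := OpPoly_lie h (OpPoly_const (k := k) 0 (x l))
      rw [add_zero] at h1
      exact ih i d _ hi (fun μ => lie_mem_right (hf μ) _) h1
    · apply OpPoly_smul
      rcases Nat.lt_or_ge i c with hic | hic
      · have h1 := ih (i + 1) (d + e) _ (by omega)
          (fun μ => lie_mem_gd hi (hf μ) (huD l μ)) (OpPoly_lie h (hu l))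
        refine OpPoly_mono h1 (le_of_eq ?_)
        obtain ⟨t, rfl⟩ := Nat.exists_eq_add_of_lt hic
        rw [show i + t + 1 - (i + 1) = t by omega, show i + t + 1 - i = t + 1 by omega]
        ring
      · have h0 : ∀ μ, ⁅f μ, u l μ⁆ = 0 := by
          intro μ
          have h1 := lie_mem_gd hi (hf μ) (huD l μ)
          have h2 : ⁅f μ, u l μ⁆ ∈ gd k D (c + 1) := gd_anti D (by omega) h1
          rw [hc] at h2
          simpa using h2
        simp only [h0, wd_zero]
        exact OpPoly_zero _

/-- words starting anywhere -/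
private theorem OpPol_word0 {D : LieIdeal k F} {c n e : ℕ} (hc0 : 1 ≤ c)
    (hc : gd k D (c + 1) = ⊥) (x : Fin n → F) (ξ u : Fin n → k → F) (lam : k)
    (hξ : ∀ l μ, ξ l μ = x l + lam • u l μ)
    (hu : ∀ l, PF k e (u l)) (huD : ∀ l μ, u l μ ∈ D) (ls : List (Fin n)) :
    ∀ (d : ℕ) (f : k → F), PF k d f →
      PF k (d + c * e) (fun μ => wd (f μ) (ls.map (fun l => ξ l μ))) := by
  have hce : e + (c - 1) * e = c * e := by
    obtain ⟨t, rfl⟩ := Nat.exists_eq_add_of_le' hc0
    rw [show t + 1 - 1 = t by omega]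
    ring
  induction ls with
  | nil =>
    intro d f h
    exact OpPoly_mono h (Nat.le_add_right _ _)
  | cons l ls ih =>
    intro d f h
    have e1 : (fun μ => wd (f μ) ((l :: ls).map (fun l => ξ l μ))) = fun μ =>
        wd ⁅f μ, x l⁆ (ls.map (fun l => ξ l μ)) +
        lam • wd ⁅f μ, u l μ⁆ (ls.map (fun l => ξ l μ)) := by
      funext μ
      rw [List.map_cons, wd_cons, hξ, lie_add, lie_smul, wd_add, wd_smul]
    rw [e1]
    apply OpPoly_add
    · have h1 := OpPoly_lie h (OpPoly_const (k := k) 0 (x l))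
      rw [add_zero] at h1
      exact ih d _ h1
    · apply OpPoly_smul
      have h1 := OpPol_word hc x ξ u lam hξ hu huD ls 1 (d + e) (fun μ => ⁅f μ, u l μ⁆) le_rfl
        (fun μ => by
          rw [gd_one]
          exact D.lie_mem (huD l μ)) (OpPoly_lie h (hu l))
      rw [add_assoc, hce] at h1
      exact h1

end

theorem opPol : OpPolProp.{u} := by
  intro k _ F _ _ D n x c b N lam g T hx hc hE hN hT w
  choose θ hθ hTw using hT
  have hw : w ∈ Submodule.span k {w : F | ∃ (i : Fin n) (ls : List (Fin n)),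
      w = wd (x i) (ls.map x)} := by
    rw [words_span hx]
    exact Submodule.mem_top
  induction hw using Submodule.span_induction with
  | mem w hw =>
    obtain ⟨i, ls, rfl⟩ := hw
    simp only [hTw]
    refine OpPoly_sum _ (fun j hj => OpPoly_sum _ (fun s _ => OpPoly_smul _ ?_))
    rw [Finset.mem_range] at hj
    have hm := hN j hj
    set m : ℕ := N / (j + 1) with hmdef
    have hmN : m ≤ N := Nat.div_le_self _ _
    have hξ : ∀ l μ, θ μ s j (x l) = x l + lam s • pw k (mom k x μ) m (x l) :=
      fun l μ => hθ μ s j hj l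
    have hD : ∀ l μ, pw k (mom k x μ) m (x l) ∈ D := fun l μ => hE.mono hm _ _
    have hce : m * n + (c - 1) * (m * n) = c * (m * n) := by
      obtain ⟨t, rfl⟩ := Nat.exists_eq_add_of_le' (show 1 ≤ c by omega)
      rw [show t + 1 - 1 = t by omega]
      ring
    have h2 : (fun μ => θ μ s j (wd (x i) (ls.map x))) = fun μ =>
        wd (x i) (ls.map (fun l => θ μ s j (x l))) +
        lam s • wd (pw k (mom k x μ) m (x i)) (ls.map (fun l => θ μ s j (x l))) := by
      funext μ
      rw [wd_map (θ μ s j), List.map_map, hξ i μ, wd_add, wd_smul]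
      rfl
    rw [h2]
    have h3 : PF k (c * (m * n)) (fun μ => wd (x i) (ls.map (fun l => θ μ s j (x l))) +
        lam s • wd (pw k (mom k x μ) m (x i)) (ls.map (fun l => θ μ s j (x l)))) := by
      apply OpPoly_add
      · have h4 := OpPol_word0 (k := k) (c := c) (e := m * n) (by omega) hc x
          (fun l μ => θ μ s j (x l)) (fun l μ => pw k (mom k x μ) m (x l)) (lam s)
          hξ (fun l => pwPoly k F n x m (x l)) hD ls 0 (fun _ => x i) (OpPoly_const _ _)
        rw [zero_add] at h4
        exact h4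
      · apply OpPoly_smul
        have h4 := OpPol_word (k := k) (c := c) (e := m * n) hc x
          (fun l μ => θ μ s j (x l)) (fun l μ => pw k (mom k x μ) m (x l)) (lam s)
          hξ (fun l => pwPoly k F n x m (x l)) hD ls 1 (m * n)
          (fun μ => pw k (mom k x μ) m (x i)) le_rfl (fun μ => by
            rw [gd_one]; exact hD i μ) (pwPoly k F n x m (x i))
        rw [hce] at h4
        exact h4
    refine OpPoly_mono h3 ?_
    rw [mul_assoc]
    exact Nat.mul_le_mul_left _ (Nat.mul_le_mul_right _ hmN)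
  | zero =>
    simp only [map_zero]
    exact OpPoly_zero _
  | add a b _ _ ha hb =>
    simp only [map_add]
    exact OpPoly_add ha hb
  | smul r a _ ha =>
    simp only [map_smul]
    exact OpPoly_smul r ha

end Pool.Agent.Lib.MP_240c17_al.Sol
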