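import Pool.Agent.Lib.MP_240c17_al.Sol.Spec

/-!
MP_240c17_al, module Perm (helper86): factors may be permuted.
-/

set_option autoImplicit false

namespace Pool.Agent.Lib.MP_240c17_al.Sol

universe u

open Pool.Agent.Lib.MP_240c17_al Pool.Agent.Lib.MP_240c17_al.Two Pool.Agent.Lib.MP_240c17_al.Tor

theorem perm_ : PermProp.{u} := by
  intro k _ L _ _ D M M' c hM l l' h
  induction h with
  | nil =>
    intro _ a _
    rw [sub_self]
    exact M'.zero_mem
  | cons z _ ih =>
    intro hl a ha
    exact ih (fun w hw => hl w (List.mem_cons_of_mem _ hw)) ⁅a, z⁆ (lie_mem_right ha z)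
  | swap z w l =>
    intro hl a ha
    simp only [wd_cons]
    rw [← wd_sub]
    apply wd_mem
    rw [← lie_lie_right]
    refine hM a ha _ ?_
    refine lie_mem_gd (i := c + 1) (by omega) (hl w (by simp)) ?_
    exact gd_le_D D (by omega) (hl z (by simp))
  | trans h1 _ ih1 ih2 =>
    intro hl a ha
    have h3 := add_mem (ih1 hl a ha) (ih2 (fun z hz => hl z (h1.mem_iff.2 hz)) a ha)
    rwa [sub_add_sub_cancel] at h3

end Pool.Agent.Lib.MP_240c17_al.Sol
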