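import Pool.Agent.Lib.MP_240c17_al.Sol.Spec
import Pool.Agent.Lib.MP_240c17_al.Two.RelFree

/-!
Reduction of the core theorem to the case `gd k D (c + 1) = ⊥`.
-/

set_option autoImplicit false

namespace Pool.Agent.Lib.MP_240c17_al.Sol

universe u

open Pool.Agent.Lib.MP_240c17_al Pool.Agent.Lib.MP_240c17_al.Two Pool.Agent.Lib.MP_240c17_al.Tor

namespace RedCoreAux

variable {k : Type u} [Field k] {F Q : Type u} [LieRing F] [LieAlgebra k F] [LieRing Q]
  [LieAlgebra k Q]

theorem mem_map' {π : F →ₗ⁅k⁆ Q} (hπ : Function.Surjective π) {D : LieIdeal k F} {q : Q}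
    (hq : q ∈ LieIdeal.map π D) : ∃ d ∈ D, π d = q := by
  obtain ⟨d, hd⟩ := LieIdeal.mem_map_of_surjective hπ hq
  exact ⟨d, d.2, hd⟩

theorem gd_map {π : F →ₗ⁅k⁆ Q} (hπ : Function.Surjective π) (D : LieIdeal k F) (i : ℕ) :
    ∀ q ∈ gd k (LieIdeal.map π D) (i + 1), ∃ a ∈ gd k D (i + 1), π a = q := by
  induction i with
  | zero => exact fun q hq => mem_map' hπ hq
  | succ i ih =>
    intro q hq
    have h1 : (gd k (LieIdeal.map π D) (i + 1 + 1)).toSubmodule ≤
        (gd k D (i + 1 + 1)).toSubmodule.map (π : F →ₗ[k] Q) := by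
      apply gd_succ_le (by omega)
      intro a ha b hb
      obtain ⟨a', ha', rfl⟩ := ih a ha
      obtain ⟨b', hb', rfl⟩ := mem_map' hπ hb
      exact ⟨⁅a', b'⁆, lie_mem_gd (by omega) ha' hb', LieHom.map_lie π a' b'⟩
    obtain ⟨a, ha, h⟩ := h1 hq
    exact ⟨a, ha, h⟩

theorem span_lift {π : F →ₗ⁅k⁆ Q} {S : Set F} {T : Set Q}
    (h : ∀ t ∈ T, ∃ s ∈ S, π s = t) {b : Q} (hb : b ∈ Submodule.span k T) :
    ∃ v ∈ Submodule.span k S, π v = b := by
  induction hb using Submodule.span_induction with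
  | mem z hz =>
    obtain ⟨s, hs, h'⟩ := h z hz
    exact ⟨s, Submodule.subset_span hs, h'⟩
  | zero => exact ⟨0, Submodule.zero_mem _, map_zero π⟩
  | add x y hx hy ihx ihy =>
    obtain ⟨v1, h1, h2⟩ := ihx
    obtain ⟨v2, h3, h4⟩ := ihy
    exact ⟨v1 + v2, Submodule.add_mem _ h1 h3, by rw [map_add, h2, h4]⟩
  | smul t x hx ihx =>
    obtain ⟨v1, h1, h2⟩ := ihx
    exact ⟨t • v1, Submodule.smul_mem _ t h1, by rw [map_smul, h2]⟩

theorem span_push {π : F →ₗ⁅k⁆ Q} {S : Set F} {T : Set Q}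
    (h : ∀ s ∈ S, π s ∈ T) {b : F} (hb : b ∈ Submodule.span k S) :
    π b ∈ Submodule.span k T := by
  have h1 : Submodule.span k S ≤ (Submodule.span k T).comap (π : F →ₗ[k] Q) := by
    rw [Submodule.span_le]
    intro s hs
    exact Submodule.subset_span (h s hs)
  exact h1 hb

end RedCoreAux

open RedCoreAux

/-- (C2) -/
theorem redCore (h1 : CoreProp.{u}) : RedCoreProp.{u} := by
  classical
  intro k _ _ p _ _ F _ _ n x D K c b m r co ζ hx hspan hlift hgK hEng hr hco hne hI hK hζ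
  set N : LieIdeal k F := gd k D (c + 1) with hN
  set π : F →ₗ⁅k⁆ (F ⧸ N) := qMk N with hπdef
  have hπ : Function.Surjective π := qMk_surjective N
  have hπ0 : ∀ a, π a = 0 ↔ a ∈ N := fun a => qMk_eq_zero N a
  -- the hypotheses of the core theorem
  have g1 : LieSubalgebra.lieSpan k (F ⧸ N) (Set.range fun i => π (x i)) = ⊤ := by
    rw [eq_top_iff]
    intro q _
    obtain ⟨w, rfl⟩ := hπ q
    have h2 : LieSubalgebra.lieSpan k F (Set.range x) ≤
        (LieSubalgebra.lieSpan k (F ⧸ N) (Set.range fun i => π (x i))).comap π := by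
      rw [LieSubalgebra.lieSpan_le]
      rintro _ ⟨i, rfl⟩
      exact LieSubalgebra.subset_lieSpan ⟨i, rfl⟩
    exact h2 (hx ▸ LieSubalgebra.mem_top w)
  have g2 : Submodule.span k (Set.range fun i => π (x i)) ⊔ (LieIdeal.map π D).toSubmodule = ⊤ := by
    rw [eq_top_iff]
    intro q _
    obtain ⟨w, rfl⟩ := hπ q
    have hw : w ∈ Submodule.span k (Set.range x) ⊔ D.toSubmodule := hspan ▸ Submodule.mem_top
    obtain ⟨s, hs, d, hd, rfl⟩ := Submodule.mem_sup.1 hw
    rw [map_add]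
    refine Submodule.add_mem_sup (span_push ?_ hs) (LieIdeal.mem_map hd)
    rintro _ ⟨i, rfl⟩
    exact ⟨i, rfl⟩
  have g3 : ∀ η : Fin n → (F ⧸ N), (∀ i, η i - π (x i) ∈ LieIdeal.map π D) →
      ∃ θ : (F ⧸ N) →ₗ⁅k⁆ (F ⧸ N), ∀ i, θ (π (x i)) = η i := by
    intro η hη
    choose d hdD hd using fun i => mem_map' hπ (hη i)
    obtain ⟨θ₀, hθ₀⟩ := hlift fun i => x i + d i
    have hT : ∀ a, θ₀ a - a ∈ D := by
      let T : LieSubalgebra k F :=
        { carrier := {a | θ₀ a - a ∈ D}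
          add_mem' := by
            intro a b ha hb
            show θ₀ (a + b) - (a + b) ∈ D
            have := D.add_mem ha hb
            rw [map_add]
            have e : θ₀ a + θ₀ b - (a + b) = (θ₀ a - a) + (θ₀ b - b) := by abel
            rw [e]
            exact this
          zero_mem' := by
            show θ₀ 0 - 0 ∈ D
            rw [map_zero, sub_zero]
            exact D.zero_mem
          smul_mem' := by
            intro t a ha
            show θ₀ (t • a) - t • a ∈ D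
            rw [map_smul, ← smul_sub]
            exact D.smul_mem t ha
          lie_mem' := by
            intro a b ha hb
            show θ₀ ⁅a, b⁆ - ⁅a, b⁆ ∈ D
            have e : θ₀ ⁅a, b⁆ - ⁅a, b⁆ = ⁅θ₀ a - a, θ₀ b⁆ + ⁅a, θ₀ b - b⁆ := by
              rw [LieHom.map_lie, sub_lie, lie_sub]
              abel
            rw [e]
            exact D.add_mem (lie_mem_right ha _) (lie_mem_left' hb _) }
      intro a
      have h3 : LieSubalgebra.lieSpan k F (Set.range x) ≤ T := by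
        rw [LieSubalgebra.lieSpan_le]
        rintro _ ⟨i, rfl⟩
        show θ₀ (x i) - x i ∈ D
        rw [hθ₀, add_sub_cancel_left]
        exact hdD i
      exact h3 (hx ▸ LieSubalgebra.mem_top a)
    have hD : ∀ a ∈ D, θ₀ a ∈ D := by
      intro a ha
      have := D.add_mem (hT a) ha
      rwa [sub_add_cancel] at this
    have hker : N ≤ (π.comp θ₀).ker := by
      intro a ha
      rw [LieHom.mem_ker, LieHom.comp_apply]
      exact (hπ0 _).2 (map_mem_gd θ₀ hD ha)
    obtain ⟨θ, hθ⟩ := relFree_factor N (π.comp θ₀) hker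
    refine ⟨θ, fun i => ?_⟩
    have h4 := hθ (x i)
    rw [LieHom.comp_apply, hθ₀, map_add, hd] at h4
    rw [hπdef, h4]
    abel
  have g4 : gd k (LieIdeal.map π D) (c + 1) = ⊥ := by
    rw [eq_bot_iff]
    intro q hq
    obtain ⟨a, ha, rfl⟩ := gd_map hπ D c q hq
    rw [LieSubmodule.mem_bot]
    exact (hπ0 a).2 ha
  have g5 : Eng k (LieIdeal.map π D) b := by
    intro y a
    obtain ⟨y, rfl⟩ := hπ y
    obtain ⟨a, rfl⟩ := hπ a
    rw [← pw_map]
    exact LieIdeal.mem_map (hEng y a)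
  have g6 : IdI k (F ⧸ N) m co := by
    intro a b' y
    obtain ⟨y, rfl⟩ := hπ y
    obtain ⟨a, rfl⟩ := hπ a
    obtain ⟨b', rfl⟩ := hπ b'
    have h2 := congrArg π (hI a b' y)
    rw [map_sum, map_zero] at h2
    rw [← h2]
    refine Finset.sum_congr rfl fun i _ => ?_
    rw [map_smul, LieHom.map_lie, pw_map, pw_map]
  have g7 : ∃ S : Finset (F ⧸ N), LieSubmodule.lieSpan k (F ⧸ N) (S : Set (F ⧸ N)) =
      LieIdeal.map π K := by
    obtain ⟨S, hS⟩ := hK
    refine ⟨S.image π, le_antisymm ?_ ?_⟩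
    · rw [LieSubmodule.lieSpan_le]
      intro z hz
      rw [Finset.coe_image] at hz
      obtain ⟨s, hs, rfl⟩ := hz
      exact LieIdeal.mem_map (hS ▸ LieSubmodule.subset_lieSpan hs)
    · intro q hq
      obtain ⟨κ, hκ, rfl⟩ := mem_map' hπ hq
      have h2 : K ≤ LieIdeal.comap π (LieSubmodule.lieSpan k (F ⧸ N)
          ((S.image π : Finset (F ⧸ N)) : Set (F ⧸ N))) := by
        rw [← hS, LieSubmodule.lieSpan_le]
        intro s hs
        show π s ∈ LieSubmodule.lieSpan k (F ⧸ N)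
          ((S.image π : Finset (F ⧸ N)) : Set (F ⧸ N))
        refine LieSubmodule.subset_lieSpan ?_
        rw [Finset.coe_image]
        exact ⟨s, hs, rfl⟩
      exact h2 hκ
  have g8 : π ζ ∉ LieIdeal.map π K := by
    intro h
    obtain ⟨κ, hκ, h2⟩ := mem_map' hπ h
    have h3 : ζ - κ ∈ K := hgK ((hπ0 _).1 (by rw [map_sub, h2, sub_self]))
    have := K.add_mem h3 hκ
    rw [sub_add_cancel] at this
    exact hζ this
  obtain ⟨I, hKI, hfc, hζI⟩ := h1 k p (F ⧸ N) n (fun i => π (x i)) (LieIdeal.map π D)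
    (LieIdeal.map π K) c b m r co (π ζ) g1 g2 g3 g4 g5 hr hco hne g6 g7 g8
  refine ⟨LieIdeal.comap π I, ?_, ?_, ?_⟩
  · intro κ hκ
    exact hKI (LieIdeal.mem_map hκ)
  · obtain ⟨W, hW⟩ := hfc
    choose ρ hρ using hπ
    refine ⟨W.image ρ, ?_⟩
    intro v _
    obtain ⟨a, ha, b', hb', hab⟩ := Submodule.mem_sup.mp (hW (Submodule.mem_top : π v ∈ ⊤))
    obtain ⟨v', hv', hv'b⟩ := span_lift (π := π) (S := ((W.image ρ : Finset F) : Set F))
      (T := (W : Set (F ⧸ N))) (fun t ht => ⟨ρ t, by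
        rw [Finset.coe_image]
        exact ⟨t, ht, rfl⟩, hρ t⟩) hb'
    refine Submodule.mem_sup.mpr ⟨v - v', ?_, v', hv', by abel⟩
    show π (v - v') ∈ I
    rw [map_sub, hv'b, ← hab, add_sub_cancel_right]
    exact ha
  · exact hζI

end Pool.Agent.Lib.MP_240c17_al.Sol
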