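import Pool.Agent.Lib.MP_240c17_al.Sol.Spec

/-!
A product with an `i₀`-fold repeated factor is in `M'`.
-/

set_option autoImplicit false

namespace Pool.Agent.Lib.MP_240c17_al.Sol

universe u

open Pool.Agent.Lib.MP_240c17_al Pool.Agent.Lib.MP_240c17_al.Two Pool.Agent.Lib.MP_240c17_al.Tor

private theorem rep_wd_replicate {k : Type u} [Field k] {L : Type u} [LieRing L] [LieAlgebra k L]
    (z : L) (j : ℕ) (a : L) : wd a (List.replicate j z) = pw k z j a := by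
  induction j generalizing a with
  | zero => simp
  | succ j ih => rw [List.replicate_succ, wd_cons, ih, pw_succ']

section

variable {k : Type u} [Field k] {L : Type u} [LieRing L] [LieAlgebra k L] {c : ℕ}
  {D M M' : LieIdeal k L}

private theorem rep_A (hM : ∀ a ∈ M, ∀ g ∈ gd k D (c + 2), ⁅a, g⁆ ∈ M') {z : L}
    (hz : z ∈ gd k D (c + 1)) {u : L} (hu : u ∈ D) (j : ℕ) {w : L} (hw : w ∈ M) :
    ⁅pw k z j w, u⁆ - pw k z j ⁅w, u⁆ ∈ M' := by
  induction j with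
  | zero =>
    rw [pw_zero, pw_zero, sub_self]
    exact M'.zero_mem
  | succ j ih =>
    rw [pw_succ, pw_succ, lie_lie_swap]
    have h1 : ⁅pw k z j w, ⁅z, u⁆⁆ ∈ M' :=
      hM _ (pw_mem hw z j) _ (lie_mem_gd (by omega) hz hu)
    have h2 := lie_mem_right ih z
    rw [sub_lie] at h2
    have h3 := M'.add_mem h2 h1
    have h4 : ⁅⁅pw k z j w, u⁆, z⁆ + ⁅pw k z j w, ⁅z, u⁆⁆ - ⁅pw k z j ⁅w, u⁆, z⁆ =
        ⁅⁅pw k z j w, u⁆, z⁆ - ⁅pw k z j ⁅w, u⁆, z⁆ + ⁅pw k z j w, ⁅z, u⁆⁆ := by abel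
    rw [h4]
    exact h3

private theorem rep_B (hM : ∀ a ∈ M, ∀ g ∈ gd k D (c + 2), ⁅a, g⁆ ∈ M') {z : L}
    (hz : z ∈ gd k D (c + 1)) (j : ℕ) (l : List L) (hl : ∀ u ∈ l, u ∈ D) {w : L} (hw : w ∈ M) :
    wd (pw k z j w) l - pw k z j (wd w l) ∈ M' := by
  induction l generalizing w with
  | nil =>
    rw [wd_nil, wd_nil, sub_self]
    exact M'.zero_mem
  | cons u l ih =>
    rw [wd_cons, wd_cons]
    have h1 := wd_mem (rep_A hM hz (hl u List.mem_cons_self) j hw) l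
    rw [wd_sub] at h1
    have h2 := ih (fun v hv => hl v (List.mem_cons_of_mem _ hv)) (lie_mem_right hw u)
    have h3 := M'.add_mem h1 h2
    rwa [sub_add_sub_cancel] at h3

end

/-- (E7) -/
theorem repeat_ (h1 : TopProp.{u}) (h2 : WordExpProp.{u}) (h3 : PermProp.{u}) :
    RepeatProp.{u} := by
  intro k _ _ L _ _ m i₀ c E co D M M' hi₀ hco hco' hId hM hE d zs z₁ hd hsp hzs hp a ha
  obtain ⟨zs', hp⟩ := hp
  -- we may assume that the repeated factor is in `gd (c + 1)`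
  obtain ⟨z, hz, hp⟩ : ∃ z, z ∈ gd k D (c + 1) ∧ zs.Perm (List.replicate i₀ z ++ zs') := by
    rcases Nat.eq_zero_or_pos i₀ with h0 | h0
    · refine ⟨0, (gd k D (c + 1)).zero_mem, ?_⟩
      rw [h0] at hp ⊢
      exact hp
    · refine ⟨z₁, hzs z₁ (hp.mem_iff.mpr ?_), hp⟩
      rw [List.mem_append, List.mem_replicate]
      exact Or.inl ⟨h0.ne', rfl⟩
  -- (ii)
  have hii : ∀ w ∈ M, ∀ (y b : L), b ∈ D → ⁅pw k z i₀ w, pw k y E b⁆ ∈ M' := by
    intro w hw y b hb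
    have h4 : pw k y E b = pw k y (m - i₀) (pw k y (E - (m - i₀)) b) := by
      rw [← pw_add]
      congr 2
      omega
    rw [h4]
    refine h1 k L m i₀ co M M' (gd k D (c + 2)) y z _ hi₀ hco hco' hId hM (fun j => ?_) w hw
    rw [← lie_skew]
    exact neg_mem (lie_mem_gd (by omega) hz (pw_mem (pw_mem hb y _) y j))
  -- (iii)
  have hiii : ∀ w ∈ M, ⁅pw k z i₀ w, fac d⁆ ∈ M' := by
    intro w hw
    obtain ⟨N, ε, σ, h4⟩ := h2 c
    rw [h4 L]
    refine sum_mem fun s _ => zsmul_mem ?_ _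
    obtain ⟨i, y, b, hb, hdi⟩ := hsp
    have h5 : d i ∈ List.ofFn fun j => d (σ s j) :=
      List.mem_ofFn.mpr ⟨(σ s).symm i, by simp⟩
    have h6 : ∀ u ∈ List.ofFn fun j => d (σ s j), u ∈ D := by
      intro u hu
      obtain ⟨j, rfl⟩ := List.mem_ofFn.mp hu
      exact hd _
    obtain ⟨l₁, l₂, hl⟩ := List.append_of_mem h5
    rw [hl] at h6 ⊢
    rw [wd_append, wd_cons]
    apply wd_mem
    have h7 := lie_mem_right (rep_B hM hz i₀ l₁ (fun u hu => h6 u (by simp [hu])) hw) (d i)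
    rw [sub_lie] at h7
    have h8 := hii (wd w l₁) (wd_mem hw l₁) y b hb
    rw [← hdi] at h8
    have h9 := M'.add_mem h7 h8
    rwa [sub_add_cancel] at h9
  -- (iv)
  have h4 : (fac d :: zs).Perm (List.replicate i₀ z ++ fac d :: zs') :=
    (hp.cons (fac d)).trans List.perm_middle.symm
  have h5 := h3 k L D M M' c hM _ _ h4 (by
    intro w hw
    rw [List.mem_cons] at hw
    rcases hw with rfl | hw
    · exact fac_mem d hd
    · exact hzs w hw) a ha
  have h6 : wd a (List.replicate i₀ z ++ fac d :: zs') ∈ M' := by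
    rw [wd_append, wd_cons, rep_wd_replicate (k := k)]
    exact wd_mem (hiii a ha) _
  have h7 := M'.add_mem h5 h6
  rw [sub_add_cancel] at h7
  exact h7

end Pool.Agent.Lib.MP_240c17_al.Sol
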