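import Pool.Agent.Lib.MP_240c17_al.Sol.Spec
import Pool.Agent.Lib.MP_240c17_al.Tor.Frob
import Pool.Agent.Lib.MP_240c17_al.Tor.PolyDiv
import Pool.Agent.Lib.MP_240c17_al.Tor.Torsion
import Pool.Agent.Lib.MP_240c17_al.Tor.Bounded

/-!
The main induction of the structure theorem.
-/

set_option autoImplicit false

namespace Pool.Agent.Lib.MP_240c17_al.Sol

universe u

open Pool.Agent.Lib.MP_240c17_al Pool.Agent.Lib.MP_240c17_al.Two Pool.Agent.Lib.MP_240c17_al.Tor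

/-- (F5) -/
theorem sClaim (h1 : ExtGenProp.{u}) (h2 : KeyProp.{u}) (h3 : DEProp.{u}) (h4 : ZsProp.{u})
    (h5 : BrnZsProp.{u}) : SClaimProp.{u} := by
  classical
  intro k _ _ p hp _ L _ _ n x m r co hx hr hco hne hId c
  have hp0 : 0 < p := hp.out.pos
  induction c with
  | zero =>
    intro b D M M' hMM hFC hEng hM
    refine ⟨D, b, 1, le_rfl, hFC, hEng, ?_⟩
    exact br_le (Y := M'.toSubmodule) hM
  | succ c ih =>
    intro b D M M' hMM hFC hEng hM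
    obtain ⟨n', y, hy, hyD⟩ := h1 k L n x D hx hFC
    -- the largest index
    obtain ⟨i₀, hi₀, hi₀', hi₀''⟩ : ∃ i₀, i₀ ≤ m ∧ co i₀ ≠ 0 ∧ ∀ i ≤ m, i₀ < i → co i = 0 := by
      obtain ⟨i, hi, hi'⟩ := hne
      refine ⟨Nat.findGreatest (fun i => co i ≠ 0) m, Nat.findGreatest_le m,
        Nat.findGreatest_spec (P := fun i => co i ≠ 0) hi hi', fun l hl hl' => ?_⟩
      have h6 := Nat.findGreatest_is_greatest hl' hl
      exact not_not.mp h6
    -- the numbers `P`, `Q`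
    obtain ⟨B, M₀, hM₀, hT⟩ := torsion polyDiv k p m r co hr hco hne
    have hFL := hT L hId
    obtain ⟨s0, hs0⟩ : ∃ s, max B (max b m) ≤ p ^ s :=
      ⟨max B (max b m), (Nat.lt_pow_self hp.out.one_lt).le⟩
    have h0 : BalW k L 0 (p ^ s0) (p ^ s0 * M₀) :=
      (hFL s0 _ ((le_max_left _ _).trans hs0) (dvd_refl _)).2
    have hB : ∀ i, ∃ s Q, s0 ≤ s ∧ 0 < Q ∧ BalW k L i (p ^ s) Q := by
      intro i
      induction i with
      | zero => exact ⟨s0, p ^ s0 * M₀, le_rfl, by positivity, h0⟩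
      | succ i ih =>
        obtain ⟨s, Q, h1, h2, h3⟩ := ih
        exact ⟨2 * s + 2, p ^ (s + 2) * Q, by omega, by positivity, boundStep k p L i s Q h3⟩
    obtain ⟨s1, Q1, hs1, hQ1, hBal1⟩ := hB (2 * c + 2)
    have hs01 : max B (max b m) ≤ p ^ s1 := hs0.trans (Nat.pow_le_pow_right hp0 hs1)
    have hBs1 : B ≤ p ^ s1 := (le_max_left _ _).trans hs01
    have hbs1 : b ≤ p ^ s1 := (le_max_left _ _).trans ((le_max_right _ _).trans hs01)
    have hms1 : m ≤ p ^ s1 := (le_max_right _ _).trans ((le_max_right _ _).trans hs01)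
    obtain ⟨Q, hQ⟩ : ∃ Q, Q = (p ^ s1 * M₀) * Q1 := ⟨_, rfl⟩
    have hQpos : 0 < Q := by rw [hQ]; positivity
    have hBal : BalW k L (2 * c + 2) (p ^ s1) Q := by
      rw [hQ]
      exact hBal1.mono le_rfl (p ^ s1 * M₀)
    have hDerQ : Der k L (p ^ s1 + Q) :=
      (hFL s1 Q hBs1 (by rw [hQ]; exact Dvd.intro _ rfl)).1
    have hDerP : Der k L (p ^ s1) := frob k p L s1
    have hEngP : Eng k D (p ^ s1) := hEng.mono hbs1
    obtain ⟨P, hP⟩ : ∃ P, P = p ^ s1 := ⟨_, rfl⟩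
    rw [← hP] at hBal hDerQ hDerP hEngP hms1
    obtain ⟨T, hT⟩ := h2 k L n' y D M M' c m i₀ P Q P co hy hyD hi₀ hi₀' hi₀'' hId hM
      (by omega) hQpos hDerP hDerQ hEngP hBal
    obtain ⟨E, hE, hED, hEFC, hEE⟩ := h3 k L n' y D P hy hyD hDerP hEngP
    obtain ⟨Zs, hZs, hZsE, hZsD⟩ := h4 k L D E c hED
    have hbrn := h5 k L D E Zs M M' c P T hE hZs hZsD hM hT
    -- the induction hypothesis
    have hstep : ∀ i : ℕ, ∃ (D' : LieIdeal k L) (b' t : ℕ), D' ≤ E ∧ FC D'.toSubmodule ⊤ ∧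
        Eng k D' b' ∧ brn k (brn k M Zs i ⊔ M') D' t ≤ brn k M Zs (i + 1) ⊔ M' := by
      intro i
      refine ih (P + P) E (brn k M Zs i ⊔ M') (brn k M Zs (i + 1) ⊔ M') ?_ hEFC hEE ?_
      · exact sup_le_sup_right (LieSubmodule.lie_le_left _ _) _
      · intro a ha g hg
        obtain ⟨a₁, ha₁, a₂, ha₂, rfl⟩ := LieSubmodule.mem_sup _ _ _ |>.mp ha
        rw [add_lie]
        refine add_mem ?_ ?_
        · have h6 : ⁅a₁, g⁆ ∈ brn k M Zs (i + 1) := LieSubmodule.lie_mem_lie ha₁ (hZsE hg)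
          exact (le_sup_left : brn k M Zs (i + 1) ≤ _) h6
        · have h6 : ⁅a₂, g⁆ ∈ M' := lie_mem_right ha₂ g
          exact (le_sup_right : M' ≤ _) h6
    have hall : ∀ j : ℕ, ∃ (D' : LieIdeal k L) (b' t : ℕ), D' ≤ D ∧ FC D'.toSubmodule ⊤ ∧
        Eng k D' b' ∧ brn k M D' t ≤ brn k M Zs j ⊔ M' := by
      intro j
      induction j with
      | zero => exact ⟨E, P + P, 0, hED, hEFC, hEE, le_sup_left⟩
      | succ j ihj =>
        obtain ⟨D₁, b₁, t₁, hD₁, hF₁, hE₁, hb₁⟩ := ihj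
        obtain ⟨D₂, b₂, t₂, -, hF₂, hE₂, hb₂⟩ := hstep j
        refine ⟨D₁ ⊓ D₂, max b₁ b₂, t₁ + t₂, inf_le_left.trans hD₁, fc_inf hF₁ hF₂, ?_, ?_⟩
        · intro z a
          exact ⟨hE₁.mono (le_max_left _ _) z a, hE₂.mono (le_max_right _ _) z a⟩
        · rw [brn_add]
          exact (brn_mono ((brn_mono le_rfl inf_le_left t₁).trans hb₁) inf_le_right t₂).trans hb₂
    obtain ⟨D', b', t, hD', hF', hE', hb'⟩ := hall (T + 1)
    exact ⟨D', b', t, hD', hF', hE', hb'.trans (sup_le hbrn le_rfl)⟩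

end Pool.Agent.Lib.MP_240c17_al.Sol
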