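import Pool.Agent.Lib.MP_240c17_al.Sol.ListH4

set_option autoImplicit false

namespace Pool.Agent.Lib.MP_240c17_al.Sol

universe u

open Pool.Agent.Lib.MP_240c17_al Pool.Agent.Lib.MP_240c17_al.Two Pool.Agent.Lib.MP_240c17_al.Tor

theorem sameBal (h1 : WordExpProp.{u}) (h2 : SlotBalProp.{u}) : SameBalProp.{u} := by
  intro k _ L _ _ c e Q h y a z z' d i i' hi
  obtain ⟨N, ε, σ, hσ⟩ := h1 c
  rw [hσ, hσ]
  refine Finset.sum_congr rfl fun s _ => ?_
  congr 1
  rw [H4.update_perm, H4.update_perm, H4.update_perm, H4.update_perm]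
  have hne : (σ s).symm i ≠ (σ s).symm i' := fun h3 => hi ((σ s).symm.injective h3)
  rcases lt_or_gt_of_ne hne with hlt | hlt
  · rw [H4.ofFn_update, H4.ofFn_update, H4.ofFn_update, H4.ofFn_update]
    exact H4.set_set h2 h y z z' _ a _ _ hlt (by rw [List.length_ofFn]; exact Fin.is_lt _) (by simp)
  · rw [Function.update_comm hne, Function.update_comm hne]
    rw [H4.ofFn_update, H4.ofFn_update, H4.ofFn_update, H4.ofFn_update]
    exact (H4.set_set h2 h y z' z _ a _ _ hlt (by rw [List.length_ofFn]; exact Fin.is_lt _) (by simp)).symm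

end Pool.Agent.Lib.MP_240c17_al.Sol
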