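import Pool.Agent.Lib.MP_240c17_al.Sol.Spec

/-!
Moving `Q` letters `x j` between two entries.
-/

set_option autoImplicit false

namespace Pool.Agent.Lib.MP_240c17_al.Sol

universe u

open Pool.Agent.Lib.MP_240c17_al Pool.Agent.Lib.MP_240c17_al.Two Pool.Agent.Lib.MP_240c17_al.Tor

section

variable {k : Type u} [Field k] {L : Type u} [LieRing L] [LieAlgebra k L]

/-! ### words with congruent entries -/

private theorem sh_wd_congr {D : LieIdeal k L} (n : ℕ) (f g : Fin n → L)
    (hg : ∀ i, g i ∈ D) (hfg : ∀ i, f i - g i ∈ gd k D 2) {i : ℕ}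
    (hi : 1 ≤ i) {a b : L} (ha : a ∈ gd k D i) (hab : a - b ∈ gd k D (i + 1)) :
    wd a (List.ofFn f) - wd b (List.ofFn g) ∈ gd k D (i + 1 + n) := by
  induction n generalizing i a b with
  | zero => simpa using hab
  | succ n ih =>
    rw [List.ofFn_succ, List.ofFn_succ, wd_cons, wd_cons]
    have h0 : f 0 ∈ D := by
      have h1 := D.add_mem (gd_le_D D (by omega) (hfg 0)) (hg 0)
      rwa [sub_add_cancel] at h1
    have h1 : ⁅a, f 0⁆ ∈ gd k D (i + 1) := lie_mem_gd hi ha h0
    have h2 : ⁅a, f 0⁆ - ⁅b, g 0⁆ ∈ gd k D (i + 1 + 1) := by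
      have h3 : ⁅a, f 0⁆ - ⁅b, g 0⁆ = ⁅a, f 0 - g 0⁆ + ⁅a - b, g 0⁆ := by
        rw [lie_sub, sub_lie]
        abel
      rw [h3]
      exact add_mem (lie_mem_gd_gd hi (by omega) ha (hfg 0)) (lie_mem_gd (by omega) hab (hg 0))
    have h3 := ih (fun j => f j.succ) (fun j => g j.succ) (fun j => hg _) (fun j => hfg _)
      (i := i + 1) (by omega) h1 h2
    rwa [show i + 1 + 1 + n = i + 1 + (n + 1) by ring] at h3

private theorem sh_fac_congr {D : LieIdeal k L} {c : ℕ} (d d' : Fin (c + 1) → L)
    (hd : ∀ i, d i ∈ D) (hd' : ∀ i, d' i ∈ D) (h : ∀ i, d i - d' i ∈ gd k D 2) :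
    fac d - fac d' ∈ gd k D (c + 2) := by
  have h1 := sh_wd_congr c (fun i => d i.succ) (fun i => d' i.succ) (fun i => hd' _)
    (fun i => h _) (i := 1) le_rfl (hd 0) (h 0)
  rwa [show 1 + 1 + c = c + 2 by ring] at h1

private theorem sh_wd_M {D M M' : LieIdeal k L} {c : ℕ}
    (hM : ∀ a ∈ M, ∀ g ∈ gd k D (c + 2), ⁅a, g⁆ ∈ M') (n : ℕ) (f g : Fin n → L)
    (h : ∀ i, f i - g i ∈ gd k D (c + 2)) {a : L} (ha : a ∈ M) :
    wd a (List.ofFn f) - wd a (List.ofFn g) ∈ M' := by
  induction n generalizing a with
  | zero => simp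
  | succ n ih =>
    rw [List.ofFn_succ, List.ofFn_succ, wd_cons, wd_cons]
    have h1 := ih (fun j => f j.succ) (fun j => g j.succ) (fun j => h _)
      (lie_mem_right ha (f 0))
    have h2 := wd_mem (hM a ha _ (h 0)) (List.ofFn fun j => g j.succ)
    rw [lie_sub, wd_sub] at h2
    have h3 := M'.add_mem h1 h2
    rwa [sub_add_sub_cancel] at h3

private theorem sh_val_congr {D M M' : LieIdeal k L} {c T : ℕ}
    (hM : ∀ a ∈ M, ∀ g ∈ gd k D (c + 2), ⁅a, g⁆ ∈ M') (v v' : Fin (T + 1) → Fin (c + 1) → L)
    (hv : ∀ l i, v l i ∈ D) (hv' : ∀ l i, v' l i ∈ D) (h : ∀ l i, v l i - v' l i ∈ gd k D 2)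
    {a : L} (ha : a ∈ M) : val a v - val a v' ∈ M' :=
  sh_wd_M hM (T + 1) _ _ (fun l => sh_fac_congr (v l) (v' l) (hv l) (hv' l) (h l)) ha

private theorem sh_wd_eq (n : ℕ) (f g : Fin n → L) (h : ∀ i, ∀ b : L, ⁅b, f i⁆ = ⁅b, g i⁆)
    (a : L) : wd a (List.ofFn f) = wd a (List.ofFn g) := by
  induction n generalizing a with
  | zero => simp
  | succ n ih =>
    rw [List.ofFn_succ, List.ofFn_succ, wd_cons, wd_cons, h 0 a]
    exact ih _ _ (fun i => h _) _

/-! ### `pw` and `pw` commute modulo `gd 2` -/

private theorem sh_pw_pw {D : LieIdeal k L} {P : ℕ} (hD : Der k L P) (hE : Eng k D P) (x y : L)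
    (E : ℕ) {w : L} (hw : w ∈ D) :
    pw k y E (pw k x P w) - pw k x P (pw k y E w) ∈ gd k D 2 := by
  induction E with
  | zero =>
    rw [pw_zero, pw_zero, sub_self]
    exact (gd k D 2).zero_mem
  | succ E ih =>
    rw [pw_succ, pw_succ]
    have h1 := lie_mem_right ih y
    rw [sub_lie] at h1
    have h2 := pw_comm_mod hD hE (i := 1) le_rfl (a := pw k y E w) (pw_mem hw y E) x y
    have h3 := sub_mem h1 h2
    have h4 : ⁅pw k y E (pw k x P w), y⁆ - ⁅pw k x P (pw k y E w), y⁆ -
        (pw k x P ⁅pw k y E w, y⁆ - ⁅pw k x P (pw k y E w), y⁆) =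
        ⁅pw k y E (pw k x P w), y⁆ - pw k x P ⁅pw k y E w, y⁆ := by abel
    rw [h4] at h3
    exact h3

private theorem sh_mono_mem {D : LieIdeal k L} {n : ℕ} (x : Fin n → L) {a : L} (ha : a ∈ D)
    (e : Fin n → ℕ) : mono x a e ∈ D := wd_mem ha _

/-- an entry -/
private def ent (k : Type u) [Field k] {L : Type u} [LieRing L] [LieAlgebra k L] {n : ℕ}
    (x : Fin n → L) (E : ℕ) (y : L) (q : Prop) [Decidable q] (a : L) (f : Fin n → ℕ) : L :=
  if q then pw k y E (mono x a f) else mono x a f

private theorem ent_mem {D : LieIdeal k L} {n : ℕ} (x : Fin n → L) (E : ℕ) (y : L) (q : Prop)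
    [Decidable q] {a : L} (ha : a ∈ D) (f : Fin n → ℕ) : ent k x E y q a f ∈ D := by
  unfold ent
  split_ifs
  · exact pw_mem (sh_mono_mem x ha f) y E
  · exact sh_mono_mem x ha f

private theorem ent_pw (h3 : MonoPwProp.{u}) {D : LieIdeal k L} {n : ℕ} (x : Fin n → L)
    {P : ℕ} (hD : Der k L P) (hE : Eng k D P) (E : ℕ) (y : L) (q : Prop) [Decidable q] {a : L}
    (ha : a ∈ D) (f : Fin n → ℕ) (j : Fin n) :
    ent k x E y q a (Function.update f j (f j + P)) - pw k (x j) P (ent k x E y q a f) ∈
      gd k D 2 := by
  have h1 := h3 k L n x D P a f j hD hE ha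
  unfold ent
  split_ifs
  · have h2 := sh_pw_pw hD hE (x j) y E (sh_mono_mem x ha f)
    have h4 := pw_mem h1 y E
    rw [map_sub] at h4
    have h5 := add_mem h4 h2
    rwa [sub_add_sub_cancel] at h5
  · exact h1

end

/-- (E5) -/
theorem shift (h1 : SameBalProp.{u}) (h2 : DiffBalProp.{u}) (h3 : MonoPwProp.{u})
    (h4 : PermProp.{u}) (_h5 : FacModProp.{u}) : ShiftProp.{u} := by
  classical
  intro k _ L _ _ n T c P Q E x D M M' y i₁ α e s s' j hM hP hPQ hE hB hα hss hs hs' a ha
  have hE' : Eng k D (P + Q) := hE.mono (Nat.le_add_right _ _)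
  -- the exponents
  set e' : Fin (T + 1) × Fin (c + 1) → Fin n → ℕ := fun t i =>
    if t = s ∧ i = j then e t i - Q else if t = s' ∧ i = j then e t i + Q else e t i with he'
  have he'o : ∀ t, t ≠ s → t ≠ s' → e' t = e t := by
    intro t ht ht'
    funext i
    simp only [he']
    rw [if_neg (fun h => ht h.1), if_neg (fun h => ht' h.1)]
  let e₀ : Fin n → ℕ := Function.update (e s) j (e s j - (P + Q))
  let e₁ : Fin n → ℕ := Function.update (e s') j (e s' j - P)
  have hes : e s = Function.update e₀ j (e₀ j + (P + Q)) := by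
    funext i
    by_cases hi : i = j
    · subst hi
      simp only [e₀, Function.update_self]
      omega
    · simp only [e₀, Function.update_of_ne hi]
  have hes' : e s' = Function.update e₁ j (e₁ j + P) := by
    funext i
    by_cases hi : i = j
    · subst hi
      simp only [e₁, Function.update_self]
      omega
    · simp only [e₁, Function.update_of_ne hi]
  have he's : e' s = Function.update e₀ j (e₀ j + P) := by
    funext i
    by_cases hi : i = j
    · subst hi
      simp only [e₀, he', Function.update_self, and_self, if_true]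
      omega
    · simp only [e₀, he', Function.update_of_ne hi, hi, and_false, if_false]
  have he's' : e' s' = Function.update e₁ j (e₁ j + (P + Q)) := by
    funext i
    by_cases hi : i = j
    · subst hi
      simp only [e₁, he', Function.update_self, and_true, if_true, hss.symm, if_false]
      omega
    · simp only [e₁, he', Function.update_of_ne hi, hi, and_false, if_false]
  -- the entries
  let w : Fin (T + 1) × Fin (c + 1) → (Fin n → ℕ) → L := fun t f =>
    ent k x E y (t.1 = 0 ∧ t.2 = i₁) (α t.1 t.2) f
  have hw : ∀ t f, w t f ∈ D := fun t f => ent_mem x E y _ (hα _ _) f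
  have hsv : ∀ f l i, sv k x E y i₁ α f l i = w (l, i) (f (l, i)) := fun f l i => rfl
  let v₁ : Fin (T + 1) → Fin (c + 1) → L := fun l i =>
    if (l, i) = s then pw k (x j) (P + Q) (w s e₀) else
      if (l, i) = s' then pw k (x j) P (w s' e₁) else sv k x E y i₁ α e l i
  let v₂ : Fin (T + 1) → Fin (c + 1) → L := fun l i =>
    if (l, i) = s then pw k (x j) P (w s e₀) else
      if (l, i) = s' then pw k (x j) (P + Q) (w s' e₁) else sv k x E y i₁ α e l i
  have hv₁ : ∀ l i, v₁ l i ∈ D := by
    intro l i
    simp only [v₁]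
    split_ifs
    · exact pw_mem (hw _ _) _ _
    · exact pw_mem (hw _ _) _ _
    · exact hw (l, i) (e (l, i))
  have hv₂ : ∀ l i, v₂ l i ∈ D := by
    intro l i
    simp only [v₂]
    split_ifs
    · exact pw_mem (hw _ _) _ _
    · exact pw_mem (hw _ _) _ _
    · exact hw (l, i) (e (l, i))
  have c1 : val a (sv k x E y i₁ α e) - val a v₁ ∈ M' := by
    refine sh_val_congr hM (sv k x E y i₁ α e) v₁ (fun l i => hw (l, i) (e (l, i))) hv₁ (fun l i => ?_) ha
    simp only [v₁, hsv]
    split_ifs with h6 h7
    · rw [h6]
      have h8 := ent_pw h3 x hPQ hE' E y (s.1 = 0 ∧ s.2 = i₁) (hα s.1 s.2) e₀ j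
      rw [← hes] at h8
      exact h8
    · rw [h7]
      have h8 := ent_pw h3 x hP hE E y (s'.1 = 0 ∧ s'.2 = i₁) (hα s'.1 s'.2) e₁ j
      rw [← hes'] at h8
      exact h8
    · rw [sub_self]
      exact (gd k D 2).zero_mem
  have c2 : val a (sv k x E y i₁ α e') - val a v₂ ∈ M' := by
    refine sh_val_congr hM (sv k x E y i₁ α e') v₂ (fun l i => hw (l, i) (e' (l, i))) hv₂ (fun l i => ?_) ha
    simp only [v₂, hsv]
    split_ifs with h6 h7
    · rw [h6]
      have h8 := ent_pw h3 x hP hE E y (s.1 = 0 ∧ s.2 = i₁) (hα s.1 s.2) e₀ j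
      rw [← he's] at h8
      exact h8
    · rw [h7]
      have h8 := ent_pw h3 x hPQ hE' E y (s'.1 = 0 ∧ s'.2 = i₁) (hα s'.1 s'.2) e₁ j
      rw [← he's'] at h8
      exact h8
    · rw [he'o _ h6 h7, sub_self]
      exact (gd k D 2).zero_mem
  -- the main step
  have c3 : val a v₁ - val a v₂ ∈ M' := by
    by_cases hl : s.1 = s'.1
    · -- the same factor
      have hi : s.2 ≠ s'.2 := fun h => hss (Prod.ext hl h)
      have h6 : val a v₁ = val a v₂ := by
        refine sh_wd_eq (T + 1) _ _ (fun l b => ?_) a
        by_cases h7 : l = s.1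
        · subst h7
          have h8 : v₁ s.1 = Function.update (Function.update (sv k x E y i₁ α e s.1) s.2
              (pw k (x j) (P + Q) (w s e₀))) s'.2 (pw k (x j) P (w s' e₁)) := by
            funext i
            by_cases hi1 : i = s'.2
            · subst hi1
              have hne : ¬ ((s.1, s'.2) = s) := fun h => hi (congrArg Prod.snd h).symm
              have heq : (s.1, s'.2) = s' := Prod.ext hl rfl
              simp only [v₁, Function.update_self]
              rw [if_neg hne, if_pos heq]
            · rw [Function.update_of_ne hi1]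
              have hne' : ¬ ((s.1, i) = s') := fun h => hi1 (congrArg Prod.snd h)
              by_cases hi2 : i = s.2
              · subst hi2
                simp only [v₁, Function.update_self, if_true]
              · rw [Function.update_of_ne hi2]
                have hne : ¬ ((s.1, i) = s) := fun h => hi2 (congrArg Prod.snd h)
                simp only [v₁]
                rw [if_neg hne, if_neg hne']
          have h9 : v₂ s.1 = Function.update (Function.update (sv k x E y i₁ α e s.1) s.2
              (pw k (x j) P (w s e₀))) s'.2 (pw k (x j) (P + Q) (w s' e₁)) := by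
            funext i
            by_cases hi1 : i = s'.2
            · subst hi1
              have hne : ¬ ((s.1, s'.2) = s) := fun h => hi (congrArg Prod.snd h).symm
              have heq : (s.1, s'.2) = s' := Prod.ext hl rfl
              simp only [v₂, Function.update_self]
              rw [if_neg hne, if_pos heq]
            · rw [Function.update_of_ne hi1]
              have hne' : ¬ ((s.1, i) = s') := fun h => hi1 (congrArg Prod.snd h)
              by_cases hi2 : i = s.2
              · subst hi2
                simp only [v₂, Function.update_self, if_true]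
              · rw [Function.update_of_ne hi2]
                have hne : ¬ ((s.1, i) = s) := fun h => hi2 (congrArg Prod.snd h)
                simp only [v₂]
                rw [if_neg hne, if_neg hne']
          rw [h8, h9]
          exact h1 k L c P Q (fun y a b zs hz => hB y a b zs (by omega)) (x j) b _ _ _ _ _ hi
        · have h8 : v₁ l = v₂ l := by
            funext i
            have hne : ¬ ((l, i) = s) := fun h => h7 (congrArg Prod.fst h)
            have hne' : ¬ ((l, i) = s') := fun h => h7 ((congrArg Prod.fst h).trans hl.symm)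
            simp only [v₁, v₂]
            rw [if_neg hne, if_neg hne', if_neg hne, if_neg hne']
          rw [h8]
      rw [h6, sub_self]
      exact M'.zero_mem
    · -- different factors
      have hv₁s : v₁ s.1 = Function.update (sv k x E y i₁ α e s.1) s.2
          (pw k (x j) (P + Q) (w s e₀)) := by
        funext i
        have hne' : ¬ ((s.1, i) = s') := fun h => hl (by rw [← h])
        by_cases hi2 : i = s.2
        · subst hi2
          simp only [v₁, Function.update_self, if_true]
        · rw [Function.update_of_ne hi2]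
          have hne : ¬ ((s.1, i) = s) := fun h => hi2 (congrArg Prod.snd h)
          simp only [v₁]
          rw [if_neg hne, if_neg hne']
      have hv₂s : v₂ s.1 = Function.update (sv k x E y i₁ α e s.1) s.2
          (pw k (x j) P (w s e₀)) := by
        funext i
        have hne' : ¬ ((s.1, i) = s') := fun h => hl (by rw [← h])
        by_cases hi2 : i = s.2
        · subst hi2
          simp only [v₂, Function.update_self, if_true]
        · rw [Function.update_of_ne hi2]
          have hne : ¬ ((s.1, i) = s) := fun h => hi2 (congrArg Prod.snd h)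
          simp only [v₂]
          rw [if_neg hne, if_neg hne']
      have hv₁s' : v₁ s'.1 = Function.update (sv k x E y i₁ α e s'.1) s'.2
          (pw k (x j) P (w s' e₁)) := by
        funext i
        have hne : ¬ ((s'.1, i) = s) := fun h => hl (congrArg Prod.fst h).symm
        by_cases hi2 : i = s'.2
        · subst hi2
          simp only [v₁, Function.update_self, if_true]
          rw [if_neg hne]
        · rw [Function.update_of_ne hi2]
          have hne' : ¬ ((s'.1, i) = s') := fun h => hi2 (congrArg Prod.snd h)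
          simp only [v₁]
          rw [if_neg hne, if_neg hne']
      have hv₂s' : v₂ s'.1 = Function.update (sv k x E y i₁ α e s'.1) s'.2
          (pw k (x j) (P + Q) (w s' e₁)) := by
        funext i
        have hne : ¬ ((s'.1, i) = s) := fun h => hl (congrArg Prod.fst h).symm
        by_cases hi2 : i = s'.2
        · subst hi2
          simp only [v₂, Function.update_self, if_true]
          rw [if_neg hne]
        · rw [Function.update_of_ne hi2]
          have hne' : ¬ ((s'.1, i) = s') := fun h => hi2 (congrArg Prod.snd h)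
          simp only [v₂]
          rw [if_neg hne, if_neg hne']
      -- permute the factors
      let R : List (Fin (T + 1)) := ((List.finRange (T + 1)).erase s.1).erase s'.1
      have hR : (List.finRange (T + 1)).Perm (s.1 :: s'.1 :: R) := by
        refine (List.perm_cons_erase (List.mem_finRange s.1)).trans
          (List.Perm.cons _ (List.perm_cons_erase ?_))
        exact (List.mem_erase_of_ne (fun h => hl h.symm)).mpr (List.mem_finRange s'.1)
      have hRn : ∀ l ∈ R, l ≠ s.1 ∧ l ≠ s'.1 := by
        intro l hl1
        have hnd : ((List.finRange (T + 1)).erase s.1).Nodup := (List.nodup_finRange _).erase _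
        have h6 := hnd.mem_erase_iff.mp hl1
        exact ⟨((List.nodup_finRange _).mem_erase_iff.mp h6.2).1, h6.1⟩
      have hperm : ∀ v : Fin (T + 1) → Fin (c + 1) → L, (∀ l i, v l i ∈ D) →
          val a v - wd ⁅⁅a, fac (v s.1)⁆, fac (v s'.1)⁆ (R.map fun l => fac (v l)) ∈ M' := by
        intro v hv
        have h6 : (List.ofFn fun l => fac (v l)) = (List.finRange (T + 1)).map fun l => fac (v l) :=
          List.ofFn_eq_map
        have h7 := h4 k L D M M' c hM _ _ (hR.map fun l => fac (v l)) (by
          intro z hz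
          obtain ⟨l, -, rfl⟩ := List.mem_map.mp hz
          exact fac_mem _ (hv l)) a ha
        rw [← h6] at h7
        exact h7
      have hRR : (R.map fun l => fac (v₁ l)) = R.map fun l => fac (v₂ l) := by
        apply List.map_congr_left
        intro l hl1
        obtain ⟨h7, h7'⟩ := hRn l hl1
        have h8 : v₁ l = v₂ l := by
          funext i
          have hne : ¬ ((l, i) = s) := fun h => h7 (congrArg Prod.fst h)
          have hne' : ¬ ((l, i) = s') := fun h => h7' (congrArg Prod.fst h)
          simp only [v₁, v₂]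
          rw [if_neg hne, if_neg hne', if_neg hne, if_neg hne']
        rw [h8]
      have h6 := hperm v₁ hv₁
      have h7 := hperm v₂ hv₂
      rw [hv₁s, hv₁s', hRR, h2 k L c P Q (fun y a b zs hz => hB y a b zs (by omega)),
        ← hv₂s, ← hv₂s'] at h6
      have h8 := sub_mem h6 h7
      rwa [sub_sub_sub_cancel_right] at h8
  have h6 := sub_mem (add_mem c1 c3) c2
  rw [sub_add_sub_cancel, sub_sub_sub_cancel_right] at h6
  exact h6

end Pool.Agent.Lib.MP_240c17_al.Sol
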