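import Pool.Agent.Lib.MP_240c17_al.Sol.Spec

set_option autoImplicit false

namespace Pool.Agent.Lib.MP_240c17_al.Sol

universe u

open Pool.Agent.Lib.MP_240c17_al Pool.Agent.Lib.MP_240c17_al.Two Pool.Agent.Lib.MP_240c17_al.Tor

theorem slotBal : SlotBalProp.{u} := by
  intro k _ L _ _ i e Q h y a d d' u u' u'' hu
  have key : ∀ Z z' : L, wd a (u ++ Z :: (u' ++ z' :: u'')) =
      wd (-⁅wd Z (wd a u :: u'), z'⁆) u'' := by
    intro Z z'
    have h1 : ⁅wd a u, Z⁆ = -⁅Z, wd a u⁆ := (lie_skew (wd a u) Z).symm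
    rw [wd_append, wd_cons, wd_append, wd_cons, wd_cons Z, h1, wd_neg, neg_lie]
  rw [key, key, h y d d' (wd a u :: u') (by simpa using hu)]

end Pool.Agent.Lib.MP_240c17_al.Sol
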