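import Pool.Agent.Lib.MP_240c17_al.Sol.Spec

/-!
The structure theorem from `SClaimProp`, by induction on the derived length (helper51).
-/

set_option autoImplicit false

namespace Pool.Agent.Lib.MP_240c17_al.Sol

universe u

open Pool.Agent.Lib.MP_240c17_al Pool.Agent.Lib.MP_240c17_al.Two Pool.Agent.Lib.MP_240c17_al.Tor

theorem struct_ (h1 : SClaimProp.{u}) : StructProp.{u} := by
  intro k _ _ p _ _ L _ _ n x m r co hx hr hco hne hid hsol
  have key : ∀ j : ℕ, ∃ (D : LieIdeal k L) (c b : ℕ), FC D.toSubmodule ⊤ ∧ Eng k D b ∧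
      gd k D (c + 1) ≤ LieAlgebra.derivedSeries k L j := by
    intro j
    induction j with
    | zero =>
      refine ⟨⊤, 0, 0, FC.refl _, fun y a => LieSubmodule.mem_top _, ?_⟩
      exact le_top
    | succ j ih =>
      obtain ⟨D, c, b, hF, hE, hg⟩ := ih
      obtain ⟨D', b', t, hD', hF', hE', hb⟩ := h1 k p L n x m r co hx hr hco hne hid c b D
        (LieAlgebra.derivedSeries k L j) (LieAlgebra.derivedSeries k L (j + 1))
        (by
          rw [LieAlgebra.derivedSeries_def, LieAlgebra.derivedSeriesOfIdeal_succ]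
          exact LieSubmodule.lie_le_right _ _) hF hE
        (by
          intro a ha g hg'
          rw [LieAlgebra.derivedSeries_def, LieAlgebra.derivedSeriesOfIdeal_succ]
          exact LieSubmodule.lie_mem_lie ha (hg hg'))
      refine ⟨D', c + t, b', hF', hE', ?_⟩
      rw [show c + t + 1 = c + 1 + t by ring, gd_brn D' (c + 1) t (by omega)]
      refine le_trans ?_ hb
      exact brn_mono ((gd_mono hD' (c + 1)).trans hg) le_rfl t
  obtain ⟨j, hj⟩ := (LieAlgebra.isSolvable_iff k L).mp hsol
  obtain ⟨D, c, b, hF, hE, hg⟩ := key j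
  refine ⟨D, c, b, hF, hE, ?_⟩
  rw [hj] at hg
  exact le_bot_iff.mp hg

end Pool.Agent.Lib.MP_240c17_al.Sol
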