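import Pool.Agent.Lib.MP_240c17_al.Sol.Spec
import Pool.Agent.Lib.MP_240c17_al.Two.RelFree

/-!
(C4) From the relatively free algebra to `L` (compare `Tor/Final.lean`; helper50).
-/

set_option autoImplicit false

namespace Pool.Agent.Lib.MP_240c17_al.Sol

universe u

open Pool.Agent.Lib.MP_240c17_al Pool.Agent.Lib.MP_240c17_al.Two Pool.Agent.Lib.MP_240c17_al.Tor

/-- The kernel of a presentation is mapped to the ideal generated by the images of the relators. -/
private theorem suff_ker {k : Type u} [Field k] {Id : Set (FreeLieAlgebra k ℕ)} {n : ℕ}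
    {L : Type u} [LieRing L] [LieAlgebra k L] {π : FreeLieAlgebra k (Fin n) →ₗ⁅k⁆ L}
    {S : Finset (FreeLieAlgebra k (Fin n))}
    {S' : Finset (FreeLieAlgebra k (Fin n) ⧸ verbalIdeal Id n)}
    (hS' : (S' : Set (FreeLieAlgebra k (Fin n) ⧸ verbalIdeal Id n)) =
      (qMk (verbalIdeal Id n)) '' (S : Set (FreeLieAlgebra k (Fin n))))
    (hker : π.ker = verbalIdeal Id n ⊔
      LieSubmodule.lieSpan k (FreeLieAlgebra k (Fin n)) (S : Set (FreeLieAlgebra k (Fin n))))
    (z : FreeLieAlgebra k (Fin n)) (hz : z ∈ π.ker) : qMk (verbalIdeal Id n) z ∈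
      LieSubmodule.lieSpan k (FreeLieAlgebra k (Fin n) ⧸ verbalIdeal Id n)
        (S' : Set (FreeLieAlgebra k (Fin n) ⧸ verbalIdeal Id n)) := by
  rw [hker] at hz
  obtain ⟨a, ha, b, hb, rfl⟩ := (LieSubmodule.mem_sup _ _ _).mp hz
  rw [map_add, (qMk_eq_zero (verbalIdeal Id n) a).mpr ha, zero_add]
  have h4 : LieSubmodule.lieSpan k (FreeLieAlgebra k (Fin n))
      (S : Set (FreeLieAlgebra k (Fin n))) ≤ LieIdeal.comap (qMk (verbalIdeal Id n))
        (LieSubmodule.lieSpan k (FreeLieAlgebra k (Fin n) ⧸ verbalIdeal Id n)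
          (S' : Set (FreeLieAlgebra k (Fin n) ⧸ verbalIdeal Id n))) := by
    rw [LieSubmodule.lieSpan_le]
    intro s hs
    show qMk (verbalIdeal Id n) s ∈ LieSubmodule.lieSpan k _ _
    refine LieSubmodule.subset_lieSpan ?_
    rw [hS']
    exact ⟨s, hs, rfl⟩
  exact h4 hb

/-- `final_gen` for one presentation. -/
private theorem suff_pres {k : Type u} [Field k] (Id : Set (FreeLieAlgebra k ℕ)) {n : ℕ}
    {L : Type u} [LieRing L] [LieAlgebra k L] (π : FreeLieAlgebra k (Fin n) →ₗ⁅k⁆ L)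
    (S : Finset (FreeLieAlgebra k (Fin n)))
    (S' : Finset (FreeLieAlgebra k (Fin n) ⧸ verbalIdeal Id n))
    (hS' : (S' : Set (FreeLieAlgebra k (Fin n) ⧸ verbalIdeal Id n)) =
      (qMk (verbalIdeal Id n)) '' (S : Set (FreeLieAlgebra k (Fin n))))
    (hπ : Function.Surjective π)
    (hker : π.ker = verbalIdeal Id n ⊔
      LieSubmodule.lieSpan k (FreeLieAlgebra k (Fin n)) (S : Set (FreeLieAlgebra k (Fin n))))
    (hM : ∀ ζ : FreeLieAlgebra k (Fin n) ⧸ verbalIdeal Id n,
      ζ ∉ LieSubmodule.lieSpan k (FreeLieAlgebra k (Fin n) ⧸ verbalIdeal Id n)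
        (S' : Set (FreeLieAlgebra k (Fin n) ⧸ verbalIdeal Id n)) →
      ∃ I : LieIdeal k (FreeLieAlgebra k (Fin n) ⧸ verbalIdeal Id n),
        LieSubmodule.lieSpan k (FreeLieAlgebra k (Fin n) ⧸ verbalIdeal Id n)
          (S' : Set (FreeLieAlgebra k (Fin n) ⧸ verbalIdeal Id n)) ≤ I ∧
        FC I.toSubmodule ⊤ ∧ ζ ∉ I) :
    ResiduallyFiniteDimensional k L := by
  classical
  intro x hx
  obtain ⟨w, rfl⟩ := hπ x
  -- the relatively free algebra
  let T := verbalIdeal Id n
  let q : FreeLieAlgebra k (Fin n) →ₗ⁅k⁆ (FreeLieAlgebra k (Fin n) ⧸ T) := qMk T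
  have hq : Function.Surjective q := qMk_surjective T
  have hKker : ∀ v, q v ∈ LieSubmodule.lieSpan k (FreeLieAlgebra k (Fin n) ⧸ verbalIdeal Id n)
      (S' : Set (FreeLieAlgebra k (Fin n) ⧸ verbalIdeal Id n)) → v ∈ π.ker := by
    intro v hv
    have h1 : LieSubmodule.lieSpan k (FreeLieAlgebra k (Fin n) ⧸ verbalIdeal Id n)
        (S' : Set (FreeLieAlgebra k (Fin n) ⧸ verbalIdeal Id n)) ≤ LieIdeal.map q π.ker := by
      rw [LieSubmodule.lieSpan_le]
      intro z hz
      rw [hS'] at hz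
      obtain ⟨s, hs, rfl⟩ := hz
      refine LieIdeal.mem_map ?_
      rw [hker]
      exact (le_sup_right : _ ≤ verbalIdeal Id n ⊔ _) (LieSubmodule.subset_lieSpan hs)
    obtain ⟨v', hv'⟩ := LieIdeal.mem_map_of_surjective hq (h1 hv)
    have h2 : v - v' ∈ T := by
      rw [← qMk_eq_zero, map_sub, sub_eq_zero]
      exact hv'.symm
    have h0 : verbalIdeal Id n ≤ π.ker := by
      rw [hker]
      exact le_sup_left
    have h3 : v - v' ∈ π.ker := h0 h2
    have h4 := π.ker.add_mem h3 v'.2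
    simpa using h4
  obtain ⟨I, hKI, hfc, hwI⟩ := hM (q w) fun h => hx (LieHom.mem_ker.mp (hKker w h))
  -- the ideal of `L`
  let J : LieIdeal k L := LieIdeal.map π (LieIdeal.comap q I)
  refine ⟨J, ?_, ?_⟩
  · show FiniteDimensional k (L ⧸ J.toSubmodule)
    rw [← fc_top_iff]
    obtain ⟨W, hW⟩ := hfc
    choose r hr using hq
    refine ⟨W.image fun z => π (r z), ?_⟩
    intro l _
    obtain ⟨v, rfl⟩ := hπ l
    obtain ⟨a, ha, b, hb, hab⟩ := Submodule.mem_sup.mp (hW (Submodule.mem_top : q v ∈ ⊤))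
    have h1 : ∀ b ∈ Submodule.span k (W : Set (FreeLieAlgebra k (Fin n) ⧸ T)),
        ∃ v' : FreeLieAlgebra k (Fin n), q v' = b ∧
          π v' ∈ Submodule.span k ((W.image fun z => π (r z) : Finset L) : Set L) := by
      intro b hb
      induction hb using Submodule.span_induction with
      | mem z hz =>
        exact ⟨r z, hr z, Submodule.subset_span (by
          rw [Finset.coe_image]
          exact ⟨z, hz, rfl⟩)⟩
      | zero => exact ⟨0, map_zero q, by rw [map_zero]; exact Submodule.zero_mem _⟩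
      | add x y hx hy ihx ihy =>
        obtain ⟨v1, h1, h2⟩ := ihx
        obtain ⟨v2, h3, h4⟩ := ihy
        exact ⟨v1 + v2, by rw [map_add, h1, h3], by rw [map_add]; exact Submodule.add_mem _ h2 h4⟩
      | smul t x hx ihx =>
        obtain ⟨v1, h1, h2⟩ := ihx
        exact ⟨t • v1, by rw [map_smul, h1], by rw [map_smul]; exact Submodule.smul_mem _ t h2⟩
    obtain ⟨v', hv', hv'W⟩ := h1 b hb
    refine Submodule.mem_sup.mpr ⟨π (v - v'), ?_, π v', hv'W, by rw [map_sub]; abel⟩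
    show π (v - v') ∈ J
    refine LieIdeal.mem_map ?_
    show q (v - v') ∈ I
    rw [map_sub, hv', ← hab, add_sub_cancel_right]
    exact ha
  · intro hmem
    obtain ⟨v, hv⟩ := LieIdeal.mem_map_of_surjective hπ hmem
    have h1 : q v ∈ I := v.2
    have h2 : (v : FreeLieAlgebra k (Fin n)) - w ∈ π.ker := by
      rw [LieHom.mem_ker, map_sub, hv, sub_self]
    have h5 : q v - q w ∈ I := by
      rw [← map_sub]
      exact hKI (suff_ker hS' hker _ h2)
    apply hwI
    have h6 := I.sub_mem h1 h5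
    simpa using h6

/-- (C4) -/
theorem suff (h1 : RedCoreProp.{u}) (h2 : TietzeProp.{u}) : SuffProp.{u} := by
  classical
  intro k _ _ p _ _ Id L _ _ m r co hfp hr hco hne hI hDex
  obtain ⟨D, c, b, ⟨W, hW⟩, hEng, hgd⟩ := hDex
  obtain ⟨n, π, S, hπ, hker, hw⟩ := h2 k Id L W.card (fun j => (W.equivFin.symm j : L)) hfp
  obtain ⟨S', hS'⟩ : ∃ S' : Finset (FreeLieAlgebra k (Fin n) ⧸ verbalIdeal Id n),
      (S' : Set (FreeLieAlgebra k (Fin n) ⧸ verbalIdeal Id n)) =
        (qMk (verbalIdeal Id n)) '' (S : Set (FreeLieAlgebra k (Fin n))) :=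
    ⟨S.image (qMk (verbalIdeal Id n)), Finset.coe_image⟩
  refine suff_pres Id π S S' hS' hπ hker ?_
  intro ζ hζ
  have hV := relFree_mem Id n
  have hTker : verbalIdeal Id n ≤ π.ker := by
    rw [hker]
    exact le_sup_left
  obtain ⟨πF, hπF⟩ := relFree_factor (verbalIdeal Id n) π hTker
  refine h1 k p (FreeLieAlgebra k (Fin n) ⧸ verbalIdeal Id n) n
    (fun i => qMk (verbalIdeal Id n) (FreeLieAlgebra.of k i)) (LieIdeal.comap πF D)
    (LieSubmodule.lieSpan k _ (S' : Set (FreeLieAlgebra k (Fin n) ⧸ verbalIdeal Id n))) c b m r co ζ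
    (relFree_gen Id n) ?_ (fun η => relFree_lift Id n hV η) ?_ ?_ hr hco hne (hI _ hV) ⟨S', rfl⟩ hζ
  · -- generation modulo `D`
    rw [eq_top_iff]
    intro f _
    obtain ⟨d, hd, s, hs, hds⟩ := Submodule.mem_sup.mp (hW (Submodule.mem_top : πF f ∈ ⊤))
    have h3 : ∀ s ∈ Submodule.span k (W : Set L), ∃ s' ∈ Submodule.span k
        (Set.range fun i => qMk (verbalIdeal Id n) (FreeLieAlgebra.of k i)), πF s' = s := by
      intro s hs
      induction hs using Submodule.span_induction with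
      | mem z hz =>
        obtain ⟨i, hi⟩ := hw (W.equivFin ⟨z, hz⟩)
        refine ⟨_, Submodule.subset_span ⟨i, rfl⟩, ?_⟩
        show πF (qMk (verbalIdeal Id n) (FreeLieAlgebra.of k i)) = z
        rw [hπF, hi, Equiv.symm_apply_apply]
      | zero => exact ⟨0, Submodule.zero_mem _, map_zero πF⟩
      | add x y hx hy ihx ihy =>
        obtain ⟨v1, h3, h4⟩ := ihx
        obtain ⟨v2, h5, h6⟩ := ihy
        exact ⟨v1 + v2, Submodule.add_mem _ h3 h5, by rw [map_add, h4, h6]⟩
      | smul t x hx ihx =>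
        obtain ⟨v1, h3, h4⟩ := ihx
        exact ⟨t • v1, Submodule.smul_mem _ t h3, by rw [map_smul, h4]⟩
    obtain ⟨s', hs', hss⟩ := h3 s hs
    refine Submodule.mem_sup.mpr ⟨s', hs', f - s', ?_, by abel⟩
    show πF (f - s') ∈ D
    rw [map_sub, hss, ← hds, add_sub_cancel_right]
    exact hd
  · -- the lower central series
    intro a ha
    have h3 : πF a ∈ gd k D (c + 1) := map_mem_gd πF (fun a ha => ha) ha
    rw [hgd] at h3
    obtain ⟨v, rfl⟩ := qMk_surjective (verbalIdeal Id n) a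
    rw [hπF] at h3
    exact suff_ker hS' hker v (LieHom.mem_ker.mpr ((LieSubmodule.mem_bot _).mp h3))
  · intro y a
    show πF (pw k y b a) ∈ D
    rw [pw_map]
    exact hEng _ _

end Pool.Agent.Lib.MP_240c17_al.Sol
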