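import Pool.Agent.Lib.MP_240c17_al.Sol.Spec
import Pool.Agent.Lib.MP_240c17_al.Func

/-!
Adding generators to a relative finite presentation.
-/

set_option autoImplicit false

namespace Pool.Agent.Lib.MP_240c17_al.Sol

universe u

open Pool.Agent.Lib.MP_240c17_al Pool.Agent.Lib.MP_240c17_al.Two Pool.Agent.Lib.MP_240c17_al.Tor

section

variable {k : Type u} [Field k]

/-- Homomorphisms map the verbal ideal into the verbal ideal. -/
theorem Tietze_verbal (Id : Set (FreeLieAlgebra k ℕ)) {n m : ℕ}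
    (f : FreeLieAlgebra k (Fin n) →ₗ⁅k⁆ FreeLieAlgebra k (Fin m)) {a : FreeLieAlgebra k (Fin n)}
    (ha : a ∈ verbalIdeal Id n) : f a ∈ verbalIdeal Id m := by
  have h1 : verbalIdeal Id n ≤ LieIdeal.comap f (verbalIdeal Id m) := by
    unfold verbalIdeal
    rw [LieSubmodule.lieSpan_le]
    rintro w ⟨g, hg, ρ, rfl⟩
    show FreeLieAlgebra.lift k ρ g ∈ LieIdeal.comap f _
    rw [LieIdeal.mem_comap, ← LieHom.comp_apply]
    have h2 : f.comp (FreeLieAlgebra.lift k ρ) = FreeLieAlgebra.lift k (fun i => f (ρ i)) := by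
      apply FreeLieAlgebra.hom_ext
      intro i
      simp
    rw [h2]
    exact LieSubmodule.subset_lieSpan ⟨g, hg, _, rfl⟩
  exact LieIdeal.mem_comap.mp (h1 ha)

/-- An element is congruent to its image under `σ` modulo an ideal, if the generators are. -/
theorem Tietze_congr {n : ℕ}
    (σ : FreeLieAlgebra k (Fin n) →ₗ⁅k⁆ FreeLieAlgebra k (Fin n))
    (J : LieIdeal k (FreeLieAlgebra k (Fin n)))
    (h : ∀ i, FreeLieAlgebra.of k i - σ (FreeLieAlgebra.of k i) ∈ J)
    (a : FreeLieAlgebra k (Fin n)) : a - σ a ∈ J := by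
  let T : LieSubalgebra k (FreeLieAlgebra k (Fin n)) :=
    { carrier := {a | a - σ a ∈ J}
      add_mem' := by
        intro a b ha hb
        have h1 := J.add_mem ha hb
        show a + b - σ (a + b) ∈ J
        rw [map_add]
        rw [show a + b - (σ a + σ b) = a - σ a + (b - σ b) by abel]
        exact h1
      zero_mem' := by
        show (0 : FreeLieAlgebra k (Fin n)) - σ 0 ∈ J
        rw [map_zero, sub_zero]
        exact J.zero_mem
      smul_mem' := by
        intro c a ha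
        show c • a - σ (c • a) ∈ J
        rw [map_smul, ← smul_sub]
        exact J.smul_mem c ha
      lie_mem' := by
        intro a b ha hb
        show ⁅a, b⁆ - σ ⁅a, b⁆ ∈ J
        rw [LieHom.map_lie]
        have h1 : ⁅a, b⁆ - ⁅σ a, σ b⁆ = ⁅a - σ a, b⁆ + ⁅σ a, b - σ b⁆ := by
          rw [sub_lie, lie_sub]
          abel
        rw [h1]
        exact J.add_mem (lie_mem_right (I := J) ha b) (J.lie_mem hb) }
  have h1 := lift_mem T (FreeLieAlgebra.of k) h a
  have h2 : FreeLieAlgebra.lift k (FreeLieAlgebra.of k) =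
      (LieHom.id : FreeLieAlgebra k (Fin n) →ₗ⁅k⁆ FreeLieAlgebra k (Fin n)) := by
    apply FreeLieAlgebra.hom_ext
    intro i
    simp
  rw [h2] at h1
  exact h1

end

theorem tietze : TietzeProp.{u} := by
  classical
  intro k _ Id L _ _ N w hL
  obtain ⟨n₀, π₀, S₀, hsurj, hker⟩ := hL
  choose v hv using fun j => hsurj (w j)
  obtain ⟨ι, hι⟩ : ∃ ι : FreeLieAlgebra k (Fin n₀) →ₗ⁅k⁆ FreeLieAlgebra k (Fin (n₀ + N)),
      ∀ i, ι (FreeLieAlgebra.of k i) = FreeLieAlgebra.of k (Fin.castAdd N i) :=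
    ⟨FreeLieAlgebra.lift k (fun i => FreeLieAlgebra.of k (Fin.castAdd N i)), fun i => by simp⟩
  obtain ⟨ρ, hρ1, hρ2⟩ : ∃ ρ : FreeLieAlgebra k (Fin (n₀ + N)) →ₗ⁅k⁆ FreeLieAlgebra k (Fin n₀),
      (∀ i, ρ (FreeLieAlgebra.of k (Fin.castAdd N i)) = FreeLieAlgebra.of k i) ∧
      ∀ j, ρ (FreeLieAlgebra.of k (Fin.natAdd n₀ j)) = v j :=
    ⟨FreeLieAlgebra.lift k (Fin.append (FreeLieAlgebra.of k) v), fun i => by
      rw [FreeLieAlgebra.lift_of_apply, Fin.append_left], fun j => by
      rw [FreeLieAlgebra.lift_of_apply, Fin.append_right]⟩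
  have hρι : ∀ a, ρ (ι a) = a := by
    intro a
    have h : ρ.comp ι = (LieHom.id : FreeLieAlgebra k (Fin n₀) →ₗ⁅k⁆ _) := by
      apply FreeLieAlgebra.hom_ext
      intro i
      rw [LieHom.comp_apply, hι, hρ1]
      rfl
    rw [← LieHom.comp_apply, h]
    rfl
  set S : Finset (FreeLieAlgebra k (Fin (n₀ + N))) := S₀.image ι ∪
    Finset.univ.image (fun j => FreeLieAlgebra.of k (Fin.natAdd n₀ j) - ι (v j)) with hS
  have hS1 : ∀ s ∈ S₀, ι s ∈ S := fun s hs =>
    Finset.mem_union_left _ (Finset.mem_image_of_mem _ hs)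
  have hS2 : ∀ j, FreeLieAlgebra.of k (Fin.natAdd n₀ j) - ι (v j) ∈ S := fun j =>
    Finset.mem_union_right _ (Finset.mem_image_of_mem _ (Finset.mem_univ j))
  set J := LieSubmodule.lieSpan k (FreeLieAlgebra k (Fin (n₀ + N)))
    (S : Set (FreeLieAlgebra k (Fin (n₀ + N)))) with hJ
  have hcong : ∀ a, a - ι (ρ a) ∈ J := by
    intro a
    refine Tietze_congr (ι.comp ρ) J ?_ a
    intro i
    rw [LieHom.comp_apply]
    refine Fin.addCases (fun i => ?_) (fun j => ?_) i
    · rw [hρ1, hι, sub_self]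
      exact J.zero_mem
    · rw [hρ2]
      exact LieSubmodule.subset_lieSpan (hS2 j)
  refine ⟨n₀ + N, π₀.comp ρ, S, ?_, ?_, ?_⟩
  · intro z
    obtain ⟨a, rfl⟩ := hsurj z
    exact ⟨ι a, by rw [LieHom.comp_apply, hρι]⟩
  · apply le_antisymm
    · intro a ha
      have h1 : ρ a ∈ π₀.ker := by
        rw [LieHom.mem_ker] at ha ⊢
        exact ha
      rw [hker, LieSubmodule.mem_sup] at h1
      obtain ⟨b, hb, c, hc, hbc⟩ := h1
      have h2 : ι b ∈ verbalIdeal Id (n₀ + N) := Tietze_verbal Id ι hb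
      have h3 : ι c ∈ J := by
        have h4 : LieSubmodule.lieSpan k (FreeLieAlgebra k (Fin n₀))
            (S₀ : Set (FreeLieAlgebra k (Fin n₀))) ≤ LieIdeal.comap ι J := by
          rw [LieSubmodule.lieSpan_le]
          intro s hs
          show s ∈ LieIdeal.comap ι J
          rw [LieIdeal.mem_comap]
          exact LieSubmodule.subset_lieSpan (hS1 s hs)
        exact LieIdeal.mem_comap.mp (h4 hc)
      have h5 : a = ι b + (ι c + (a - ι (ρ a))) := by
        rw [← hbc, map_add]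
        abel
      rw [h5, LieSubmodule.mem_sup]
      exact ⟨ι b, h2, _, J.add_mem h3 (hcong a), rfl⟩
    · apply sup_le
      · intro a ha
        rw [LieHom.mem_ker, LieHom.comp_apply, ← LieHom.mem_ker, hker]
        exact (le_sup_left : verbalIdeal Id n₀ ≤ verbalIdeal Id n₀ ⊔ _) (Tietze_verbal Id ρ ha)
      · rw [LieSubmodule.lieSpan_le]
        intro s hs
        show s ∈ (π₀.comp ρ).ker
        rw [LieHom.mem_ker, LieHom.comp_apply]
        rw [Finset.mem_coe, hS, Finset.mem_union, Finset.mem_image, Finset.mem_image] at hs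
        rcases hs with ⟨t, ht, rfl⟩ | ⟨j, _, rfl⟩
        · rw [hρι, ← LieHom.mem_ker, hker]
          have h6 : t ∈ LieSubmodule.lieSpan k (FreeLieAlgebra k (Fin n₀))
              (S₀ : Set (FreeLieAlgebra k (Fin n₀))) := LieSubmodule.subset_lieSpan ht
          exact (le_sup_right : _ ≤ verbalIdeal Id n₀ ⊔ LieSubmodule.lieSpan k
            (FreeLieAlgebra k (Fin n₀)) (S₀ : Set (FreeLieAlgebra k (Fin n₀)))) h6
        · rw [map_sub, hρ2, hρι, sub_self, map_zero]
  · intro j
    refine ⟨Fin.natAdd n₀ j, ?_⟩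
    rw [LieHom.comp_apply, hρ2, hv]

end Pool.Agent.Lib.MP_240c17_al.Sol
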