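import Pool.Agent.Lib.MP_240c17_al.Sol.Spec
import Pool.Agent.Lib.MP_240c17_al.Tor.Vand

/-!
The top coefficient of the identity after `y ↦ y + lam • z`.
-/

set_option autoImplicit false

namespace Pool.Agent.Lib.MP_240c17_al.Sol

universe u

open Pool.Agent.Lib.MP_240c17_al Pool.Agent.Lib.MP_240c17_al.Two Pool.Agent.Lib.MP_240c17_al.Tor

namespace TopAux

theorem coeff_mem (k : Type u) [Field k] [Infinite k] {X : Type u} [AddCommGroup X] [Module k X]
    (Y : Submodule k X) (d : ℕ) (q : ℕ → X)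
    (h : ∀ lam : k, ∑ l ∈ Finset.range (d + 1), lam ^ l • q l ∈ Y) (i : ℕ) (hi : i ≤ d) :
    q i ∈ Y := by
  obtain ⟨lam, g, hg⟩ := weights k d
  have h1 : q i = ∑ s ∈ Finset.range (d + 1), g i s •
      ∑ l ∈ Finset.range (d + 1), lam s ^ l • q l := by
    simp only [Finset.smul_sum, smul_smul]
    rw [Finset.sum_comm]
    simp only [← Finset.sum_smul]
    have h2 : ∀ l ∈ Finset.range (d + 1), (∑ s ∈ Finset.range (d + 1), g i s * lam s ^ l) • q l =
        if l = i then q l else 0 := by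
      intro l hl
      rw [hg i hi l (Nat.lt_succ_iff.1 (Finset.mem_range.1 hl))]
      by_cases hil : i = l
      · subst hil
        simp
      · rw [if_neg hil, if_neg (fun h => hil h.symm), zero_smul]
    rw [Finset.sum_congr rfl h2, Finset.sum_ite_eq' (Finset.range (d + 1)) i,
      if_pos (Finset.mem_range.2 (Nat.lt_succ_iff.2 hi))]
  rw [h1]
  exact Y.sum_mem fun s _ => Y.smul_mem _ (h _)

variable {k : Type u} [Field k] {L : Type u} [LieRing L] [LieAlgebra k L]

theorem sum_lie' (s : Finset ℕ) (c : ℕ → k) (f : ℕ → L) (y : L) :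
    ⁅∑ l ∈ s, c l • f l, y⁆ = ∑ l ∈ s, c l • ⁅f l, y⁆ := by
  have h := map_sum (adr k y) (fun l => c l • f l) s
  simp only [map_smul, adr_apply] at h
  exact h

theorem poly (y z a : L) (i : ℕ) : ∃ Q : ℕ → L, (∀ l, i < l → Q l = 0) ∧ Q i = pw k z i a ∧
    ∀ (lam : k) (N : ℕ), i ≤ N →
      pw k (y + lam • z) i a = ∑ l ∈ Finset.range (N + 1), lam ^ l • Q l := by
  induction i with
  | zero =>
    refine ⟨fun l => if l = 0 then a else 0, fun l hl => if_neg (by omega), by simp, ?_⟩
    intro lam N _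
    rw [Finset.sum_range_succ']
    simp
  | succ i ih =>
    obtain ⟨Q, h1, h2, h3⟩ := ih
    refine ⟨fun l => ⁅Q l, y⁆ + (if l = 0 then 0 else ⁅Q (l - 1), z⁆), ?_, ?_, ?_⟩
    · intro l hl
      simp only
      rw [h1 l (by omega), h1 (l - 1) (by omega)]
      simp
    · simp only
      rw [h1 (i + 1) (by omega), if_neg (by omega), Nat.add_sub_cancel, h2, pw_succ]
      simp
    · intro lam N hN
      obtain ⟨N, rfl⟩ : ∃ N', N = N' + 1 := ⟨N - 1, by omega⟩
      rw [pw_succ, lie_add, lie_smul]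
      have e1 : ⁅pw k (y + lam • z) i a, y⁆ =
          ∑ l ∈ Finset.range (N + 1 + 1), lam ^ l • ⁅Q l, y⁆ := by
        rw [h3 lam (N + 1) (by omega), sum_lie']
      have e2 : lam • ⁅pw k (y + lam • z) i a, z⁆ =
          ∑ l ∈ Finset.range (N + 1), lam ^ (l + 1) • ⁅Q l, z⁆ := by
        rw [h3 lam N (by omega), sum_lie', Finset.smul_sum]
        refine Finset.sum_congr rfl fun l _ => ?_
        rw [smul_smul, pow_succ, mul_comm]
      rw [e1, e2]
      simp only [smul_add, Finset.sum_add_distrib]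
      congr 1
      symm
      rw [Finset.sum_range_succ' (fun l => lam ^ l • (if l = 0 then (0 : L) else ⁅Q (l - 1), z⁆))
        (N + 1)]
      simp

end TopAux

open TopAux

/-- (D1) -/
theorem top_ : TopProp.{u} := by
  intro k _ _ L _ _ m i₀ co M M' Γ y z b hi₀ hco hco0 hI hMΓ hbz a ha
  -- the words in `b`
  have hb : ∀ (lam : k) (j : ℕ), pw k (y + lam • z) j b - pw k y j b ∈ Γ := by
    intro lam j
    induction j with
    | zero => simp
    | succ j ih =>
      have h1 : pw k (y + lam • z) (j + 1) b - pw k y (j + 1) b =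
          ⁅pw k (y + lam • z) j b - pw k y j b, y + lam • z⁆ + lam • ⁅pw k y j b, z⁆ := by
        rw [pw_succ, pw_succ, sub_lie, lie_add (pw k y j b), lie_smul]
        abel
      rw [h1]
      exact Γ.add_mem (lie_mem_right ih _) (Γ.smul_mem _ (hbz j))
  choose Q hQ0 hQt hQ using fun i => poly (k := k) y z a i
  have hS : ∀ lam : k, ∑ i ∈ Finset.range (i₀ + 1),
      co i • ⁅pw k (y + lam • z) i a, pw k y (m - i) b⁆ ∈ M' := by
    intro lam
    have h1 := hI a b (y + lam • z)
    have h2 : ∑ i ∈ Finset.range (i₀ + 1),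
        co i • ⁅pw k (y + lam • z) i a, pw k (y + lam • z) (m - i) b⁆ = 0 := by
      rw [← h1]
      refine Finset.sum_subset (fun i hi => ?_) (fun i hi hi' => ?_)
      · rw [Finset.mem_range] at hi ⊢
        omega
      · rw [Finset.mem_range] at hi hi'
        rw [hco0 i (by omega) (by omega), zero_smul]
    have h3 : ∑ i ∈ Finset.range (i₀ + 1),
        co i • ⁅pw k (y + lam • z) i a, pw k y (m - i) b⁆ =
        -∑ i ∈ Finset.range (i₀ + 1),
          co i • ⁅pw k (y + lam • z) i a, pw k (y + lam • z) (m - i) b - pw k y (m - i) b⁆ := by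
      rw [eq_neg_iff_add_eq_zero, ← Finset.sum_add_distrib, ← h2]
      refine Finset.sum_congr rfl fun i _ => ?_
      rw [← smul_add, ← lie_add, add_sub_cancel]
    rw [h3]
    refine M'.neg_mem (sum_mem fun i _ => M'.smul_mem _ ?_)
    exact hMΓ _ (pw_mem ha _ _) _ (hb lam _)
  have h4 := coeff_mem k M'.toSubmodule i₀
    (fun l => ∑ i ∈ Finset.range (i₀ + 1), co i • ⁅Q i l, pw k y (m - i) b⁆) (by
      intro lam
      have h5 : ∑ l ∈ Finset.range (i₀ + 1), lam ^ l •
          ∑ i ∈ Finset.range (i₀ + 1), co i • ⁅Q i l, pw k y (m - i) b⁆ =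
          ∑ i ∈ Finset.range (i₀ + 1), co i • ⁅pw k (y + lam • z) i a, pw k y (m - i) b⁆ := by
        simp only [Finset.smul_sum]
        rw [Finset.sum_comm]
        refine Finset.sum_congr rfl fun i hi => ?_
        rw [hQ i lam i₀ (by rw [Finset.mem_range] at hi; omega), sum_lie', Finset.smul_sum]
        refine Finset.sum_congr rfl fun l _ => ?_
        rw [smul_smul, smul_smul, mul_comm]
      rw [h5]
      exact hS lam) i₀ le_rfl
  have h6 : ∑ i ∈ Finset.range (i₀ + 1), co i • ⁅Q i i₀, pw k y (m - i) b⁆ =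
      co i₀ • ⁅pw k z i₀ a, pw k y (m - i₀) b⁆ := by
    rw [Finset.sum_range_succ, hQt, Finset.sum_eq_zero, zero_add]
    intro i hi
    rw [Finset.mem_range] at hi
    rw [hQ0 i i₀ hi, zero_lie, smul_zero]
  rw [h6] at h4
  have h7 := M'.smul_mem (co i₀)⁻¹ h4
  rwa [smul_smul, inv_mul_cancel₀ hco, one_smul] at h7

end Pool.Agent.Lib.MP_240c17_al.Sol
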