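import Pool.Agent.Lib.MP_240c17_al.Sol.FacH4

set_option autoImplicit false

namespace Pool.Agent.Lib.MP_240c17_al.Sol

universe u

open Pool.Agent.Lib.MP_240c17_al Pool.Agent.Lib.MP_240c17_al.Two Pool.Agent.Lib.MP_240c17_al.Tor

namespace WordExpH4

/-- fixes the last index -/
def s1 {n : ℕ} (σ : Equiv.Perm (Fin n)) : Equiv.Perm (Fin (n + 1)) :=
  (finSuccEquivLast.trans (Equiv.optionCongr σ)).trans finSuccEquivLast.symm

/-- the last index first -/
def s2 {n : ℕ} (σ : Equiv.Perm (Fin n)) : Equiv.Perm (Fin (n + 1)) :=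
  ((finSuccEquiv n).trans (Equiv.optionCongr σ)).trans finSuccEquivLast.symm

theorem s1_castSucc {n : ℕ} (σ : Equiv.Perm (Fin n)) (j : Fin n) :
    s1 σ j.castSucc = (σ j).castSucc := by
  simp [s1]

theorem s1_last {n : ℕ} (σ : Equiv.Perm (Fin n)) : s1 σ (Fin.last n) = Fin.last n := by
  simp [s1]

theorem s2_zero {n : ℕ} (σ : Equiv.Perm (Fin n)) : s2 σ 0 = Fin.last n := by
  simp [s2]

theorem s2_succ {n : ℕ} (σ : Equiv.Perm (Fin n)) (j : Fin n) : s2 σ j.succ = (σ j).castSucc := by
  simp [s2]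

end WordExpH4

open WordExpH4 in
theorem wordExp : WordExpProp.{u} := by
  intro c
  induction c with
  | zero =>
    refine ⟨1, fun _ => 1, fun _ => 1, fun L _ a d => ?_⟩
    rw [H4.fac_zero']
    simp
  | succ c ih =>
    obtain ⟨N, ε, σ, h⟩ := ih
    refine ⟨N + N, Fin.append ε (fun s => -ε s), Fin.append (fun s => s1 (σ s)) (fun s => s2 (σ s)),
      fun L _ a d => ?_⟩
    rw [Fin.sum_univ_add]
    simp only [Fin.append_left, Fin.append_right]
    rw [H4.fac_succ, lie_lie_right, h, h, sum_lie]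
    have e1 : ∀ s : Fin N, ⁅ε s • wd a (List.ofFn fun i => d (σ s i).castSucc), d (Fin.last (c + 1))⁆ =
        ε s • wd a (List.ofFn fun i => d (s1 (σ s) i)) := by
      intro s
      have h1 : (List.ofFn fun i => d (s1 (σ s) i)) =
          (List.ofFn fun i => d (σ s i).castSucc) ++ [d (Fin.last (c + 1))] := by
        rw [List.ofFn_succ', List.concat_eq_append, s1_last]
        simp only [s1_castSucc]
      rw [h1, wd_concat]
      exact smul_lie _ _ _
    have e2 : ∀ s : Fin N, wd ⁅a, d (Fin.last (c + 1))⁆ (List.ofFn fun i => d (σ s i).castSucc) =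
        wd a (List.ofFn fun i => d (s2 (σ s) i)) := by
      intro s
      have h1 : (List.ofFn fun i => d (s2 (σ s) i)) =
          d (Fin.last (c + 1)) :: (List.ofFn fun i => d (σ s i).castSucc) := by
        rw [List.ofFn_succ, s2_zero]
        simp only [s2_succ]
      rw [h1, wd_cons]
    rw [Finset.sum_congr rfl fun s _ => e1 s, sub_eq_add_neg, ← Finset.sum_neg_distrib]
    congr 1
    refine Finset.sum_congr rfl fun s _ => ?_
    rw [e2, neg_smul]

end Pool.Agent.Lib.MP_240c17_al.Sol
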