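import Pool.Agent.Lib.MP_240c17_al.Sol.FacH4

set_option autoImplicit false

namespace Pool.Agent.Lib.MP_240c17_al.Sol

universe u

open Pool.Agent.Lib.MP_240c17_al Pool.Agent.Lib.MP_240c17_al.Two Pool.Agent.Lib.MP_240c17_al.Tor

namespace ZsH4

variable {k : Type u} [Field k] {L : Type u} [LieRing L] [LieAlgebra k L]

theorem gd_span (E : LieIdeal k L) (c : ℕ) : (gd k E (c + 1)).toSubmodule ≤
    Submodule.span k {w | ∃ d : Fin (c + 1) → L, (∀ i, d i ∈ E) ∧ w = fac d} := by
  induction c with
  | zero =>
    intro a ha
    refine Submodule.subset_span ⟨fun _ => a, fun _ => ha, ?_⟩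
    rw [H4.fac_zero']
  | succ c ih =>
    apply gd_succ_le (by omega)
    intro a ha b hb
    have h1 := ih ha
    clear ha
    induction h1 using Submodule.span_induction with
    | mem x hx =>
      obtain ⟨d, hd, rfl⟩ := hx
      refine Submodule.subset_span ⟨Fin.snoc (α := fun _ => L) d b, fun i => ?_, ?_⟩
      · induction i using Fin.lastCases with
        | last =>
          rw [Fin.snoc_last]
          exact hb
        | cast j =>
          rw [Fin.snoc_castSucc]
          exact hd j
      · rw [H4.fac_snoc]
    | zero =>
      rw [zero_lie]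
      exact Submodule.zero_mem _
    | add x y _ _ hx hy =>
      rw [add_lie]
      exact Submodule.add_mem _ hx hy
    | smul t x _ hx =>
      rw [smul_lie]
      exact Submodule.smul_mem _ t hx

end ZsH4

theorem zs : ZsProp.{u} := by
  intro k _ L _ _ D E c hED
  set X : Set L := {w | ∃ d : Fin (c + 1) → L, (∀ i, d i ∈ D) ∧ (∃ i, d i ∈ E) ∧ w = fac d}
    with hX
  have hstab : ∀ (y : L), ∀ w ∈ Submodule.span k X, ⁅y, w⁆ ∈ Submodule.span k X := by
    intro y w hw
    induction hw using Submodule.span_induction with
    | mem x hx =>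
      obtain ⟨d, hd, ⟨i, hi⟩, rfl⟩ := hx
      rw [← lie_skew, H4.fac_lie]
      refine Submodule.neg_mem _ (Submodule.sum_mem _ fun j _ => Submodule.subset_span ?_)
      refine ⟨Function.update d j ⁅d j, y⁆, fun l => ?_, ⟨i, ?_⟩, rfl⟩
      · by_cases h : l = j
        · subst h
          rw [Function.update_self]
          exact lie_mem_right (hd l) y
        · rw [Function.update_of_ne h]
          exact hd l
      · by_cases h : i = j
        · subst h
          rw [Function.update_self]
          exact lie_mem_right hi y
        · rw [Function.update_of_ne h]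
          exact hi
    | zero =>
      rw [lie_zero]
      exact Submodule.zero_mem _
    | add x z _ _ hx hz =>
      rw [lie_add]
      exact Submodule.add_mem _ hx hz
    | smul t x _ hx =>
      rw [lie_smul]
      exact Submodule.smul_mem _ t hx
  let Zs : LieIdeal k L := { Submodule.span k X with lie_mem := fun {y w} hw => hstab y w hw }
  have hZs : Zs.toSubmodule = Submodule.span k X := rfl
  refine ⟨Zs, hZs, ?_, ?_⟩
  · intro a ha
    have h1 := ZsH4.gd_span E c ha
    have h2 : Submodule.span k {w | ∃ d : Fin (c + 1) → L, (∀ i, d i ∈ E) ∧ w = fac d} ≤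
        Submodule.span k X := by
      apply Submodule.span_mono
      rintro _ ⟨d, hd, rfl⟩
      exact ⟨d, fun i => hED (hd i), ⟨0, hd 0⟩, rfl⟩
    exact h2 h1
  · intro a ha
    have h1 : Submodule.span k X ≤ (gd k D (c + 1)).toSubmodule := by
      rw [Submodule.span_le]
      rintro _ ⟨d, hd, _, rfl⟩
      exact fac_mem d hd
    exact h1 ha

end Pool.Agent.Lib.MP_240c17_al.Sol
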